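import Pool.Agent.W_4481e3_q12.HiRoot
import Pool.Agent.W_4481e3_q46.Frame

/-!
Upper bound of the slopes over `2/15`: `HiStmt 875`.
-/

open Filter Topology

namespace Pool.Agent.W_4481e3_q12

open Complex Ev
open Pool.Agent.W_4481e3_q42 Pool.Agent.W_4481e3_q59 Pool.Agent.W_MP_4481e3_an
open Pool.Agent.W_MP_4481e3_an.Boot (slope)
open Pool.Agent.W_4481e3_h1 (b15)

/-- the alive points over `8/15` are good -/
lemma good_of_alive {ε : ℂ} {w : ℂ} (h : Alive ε (2 ^ 3 / 15) w) : Good (ε ^ 2) 3 w := by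
  set e := ε ^ 2 with he
  have horb : ∀ j, orb e (2 ^ 3 / 15) w j = zz e 3 j w := by
    intro j
    induction j with
    | zero => rfl
    | succ j ih =>
      have h1 : zz e 3 (j + 1) w = zz e 3 j w + (cph (3 + j) : ℂ) * (e - zz e 3 j w ^ 2) := by
        rw [zz_add]; rfl
      rw [h1, ← ih]
      show orb e (2 ^ 3 / 15) w j + (Real.cos (2 * Real.pi * (2 ^ j * (2 ^ 3 / 15))) : ℂ) * _ = _
      congr 2
      unfold cph
      congr 2
      rw [pow_add]
      ring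
  refine ⟨fun j => ?_, fun j hj => ?_⟩
  · rw [← horb]; exact h.bd j
  · rw [← horb]
    have hx : (2:ℝ) ^ j * (2 ^ 3 / 15) = 2 ^ (3 + j) / 15 := by rw [pow_add]; ring
    obtain ⟨n, hn⟩ : ∃ n : ℤ, (2:ℤ) ^ (3 + j) = 15 * n + 4 := by
      have h1 : (2:ℤ) ^ (3 + j) ≡ 4 [ZMOD 15] := by
        obtain ⟨m, hm⟩ : ∃ m, 3 + j = 4 * m + 2 := ⟨(3 + j) / 4, by omega⟩
        rw [hm, pow_add, pow_mul]
        have h2 : ((2:ℤ) ^ 4) ^ m ≡ 1 ^ m [ZMOD 15] := Int.ModEq.pow m (by decide)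
        rw [one_pow] at h2
        have h3 := h2.mul_right (2 ^ 2)
        norm_num at h3 ⊢
        exact h3
      obtain ⟨k, hk⟩ := h1.symm.dvd
      exact ⟨k, by linarith⟩
    have hn' : (2:ℝ) ^ (3 + j) = 15 * n + 4 := by exact_mod_cast hn
    have h4 := h.half j n (by rw [hx, hn']; linarith) (by rw [hx, hn']; linarith)
    rw [hx] at h4
    exact h4

lemma Good.succ3 {e : ℂ} {w w1 : ℂ} (hg : Good e 3 w) (e1 : w1 = w + (cph 3 : ℂ) * (e - w ^ 2)) :
    Good e 0 w1 := by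
  have h4 := hg.shift 1
  have h5 : zz e 3 1 w = w1 := by rw [e1]; rfl
  rw [h5] at h4
  have hz : ∀ j (q : ℕ) (v : ℂ), zz e (q + 4) j v = zz e q j v := by
    intro j
    induction j with
    | zero => intro q v; rfl
    | succ j ih =>
      intro q v
      show zz e (q + 4 + 1) j (v + (cph (q + 4) : ℂ) * (e - v ^ 2)) = zz e (q + 1) j _
      rw [cph_add, show q + 4 + 1 = q + 1 + 4 by ring, ih]
  refine ⟨fun j => ?_, fun j hj => ?_⟩
  · have := h4.bd j
    rwa [show 3 + 1 = 0 + 4 by norm_num, hz] at this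
  · have := h4.near j (by omega)
    rwa [show 3 + 1 + j = (0 + j) + 4 by ring, cph_add, show 3 + 1 = 0 + 4 by norm_num, hz] at this

/-- from the tree to a point -/
theorem hi_core {e : ℂ} (h1 : ‖e‖ < 1 / 4) (h2 : 47 * ‖e‖ ^ 2 < 32 * e.re) (h3 : 0 ≤ e.im)
    {w : ℂ} (hg : Good e 3 w) {a : ℂ} (ha : ‖a‖ ≤ 380) :
    ‖aa e 3 w a 2‖ ≤ 874 ∧ ‖aa e 3 w a 4‖ ≤ 380 := by
  have h16 : ‖(16777216 : ℂ)‖ = 16777216 := by simp
  obtain ⟨w1, e1⟩ : ∃ w1, w1 = w + (cph 3 : ℂ) * (e - w ^ 2) := ⟨_, rfl⟩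
  have hg1 := hg.succ3 e1
  have hA := hg1.al h1.le
  have hre := Complex.abs_re_le_norm e
  have him := Complex.abs_im_le_norm e
  have hre0 : 0 ≤ e.re := by nlinarith [norm_nonneg e]
  have E_re : ((16777216 : ℂ) * e).re = 16777216 * e.re := by
    have : (16777216 : ℂ) = ((16777216 : ℝ) : ℂ) := by norm_num
    rw [this, Complex.re_ofReal_mul]
  have E_im : ((16777216 : ℂ) * e).im = 16777216 * e.im := by
    have : (16777216 : ℂ) = ((16777216 : ℝ) : ℂ) := by norm_num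
    rw [this, Complex.im_ofReal_mul]
  have W_re : ((16777216 : ℂ) * w1).re = 16777216 * w1.re := by
    have : (16777216 : ℂ) = ((16777216 : ℝ) : ℂ) := by norm_num
    rw [this, Complex.re_ofReal_mul]
  have W_im : ((16777216 : ℂ) * w1).im = 16777216 * w1.im := by
    have : (16777216 : ℂ) = ((16777216 : ℝ) : ℂ) := by norm_num
    rw [this, Complex.im_ofReal_mul]
  have hw1 := hg1.zero h1.le rfl
  have hwr := (Complex.abs_re_le_norm w1).trans hw1
  have hwi := (Complex.abs_im_le_norm w1).trans hw1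
  have hE : BxE 2097152 2097152 2097152 (16777216 * e) := by
    unfold BxE
    rw [E_re, E_im]
    have a1 := abs_le.1 hre
    have a2 := abs_le.1 him
    constructor <;> (rw [abs_le]; push_cast; constructor <;> linarith)
  have hW : BxW 536870912 536870912 44040192 (16777216 * w1) := by
    unfold BxW
    rw [W_re, W_im]
    rw [abs_le] at hwr hwi
    constructor <;> (rw [abs_le]; push_cast; constructor <;> linarith)
  have hR : Rg (16777216 * e) := by
    unfold Rg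
    rw [E_re, norm_mul, h16]
    constructor
    · linarith
    · nlinarith
  have hQ := Hi.root _ _ hE hW hR hA
  unfold Hi.HP at hQ
  have q1 : (16777216 : ℂ) * e / 16777216 = e := by field_simp
  have q2 : (16777216 : ℂ) * w1 / 16777216 = w1 := by field_simp
  rw [q1, q2] at hQ
  obtain ⟨r1, r2⟩ := hQ w a e1 (by unfold PEv.Le; push_cast; linarith)
  unfold PEv.Le at r1 r2
  push_cast at r1 r2
  constructor <;> linarith

/-- the slopes are affine in the initial slope -/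
lemma aa_diff (e : ℂ) (p : ℕ) (w a a' : ℂ) (j : ℕ) : aa e p w a j - aa e p w a' j =
    (∏ i ∈ Finset.range j, ((1 - 2 * (cc (p + i) : ℂ) * ww e p w i) / 2)) * (a - a') := by
  induction j with
  | zero => simp [aa]
  | succ j ih =>
    rw [Finset.prod_range_succ]
    show ((1 - 2 * cc (p + j) * ww e p w j) * aa e p w a j + dd (p + j) * (e - ww e p w j ^ 2)) / 2 -
      ((1 - 2 * cc (p + j) * ww e p w j) * aa e p w a' j + dd (p + j) * (e - ww e p w j ^ 2)) / 2 = _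
    have : ((1 - 2 * (cc (p + j) : ℂ) * ww e p w j) * aa e p w a j + dd (p + j) * (e - ww e p w j ^ 2)) / 2 -
      ((1 - 2 * cc (p + j) * ww e p w j) * aa e p w a' j + dd (p + j) * (e - ww e p w j ^ 2)) / 2 =
      ((1 - 2 * (cc (p + j) : ℂ) * ww e p w j) / 2) * (aa e p w a j - aa e p w a' j) := by ring
    rw [this, ih]
    ring

/-- a shorter initial slope of the same direction -/
lemma shorten {a : ℂ} (h : 380 < ‖a‖) : ∃ a', ‖a'‖ = 380 ∧ ‖a - a'‖ = ‖a‖ - 380 := by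
  have h0 : 0 < ‖a‖ := by linarith
  refine ⟨((380 / ‖a‖ : ℝ) : ℂ) * a, ?_, ?_⟩
  · rw [norm_mul, Complex.norm_real, Real.norm_eq_abs, abs_of_pos (by positivity)]
    field_simp
  · have : a - ((380 / ‖a‖ : ℝ) : ℂ) * a = ((1 - 380 / ‖a‖ : ℝ) : ℂ) * a := by push_cast; ring
    rw [this, norm_mul, Complex.norm_real, Real.norm_eq_abs, abs_of_nonneg]
    · field_simp
    · rw [sub_nonneg, div_le_one h0]; exact h.le

/-- **Upper bound, one period.** -/
theorem hi_step {ε : ℂ} (hn : ‖ε‖ < 1 / 2)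
    (hreg : 3 * ‖ε ^ 2‖ ^ 2 < 2 * (ε ^ 2).re + ‖ε ^ 2‖ ^ 4) (him : 0 ≤ (ε ^ 2).im)
    {w : ℂ} (h : Alive ε (2 ^ 3 / 15) w) {a : ℂ} {x : ℝ} (hx : 0 ≤ x) (ha : ‖a‖ ≤ 380 + x) :
    ‖aa (ε ^ 2) 3 w a 2‖ ≤ 874 + 8 * x ∧ ‖aa (ε ^ 2) 3 w a 4‖ ≤ 380 + 199 / 200 * x := by
  have hC := contr1 hn hreg him h
  have hg := good_of_alive h
  set e := ε ^ 2 with he
  have hen : ‖e‖ < 1 / 4 := by
    rw [he, norm_pow]
    have := norm_nonneg ε
    nlinarith
  have hreg' : 47 * ‖e‖ ^ 2 < 32 * e.re := by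
    have h4 : ‖e‖ ^ 4 ≤ ‖e‖ ^ 2 / 16 := by
      have : ‖e‖ ^ 2 ≤ 1 / 16 := by nlinarith [norm_nonneg e]
      nlinarith [sq_nonneg ‖e‖]
    linarith
  rcases le_or_gt ‖a‖ 380 with h380 | h380
  · obtain ⟨r1, r2⟩ := hi_core hen hreg' him hg h380
    constructor <;> linarith
  · obtain ⟨a', n1, n2⟩ := shorten h380
    obtain ⟨r1, r2⟩ := hi_core hen hreg' him hg (a := a') n1.le
    have hd : ‖a - a'‖ ≤ x := by rw [n2]; linarith
    constructor
    · have h2 := aa_diff e 3 w a a' 2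
      have h3 : ‖aa e 3 w a 2 - aa e 3 w a' 2‖ ≤ 8 * x := by
        rw [h2, norm_mul, norm_prod]
        have f0 : ‖(1 - 2 * (cc (3 + 0) : ℂ) * ww e 3 w 0) / 2‖ ≤ 276 / 100 := by
          have hw := hg.three hen.le rfl
          have hc := c3_bd
          have : |cc (3 + 0)| ≤ 978148 / 1000000 := by
            show |cph 3| ≤ _
            rw [abs_le]; constructor <;> linarith [hc.1, hc.2]
          rw [norm_div]
          have h2 : ‖(2:ℂ)‖ = 2 := by simp
          have h5 : ‖1 - 2 * (cc (3 + 0) : ℂ) * ww e 3 w 0‖ ≤ 1 + 2 * (978148 / 1000000) * (23 / 10) := by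
            refine (norm_sub_le _ _).trans ?_
            rw [norm_one, norm_mul, norm_mul, h2, Complex.norm_real, Real.norm_eq_abs]
            have : 2 * |cc (3 + 0)| * ‖ww e 3 w 0‖ ≤ 2 * (978148 / 1000000) * (23 / 10) :=
              mul_le_mul (by linarith) hw (norm_nonneg _) (by norm_num)
            linarith
          rw [h2, div_le_iff₀ (by norm_num)]
          linarith
        have f1 : ‖(1 - 2 * (cc (3 + 1) : ℂ) * ww e 3 w 1) / 2‖ ≤ 2895 / 1000 := by
          have hg1 : Good e 0 (ww e 3 w 1) := hg.succ3 rfl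
          have hw := hg1.zero hen.le rfl
          have hc := c0_bd
          have : |cc (3 + 1)| ≤ 913546 / 1000000 := by
            have e1 : cc (3 + 1) = cph 0 := cph_add 0
            rw [e1, abs_le]; constructor <;> linarith [hc.1, hc.2]
          rw [norm_div]
          have h2 : ‖(2:ℂ)‖ = 2 := by simp
          have h5 : ‖1 - 2 * (cc (3 + 1) : ℂ) * ww e 3 w 1‖ ≤ 1 + 2 * (913546 / 1000000) * (262001 / 100000) := by
            refine (norm_sub_le _ _).trans ?_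
            rw [norm_one, norm_mul, norm_mul, h2, Complex.norm_real, Real.norm_eq_abs]
            have : 2 * |cc (3 + 1)| * ‖ww e 3 w 1‖ ≤ 2 * (913546 / 1000000) * (262001 / 100000) :=
              mul_le_mul (by linarith) (by linarith) (norm_nonneg _) (by norm_num)
            linarith
          rw [h2, div_le_iff₀ (by norm_num)]
          linarith
        rw [Finset.prod_range_succ, Finset.prod_range_succ, Finset.prod_range_zero, one_mul]
        have h6 : ‖(1 - 2 * (cc (3 + 0) : ℂ) * ww e 3 w 0) / 2‖ * ‖(1 - 2 * (cc (3 + 1) : ℂ) * ww e 3 w 1) / 2‖ ≤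
            276 / 100 * (2895 / 1000) := mul_le_mul f0 f1 (norm_nonneg _) (by norm_num)
        calc _ ≤ (276 / 100 * (2895 / 1000)) * x := mul_le_mul h6 hd (norm_nonneg _) (by norm_num)
          _ ≤ 8 * x := by nlinarith
      have h4 := norm_add_le (aa e 3 w a 2 - aa e 3 w a' 2) (aa e 3 w a' 2)
      rw [sub_add_cancel] at h4
      linarith
    · have h2 := aa_diff e 3 w a a' 4
      have h3 : ‖aa e 3 w a 4 - aa e 3 w a' 4‖ ≤ 199 / 200 * x := by
        rw [h2, norm_mul, norm_prod]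
        have e3 : ∏ i ∈ Finset.range 4, ‖(1 - 2 * (cc (3 + i) : ℂ) * ww e 3 w i) / 2‖ =
            (∏ i ∈ Finset.range 4, ‖1 - 2 * (cc (3 + i) : ℂ) * ww e 3 w i‖) / 16 := by
          simp only [norm_div, Finset.prod_div_distrib]
          have h2 : ‖(2:ℂ)‖ = 2 := by simp
          rw [h2]
          norm_num
        rw [e3]
        have h6 : (∏ i ∈ Finset.range 4, ‖1 - 2 * (cc (3 + i) : ℂ) * ww e 3 w i‖) / 16 ≤ 199 / 200 := by
          rw [div_le_iff₀ (by norm_num)]; linarith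
        exact mul_le_mul h6 hd (norm_nonneg _) (by norm_num)
      have h4 := norm_add_le (aa e 3 w a 4 - aa e 3 w a' 4) (aa e 3 w a' 4)
      rw [sub_add_cancel] at h4
      linarith

/-- **Upper bound of the slopes over `2/15`.** -/
theorem hiStmt : Pool.Agent.W_4481e3_q46.HiStmt 875 := by
  intro ε hP ρ A K V a0 hF _
  have hA := hP.adm
  have him := hP.im_sq
  obtain ⟨-, -, -, hn, hR⟩ := hP
  have hreg : 3 * ‖ε ^ 2‖ ^ 2 < 2 * (ε ^ 2).re + ‖ε ^ 2‖ ^ 4 := hR.1
  have hρ := hF.pos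
  -- late times
  obtain ⟨i₀, hi₀⟩ : ∃ i : ℕ, 1 / 2 ≤ ρ * 2 ^ i := by
    obtain ⟨i, hi⟩ := pow_unbounded_of_one_lt ((1 / 2) / ρ) (by norm_num : (1:ℝ) < 2)
    rw [div_lt_iff₀ hρ] at hi
    exact ⟨i, by linarith⟩
  have halive : ∀ i ≥ i₀, Alive ε (2 ^ 3 / 15) (V (3 + 4 * i) 0) := by
    intro i hi
    have hD : Pool.Agent.W_4481e3_h1.Dm ρ (3 + 4 * i) 0 := by
      unfold Pool.Agent.W_4481e3_h1.Dm
      have h1 : (2:ℝ) ^ i₀ ≤ 2 ^ (3 + 4 * i) := pow_le_pow_right₀ (by norm_num) (by omega)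
      rw [abs_zero]
      nlinarith
    have h1 := Pool.Agent.W_4481e3_h1.alive_of_fam2 hF hA hD
    rw [add_zero] at h1
    obtain ⟨n, hn⟩ := base_mod (3 + 4 * i)
    have h2 := Pool.Agent.W_4481e3_h1.Alive.add_int h1 n
    rw [hn, show (3 + 4 * i) % 4 = 3 by omega] at h2
    exact h2
  set x : ℕ → ℝ := fun i => max (‖slope (ε ^ 2) b15 V a0 (3 + 4 * i)‖ - 380) 0 with hx
  have haa : ∀ i n, aa (ε ^ 2) 3 (V (3 + 4 * i) 0) (slope (ε ^ 2) b15 V a0 (3 + 4 * i)) n =
      slope (ε ^ 2) b15 V a0 (3 + 4 * i + n) := by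
    intro i n
    rw [← aa_shift (ε ^ 2) 3 i, aa_eq hF]
  have hx0 : ∀ i, 0 ≤ x i := fun i => le_max_right _ _
  have hxa : ∀ i, ‖slope (ε ^ 2) b15 V a0 (3 + 4 * i)‖ ≤ 380 + x i := fun i => by
    have := le_max_left (‖slope (ε ^ 2) b15 V a0 (3 + 4 * i)‖ - 380) 0
    show _ ≤ 380 + max _ _
    linarith
  have hstep : ∀ i ≥ i₀, ‖slope (ε ^ 2) b15 V a0 (1 + 4 * (i + 1))‖ ≤ 874 + 8 * x i ∧
      x (i + 1) ≤ 199 / 200 * x i := by
    intro i hi
    obtain ⟨r1, r2⟩ := hi_step hn hreg him (halive i hi) (hx0 i) (hxa i)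
    rw [haa] at r1 r2
    rw [show 3 + 4 * i + 2 = 1 + 4 * (i + 1) by ring] at r1
    rw [show 3 + 4 * i + 4 = 3 + 4 * (i + 1) by ring] at r2
    refine ⟨r1, ?_⟩
    show max _ _ ≤ _
    apply max_le
    · linarith
    · have := hx0 i; linarith
  have hpow : ∀ n, x (i₀ + n) ≤ (199 / 200) ^ n * x i₀ := by
    intro n
    induction n with
    | zero => simp
    | succ n ih =>
      have h1 := (hstep (i₀ + n) (by omega)).2
      rw [← add_assoc, pow_succ]
      have h2 := mul_le_mul_of_nonneg_left ih (by norm_num : (0:ℝ) ≤ 199 / 200)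
      linarith
  have hlim : Tendsto (fun n : ℕ => (199 / 200 : ℝ) ^ n * x i₀) atTop (𝓝 0) := by
    have := (tendsto_pow_atTop_nhds_zero_of_lt_one (by norm_num : (0:ℝ) ≤ 199 / 200)
      (by norm_num : (199 / 200 : ℝ) < 1)).mul_const (x i₀)
    rwa [zero_mul] at this
  have hev : ∀ᶠ n : ℕ in atTop, (199 / 200 : ℝ) ^ n * x i₀ < 1 / 8 :=
    hlim.eventually (gt_mem_nhds (by norm_num))
  obtain ⟨N, hN⟩ := eventually_atTop.1 hev
  filter_upwards [eventually_ge_atTop (i₀ + N + 1)] with i hi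
  obtain ⟨j, rfl⟩ : ∃ j, i = (i₀ + j) + 1 := ⟨i - 1 - i₀, by omega⟩
  have h1 := (hstep (i₀ + j) (by omega)).1
  have h2 := hN j (by omega)
  have h3 := hpow j
  linarith

end Pool.Agent.W_4481e3_q12
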