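import Pool.Agent.W_4481e3_q12.Hper
import Pool.Agent.W_4481e3_q12.Hi

/-!
`NoFam2` from the data on the fifteen squares.
-/

namespace Pool.Agent.W_4481e3_q12

open Pool.Agent.W_4481e3_q42.Glue

/-- **Only the kill certificate is missing.** -/
theorem noFam2_of_sqs (hsq : ∀ s ∈ sqs, Sq9 s.1 s.2.1 s.2.2) : Pool.Agent.W_MP_4481e3_an.NoFam2 :=
  noFam2_of_data hiStmt Pq.loStmt2 Pq.hper hsq

end Pool.Agent.W_4481e3_q12
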