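import Pool.Agent.W_4481e3_q12.Ev
import Pool.Agent.W_MP_4481e3_low.SndC

/-!
Soundness of the fixed point arithmetic of `Ev`: one step.
-/

namespace Pool.Agent.W_4481e3_q12.Ev

open Complex
open Pool.Agent.W_MP_4481e3_an.Ev (gd nrm1 pt InB gd_true div_lower div_upper
  nrm1_sound norm_pt_sq norm_le_sqrt_two ndiv_eq)

lemma nrm_sound (N a b : ℕ) {x : ℝ} (hx : x ^ 2 ≤ N) : x ≤ nrm a b N :=
  nrm1_sound (Nat.succ_pos _) hx

lemma ds_cast (x y : ℕ) : ((ds x y : ℕ) : ℝ) = |(x:ℝ) - y| :=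
  Pool.Agent.W_MP_4481e3_an.Ev.dist_cast x y

/-- the step in scaled coordinates -/
noncomputable def stp (c : ℝ) (E W : ℂ) : ℂ := W + (c : ℂ) * (E - W ^ 2 / 16777216)

/-- parameter ball -/
def InE (X Y t : ℕ) (E : ℂ) : Prop := ‖E - (⟨(X : ℝ), (Y : ℝ)⟩ : ℂ)‖ ≤ t

lemma centre {A B X Y : ℕ}
    (hN : (ds A 536870912) * (ds A 536870912) + (ds B 536870912) * (ds B 536870912) ≤
      7318349394477056) :
    ‖((⟨(X : ℝ), (Y : ℝ)⟩ : ℂ) - (pt A B) ^ 2 / 16777216) - pt
      (((ds B 536870912) * (ds B 536870912) + 9007199254740992 -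
        (ds A 536870912) * (ds A 536870912)) / 16777216 + X)
      (((ds A 536870912) * (ds A 536870912) + (ds B 536870912) * (ds B 536870912) +
        9007199254740992 - (ds (A + B) 1073741824) * (ds (A + B) 1073741824)) / 16777216 + Y)‖
      ≤ 3 / 2 := by
  set a := ds A 536870912 with ha
  set b := ds B 536870912 with hb
  set s := ds (A + B) 1073741824 with hs
  have ha' : (a:ℝ) ^ 2 = ((A:ℝ) - 536870912) ^ 2 := by
    rw [ha, ds_cast, sq_abs]; norm_num
  have hb' : (b:ℝ) ^ 2 = ((B:ℝ) - 536870912) ^ 2 := by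
    rw [hb, ds_cast, sq_abs]; norm_num
  have hs' : (s:ℝ) ^ 2 = ((A:ℝ) + B - 1073741824) ^ 2 := by
    rw [hs, ds_cast, sq_abs]; push_cast; norm_num
  have hNr : (a:ℝ) ^ 2 + (b:ℝ) ^ 2 ≤ 7318349394477056 := by
    have : ((a * a + b * b : ℕ) : ℝ) ≤ 7318349394477056 := by exact_mod_cast hN
    push_cast at this
    linarith only [this]
  have hb2 : a * a ≤ b * b + 9007199254740992 := by nlinarith only [hN]
  have hN2 : s * s ≤ a * a + b * b + 9007199254740992 := by
    have : ((s * s : ℕ) : ℝ) ≤ ((a * a + b * b + 9007199254740992 : ℕ) : ℝ) := by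
      push_cast
      linarith only [ha', hb', hs', hNr, sq_nonneg ((A:ℝ) - 536870912 - ((B:ℝ) - 536870912))]
    exact_mod_cast this
  have l1 := div_lower (b * b + 9007199254740992 - a * a) 16777216 (by norm_num)
  have u1 := div_upper (b * b + 9007199254740992 - a * a) 16777216
  have l2 := div_lower (a * a + b * b + 9007199254740992 - s * s) 16777216 (by norm_num)
  have u2 := div_upper (a * a + b * b + 9007199254740992 - s * s) 16777216
  rw [Nat.cast_sub hb2] at l1 u1
  rw [Nat.cast_sub hN2] at l2 u2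
  push_cast at l1 u1 l2 u2
  have hre : ((pt A B) ^ 2).re = ((A:ℝ) - 536870912) ^ 2 - ((B:ℝ) - 536870912) ^ 2 := by
    rw [pow_two, Complex.mul_re]; unfold pt; ring
  have him : ((pt A B) ^ 2).im = 2 * ((A:ℝ) - 536870912) * ((B:ℝ) - 536870912) := by
    rw [pow_two, Complex.mul_im]; unfold pt; ring
  have e16 : (16777216 : ℂ) = ((16777216 : ℝ) : ℂ) := by norm_num
  have hmain : ‖((⟨(X : ℝ), (Y : ℝ)⟩ : ℂ) - (pt A B) ^ 2 / 16777216) - pt
      ((b * b + 9007199254740992 - a * a) / 16777216 + X)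
      ((a * a + b * b + 9007199254740992 - s * s) / 16777216 + Y)‖ ≤ 3 / 2 * 1 := by
    apply norm_le_sqrt_two
    · rw [Complex.sub_re, Complex.sub_re, e16, Complex.div_ofReal_re, hre]
      unfold pt
      simp only
      push_cast
      rw [abs_le]
      constructor <;> nlinarith
    · rw [Complex.sub_im, Complex.sub_im, e16, Complex.div_ofReal_im, him]
      unfold pt
      simp only
      push_cast
      rw [abs_le]
      constructor <;> nlinarith
  linarith only [hmain]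

/-- what is needed about the flip -/
def Flip (f : ℕ → ℕ) (σ : ℝ) : Prop :=
  ∀ x : ℕ, x ≤ 1073741824 → ((f x : ℕ) : ℝ) - 536870912 = σ * ((x : ℝ) - 536870912)

lemma flip_fid : Flip fid 1 := by
  intro x _
  unfold fid
  ring

lemma flip_neg : Flip neg (-1) := by
  intro x hx
  unfold neg
  simp only [Nat.sub_eq]
  rw [Nat.cast_sub hx]
  push_cast
  ring

/-- the centre of the step, one coordinate -/
lemma coord {f : ℕ → ℕ} {σ : ℝ} (hf : Flip f σ) (hσ : |σ| ≤ 1) {C D A U : ℕ} (hD : D = C * 536870912)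
    (hC : C ≤ 16777216) (ha : |(A:ℝ) - 536870912| ≤ 86000000) (hu : |(U:ℝ) - 536870912| ≤ 442500000) :
    ∃ θ : ℝ, |θ| ≤ 1 ∧ (((16777216 * A + C * f U - D) / 16777216 : ℕ) : ℝ) - 536870912 =
      ((A:ℝ) - 536870912) + σ * (C / 16777216) * ((U:ℝ) - 536870912) - θ := by
  have hA := abs_le.1 ha
  have hU := abs_le.1 hu
  have hU2 : U ≤ 1073741824 := by
    have : (U:ℝ) ≤ 1073741824 := by linarith only [hU]
    exact_mod_cast this
  have hfU := hf U hU2
  have hCr : (C:ℝ) ≤ 16777216 := by exact_mod_cast hC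
  have hC0 : (0:ℝ) ≤ C := Nat.cast_nonneg _
  have hb : |(C:ℝ) * (σ * ((U:ℝ) - 536870912))| ≤ 16777216 * (1 * 442500000) := by
    rw [abs_mul, abs_mul, abs_of_nonneg hC0]
    apply mul_le_mul hCr _ (by positivity) (by norm_num)
    exact mul_le_mul hσ hu (abs_nonneg _) (by norm_num)
  have hb' := abs_le.1 hb
  have hle : D ≤ 16777216 * A + C * f U := by
    have : ((D : ℕ) : ℝ) ≤ ((16777216 * A + C * f U : ℕ) : ℝ) := by
      push_cast
      have e : (f U : ℝ) = σ * ((U:ℝ) - 536870912) + 536870912 := by linarith only [hfU]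
      rw [e, hD]
      push_cast
      linarith only [hA, hb']
    exact_mod_cast this
  have l1 := div_lower (16777216 * A + C * f U - D) 16777216 (by norm_num)
  have u1 := div_upper (16777216 * A + C * f U - D) 16777216
  rw [Nat.cast_sub hle] at l1 u1
  push_cast at l1 u1
  have e : (16777216:ℝ) * A + C * (f U : ℕ) - D = 16777216 * A + C * (σ * ((U:ℝ) - 536870912)) := by
    rw [← hfU, hD]; push_cast; ring
  rw [e] at l1 u1
  refine ⟨(16777216 * A + C * (σ * ((U:ℝ) - 536870912))) / 16777216 -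
    (((16777216 * A + C * f U - D) / 16777216 : ℕ) : ℝ), ?_, by ring⟩
  rw [abs_le]
  constructor <;> linarith

/-- admissible data for one phase -/
structure Ph (f : ℕ → ℕ) (C D : ℕ) (c : ℝ) : Prop where
  ex : ∃ σ : ℝ, (σ = 1 ∨ σ = -1) ∧ Flip f σ ∧ |16777216 * c - σ * C| ≤ 1
  hD : D = C * 536870912
  hC : C ≤ 16777216
  hc : |c| ≤ 1

theorem st_sound {f : ℕ → ℕ} {C D : ℕ} {c : ℝ} (hp : Ph f C D c) {X Y t A B r : ℕ} {E W : ℂ}
    {k : ℕ → ℕ → ℕ → ℕ → Bool}
    (hX : X ≤ 4194304) (hY : Y ≤ 4194304) (ht : t ≤ 16777216) (hE : InE X Y t E) (hW : InB A B r W)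
    (h : st f C D X Y t A B r k = true) :
    ∃ A' B' r' G : ℕ, k A' B' r' G = true ∧ InB A' B' r' (stp c E W) ∧ r ≤ 218103808 ∧
      ‖pt A B‖ ≤ 86000000 ∧
      ‖16777216 - 2 * (c:ℂ) * W‖ ≤ G + 2 * C * r / 16777216 + 37 := by
  obtain ⟨⟨σ, hσ, hf, hcC⟩, hD, hC, hc⟩ := hp
  have hσ1 : |σ| = 1 := by rcases hσ with h | h <;> rw [h] <;> simp
  have hσ2 : σ * σ = 1 := by rcases hσ with h | h <;> rw [h] <;> ring
  unfold st st1 st2 st3 st4 st5 at h
  simp only [Nat.add_eq, Nat.mul_eq, Nat.sub_eq, ndiv_eq] at h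
  rw [gd_true] at h
  obtain ⟨h1, h2⟩ := h
  have hN := Nat.le_of_ble_eq_true h1
  refine ⟨_, _, _, _, h2, ?_⟩
  clear h2 h1
  unfold InB InE at *
  have hcs := centre (X := X) (Y := Y) (A := A) (B := B) (by omega)
  set a := ds A 536870912 with ha
  set b := ds B 536870912 with hb
  set s := ds (A + B) 1073741824 with hs
  set U := (b * b + 9007199254740992 - a * a) / 16777216 + X with hUdef
  set V := (a * a + b * b + 9007199254740992 - s * s) / 16777216 + Y with hVdef
  set z := pt A B with hz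
  set z1 := pt U V with hz1
  have haa : ((a:ℕ):ℝ) = |(A:ℝ) - 536870912| := by rw [ha, ds_cast]; norm_num
  have hbb : ((b:ℕ):ℝ) = |(B:ℝ) - 536870912| := by rw [hb, ds_cast]; norm_num
  clear_value U V a b s
  clear hUdef hVdef ha hb hs
  have hNr : (a:ℝ) ^ 2 + (b:ℝ) ^ 2 + 33554432 * r ≤ 7318349394477056 := by
    have : ((a * a + b * b + 33554432 * r : ℕ) : ℝ) ≤ 7318349394477056 := by exact_mod_cast hN
    push_cast at this
    linarith only [this]
  clear hN
  have hr0 : (0:ℝ) ≤ r := Nat.cast_nonneg _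
  have hr1 : (r:ℝ) ≤ 218103808 := by linarith only [hNr, sq_nonneg (a:ℝ), sq_nonneg (b:ℝ)]
  have hr1' : r ≤ 218103808 := by exact_mod_cast hr1
  have hz4 : ‖z‖ ≤ 86000000 := by
    have e1 : ‖z‖ ^ 2 ≤ 86000000 ^ 2 := by
      rw [hz, norm_pt_sq, ← sq_abs ((A:ℝ) - 536870912), ← sq_abs ((B:ℝ) - 536870912), ← haa, ← hbb]
      linarith only [hNr]
    exact le_of_sq_le_sq e1 (by norm_num)
  have hz26 : ‖z‖ ^ 2 ≤ 7318349394477056 := by
    rw [hz, norm_pt_sq, ← sq_abs ((A:ℝ) - 536870912), ← sq_abs ((B:ℝ) - 536870912), ← haa, ← hbb]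
    linarith only [hNr]
  have habs1 : |(A:ℝ) - 536870912| ≤ 86000000 := (Complex.abs_re_le_norm z).trans hz4
  have habs2 : |(B:ℝ) - 536870912| ≤ 86000000 := (Complex.abs_im_le_norm z).trans hz4
  have h16 : ‖(16777216 : ℂ)‖ = 16777216 := by simp
  have hk2 : ‖(⟨(X:ℝ), (Y:ℝ)⟩ : ℂ)‖ ≤ 6291456 := by
    have hX' : (X:ℝ) ≤ 4194304 := by exact_mod_cast hX
    have hY' : (Y:ℝ) ≤ 4194304 := by exact_mod_cast hY
    have e1 : ‖(⟨(X:ℝ), (Y:ℝ)⟩ : ℂ)‖ ≤ 3 / 2 * 4194304 := by
      apply norm_le_sqrt_two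
      · simp only [Nat.abs_cast]; exact hX'
      · simp only [Nat.abs_cast]; exact hY'
    linarith only [e1]
  clear hX hY
  set k0 : ℂ := (⟨(X:ℝ), (Y:ℝ)⟩ : ℂ) with hk0
  have hsq : ‖z ^ 2 / 16777216‖ ≤ 436207616 := by
    rw [norm_div, norm_pow, h16, div_le_iff₀ (by norm_num)]
    linarith only [hz26]
  have hkz : ‖k0 - z ^ 2 / 16777216‖ ≤ 442499072 := by
    refine (norm_sub_le _ _).trans ?_
    linarith only [hk2, hsq]
  have hz1n : ‖z1‖ ≤ 442500000 := by
    have e1 : z1 = (k0 - z ^ 2 / 16777216) - ((k0 - z ^ 2 / 16777216) - z1) := by ring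
    rw [e1]
    refine (norm_sub_le _ _).trans ?_
    linarith only [hcs, hkz]
  have habs3 : |(U:ℝ) - 536870912| ≤ 442500000 := (Complex.abs_re_le_norm z1).trans hz1n
  have habs4 : |(V:ℝ) - 536870912| ≤ 442500000 := (Complex.abs_im_le_norm z1).trans hz1n
  obtain ⟨θ1, hθ1, e1⟩ := coord hf hσ1.le hD hC habs1 habs3
  obtain ⟨θ2, hθ2, e2⟩ := coord hf hσ1.le hD hC habs2 habs4
  set A' := (16777216 * A + C * f U - D) / 16777216 with hA'
  set B' := (16777216 * B + C * f V - D) / 16777216 with hB'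
  clear_value A' B'
  clear hA' hB'
  have hCr : (C:ℝ) ≤ 16777216 := by exact_mod_cast hC
  have hC0 : (0:ℝ) ≤ C := Nat.cast_nonneg _
  set q : ℝ := σ * (C / 16777216) with hq
  have hqabs : |q| = (C:ℝ) / 16777216 := by
    rw [hq, abs_mul, hσ1, one_mul, abs_of_nonneg (by positivity)]
  have hq1 : |q| ≤ 1 := by
    rw [hqabs, div_le_one (by norm_num)]; exact hCr
  have hcq : |c - q| ≤ 1 / 16777216 := by
    have : c - q = (16777216 * c - σ * C) / 16777216 := by rw [hq]; ring
    rw [this, abs_div, abs_of_pos (show (0:ℝ) < 16777216 by norm_num)]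
    exact div_le_div_of_nonneg_right hcC (by norm_num)
  have hz' : pt A' B' = z + (q:ℂ) * z1 - ⟨θ1, θ2⟩ := by
    apply Complex.ext
    · show (A':ℝ) - 536870912 = _
      rw [e1, Complex.sub_re, Complex.add_re, Complex.re_ofReal_mul, hz, hz1]
      rfl
    · show (B':ℝ) - 536870912 = _
      rw [e2, Complex.sub_im, Complex.add_im, Complex.im_ofReal_mul, hz, hz1]
      rfl
  have hθ : ‖(⟨θ1, θ2⟩ : ℂ)‖ ≤ 3 / 2 := by
    have := norm_le_sqrt_two (z := ⟨θ1, θ2⟩) (x := 1) hθ1 hθ2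
    linarith only [this]
  -- the factor
  have hA2 : A ≤ 1073741824 := by
    have : (A:ℝ) ≤ 1073741824 := by have := (abs_le.1 habs1).2; linarith only [this]
    exact_mod_cast this
  have hfA := hf A hA2
  set X1 := 2 * C * f A with hX1
  set X2 := 281474976710656 + 2 * D with hX2
  set m := ds X1 X2 / 16777216 + 1 with hm
  set n := 2 * C * b / 16777216 + 1 with hn
  set F : ℂ := (16777216 - 2 * (q:ℂ) * z) with hF
  have hFre : F.re = 16777216 - 2 * q * ((A:ℝ) - 536870912) := by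
    rw [hF, Complex.sub_re]
    have : 2 * (q:ℂ) * z = ((2 * q : ℝ) : ℂ) * z := by push_cast; ring
    have h0 : (16777216 : ℂ).re = 16777216 := by norm_num
    rw [this, Complex.re_ofReal_mul, h0]
    rfl
  have hFim : F.im = - (2 * q * ((B:ℝ) - 536870912)) := by
    rw [hF, Complex.sub_im]
    have : 2 * (q:ℂ) * z = ((2 * q : ℝ) : ℂ) * z := by push_cast; ring
    have h0 : (16777216 : ℂ).im = 0 := by norm_num
    rw [this, Complex.im_ofReal_mul, h0, zero_sub]
    rfl
  have hX12 : (X1:ℝ) - X2 = - (16777216 * F.re) := by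
    rw [hX1, hX2, hFre, hq, hD]
    push_cast
    have : (f A : ℝ) = σ * ((A:ℝ) - 536870912) + 536870912 := by linarith only [hfA]
    rw [this]
    ring
  clear_value X1 X2
  have hmre : |F.re| ≤ m := by
    have e3 := div_lower (ds X1 X2) 16777216 (by norm_num)
    rw [ds_cast] at e3
    rw [hX12, abs_neg, abs_mul, abs_of_pos (show (0:ℝ) < 16777216 by norm_num)] at e3
    push_cast at e3
    rw [hm]
    push_cast
    linarith only [e3]
  have hnim : |F.im| ≤ n := by
    have e3 := div_lower (2 * C * b) 16777216 (by norm_num)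
    push_cast at e3
    rw [hn]
    push_cast
    rw [hFim, abs_neg, abs_mul, abs_mul, hqabs, ← hbb, abs_of_pos (show (0:ℝ) < 2 by norm_num)]
    have e4 : 2 * ((C:ℝ) / 16777216) * b = 2 * (C:ℝ) * b / 16777216 := by ring
    rw [e4]
    linarith only [e3]
  clear_value m n
  clear hm hn
  set w := nrm m n (m * m + n * n) with hw
  have hFw : ‖F‖ ≤ w := by
    rw [hw]
    apply nrm_sound
    have e3 : ‖F‖ ^ 2 = |F.re| ^ 2 + |F.im| ^ 2 := by
      rw [Complex.sq_norm, Complex.normSq_apply, sq_abs, sq_abs]; ring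
    rw [e3]
    push_cast
    have e4 : |F.re| ^ 2 ≤ (m:ℝ) ^ 2 := pow_le_pow_left₀ (abs_nonneg _) hmre 2
    have e5 : |F.im| ^ 2 ≤ (n:ℝ) ^ 2 := pow_le_pow_left₀ (abs_nonneg _) hnim 2
    linarith only [e4, e5]
  clear_value w
  clear hw
  have ht' : (t:ℝ) ≤ 16777216 := by exact_mod_cast ht
  have ht0 : (0:ℝ) ≤ t := Nat.cast_nonneg _
  refine ⟨?_, hr1', hz4, ?_⟩
  · -- radius
    have hrr := div_lower ((w + 25) * r + C * (r * r / 16777216 + t)) 16777216 (by norm_num)
    have hrr2 := div_lower (r * r) 16777216 (by norm_num)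
    push_cast at hrr hrr2 ⊢
    have hdec : stp c E W - pt A' B' =
        (((c - q : ℝ) : ℂ) * (k0 - z ^ 2 / 16777216) + ((c - q : ℝ) : ℂ) * (E - k0)) +
        ((W - z) * (F / 16777216 - (q:ℂ) * (W - z) / 16777216) + (q:ℂ) * (E - k0)) +
        (((c - q : ℝ) : ℂ) * (-(2 * z + (W - z)) * (W - z) / 16777216) +
        ((q:ℂ) * ((k0 - z ^ 2 / 16777216) - z1) + ⟨θ1, θ2⟩)) := by
      rw [hz', hF]
      unfold stp
      push_cast
      ring
    have n1 : ‖((c - q : ℝ) : ℂ) * (k0 - z ^ 2 / 16777216)‖ ≤ 27 := by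
      rw [norm_mul, Complex.norm_real, Real.norm_eq_abs]
      calc |c - q| * ‖k0 - z ^ 2 / 16777216‖ ≤ 1 / 16777216 * 442499072 :=
            mul_le_mul hcq hkz (norm_nonneg _) (by norm_num)
        _ ≤ 27 := by norm_num
    have n1' : ‖((c - q : ℝ) : ℂ) * (E - k0)‖ ≤ 1 := by
      rw [norm_mul, Complex.norm_real, Real.norm_eq_abs]
      calc |c - q| * ‖E - k0‖ ≤ 1 / 16777216 * 16777216 :=
            mul_le_mul hcq (hE.trans ht') (norm_nonneg _) (by norm_num)
        _ = 1 := by norm_num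
    have n2 : ‖(W - z) * (F / 16777216 - (q:ℂ) * (W - z) / 16777216)‖ ≤
        w * r / 16777216 + (C : ℝ) / 16777216 * (r * r / 16777216) := by
      rw [norm_mul]
      have e3 : ‖F / 16777216 - (q:ℂ) * (W - z) / 16777216‖ ≤
          w / 16777216 + (C : ℝ) / 16777216 * r / 16777216 := by
        refine (norm_sub_le _ _).trans ?_
        rw [norm_div, norm_div, norm_mul, h16, Complex.norm_real, Real.norm_eq_abs, hqabs]
        apply add_le_add
        · exact div_le_div_of_nonneg_right hFw (by norm_num)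
        · apply div_le_div_of_nonneg_right _ (by norm_num)
          apply mul_le_mul_of_nonneg_left hW
          positivity
      calc ‖W - z‖ * ‖F / 16777216 - (q:ℂ) * (W - z) / 16777216‖
          ≤ r * (w / 16777216 + (C : ℝ) / 16777216 * r / 16777216) :=
            mul_le_mul hW e3 (norm_nonneg _) hr0
        _ = _ := by ring
    have n3 : ‖(q:ℂ) * (E - k0)‖ ≤ (C : ℝ) / 16777216 * t := by
      rw [norm_mul, Complex.norm_real, Real.norm_eq_abs, hqabs]
      apply mul_le_mul_of_nonneg_left hE (by positivity)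
    have n5 : ‖((c - q : ℝ) : ℂ) * (-(2 * z + (W - z)) * (W - z) / 16777216)‖ ≤ 25 * r / 16777216 := by
      rw [norm_mul, Complex.norm_real, Real.norm_eq_abs, norm_div, norm_mul, norm_neg, h16]
      have e5 : ‖2 * z + (W - z)‖ ≤ 390103808 := by
        refine (norm_add_le _ _).trans ?_
        rw [norm_mul]
        have : ‖(2:ℂ)‖ = 2 := by simp
        rw [this]
        linarith only [hW, hr1, hz4]
      have e6 : ‖2 * z + (W - z)‖ * ‖W - z‖ / 16777216 ≤ 390103808 * r / 16777216 := by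
        apply div_le_div_of_nonneg_right _ (by norm_num)
        exact mul_le_mul e5 hW (norm_nonneg _) (by norm_num)
      calc |c - q| * (‖2 * z + (W - z)‖ * ‖W - z‖ / 16777216)
          ≤ 1 / 16777216 * (390103808 * r / 16777216) :=
            mul_le_mul hcq e6 (by positivity) (by norm_num)
        _ ≤ 25 * r / 16777216 := by
          have : 1 / 16777216 * (390103808 * (r:ℝ) / 16777216) = (390103808 / 16777216) * r / 16777216 := by ring
          rw [this]
          apply div_le_div_of_nonneg_right _ (by norm_num)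
          apply mul_le_mul_of_nonneg_right _ hr0
          norm_num
    have n4 : ‖(q:ℂ) * ((k0 - z ^ 2 / 16777216) - z1)‖ ≤ 3 / 2 := by
      rw [norm_mul, Complex.norm_real, Real.norm_eq_abs]
      calc |q| * ‖(k0 - z ^ 2 / 16777216) - z1‖ ≤ 1 * (3 / 2) :=
            mul_le_mul hq1 hcs (norm_nonneg _) (by norm_num)
        _ = 3 / 2 := by norm_num
    rw [hdec]
    refine (norm_add₃_le).trans ?_
    have m1 := norm_add_le (((c - q : ℝ) : ℂ) * (k0 - z ^ 2 / 16777216)) (((c - q : ℝ) : ℂ) * (E - k0))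
    have m2 := norm_add_le ((W - z) * (F / 16777216 - (q:ℂ) * (W - z) / 16777216)) ((q:ℂ) * (E - k0))
    have m3 := norm_add_le (((c - q : ℝ) : ℂ) * (-(2 * z + (W - z)) * (W - z) / 16777216))
      ((q:ℂ) * ((k0 - z ^ 2 / 16777216) - z1) + ⟨θ1, θ2⟩)
    have m4 := norm_add_le ((q:ℂ) * ((k0 - z ^ 2 / 16777216) - z1)) (⟨θ1, θ2⟩ : ℂ)
    have hfin : w * r / 16777216 + (C : ℝ) / 16777216 * (r * r / 16777216) +
        (C : ℝ) / 16777216 * t + 25 * r / 16777216 ≤
        ((w + 25) * r + (C : ℝ) * (((r * r / 16777216 : ℕ) : ℝ) + t)) / 16777216 + 1 := by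
      have e3 : (C : ℝ) * (r * r / 16777216 + t) ≤
          (C : ℝ) * (((r * r / 16777216 : ℕ) : ℝ) + t) + 16777216 := by
        have : (C : ℝ) * (r * r / 16777216 + t) ≤ (C : ℝ) * ((((r * r / 16777216 : ℕ) : ℝ) + t) + 1) := by
          apply mul_le_mul_of_nonneg_left _ hC0
          linarith only [hrr2]
        linarith only [hqabs, hq1, this]
      have e4 : w * r / 16777216 + (C : ℝ) / 16777216 * (r * r / 16777216) +
        (C : ℝ) / 16777216 * t + 25 * r / 16777216 = ((w + 25) * r + (C : ℝ) * (r * r / 16777216 + t)) / 16777216 := by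
        ring
      rw [e4]
      have e5 : ((w + 25) * r + (C : ℝ) * (((r * r / 16777216 : ℕ) : ℝ) + t)) / 16777216 + 1 =
        ((w + 25) * r + ((C : ℝ) * (((r * r / 16777216 : ℕ) : ℝ) + t) + 16777216)) / 16777216 := by ring
      rw [e5]
      apply div_le_div_of_nonneg_right _ (by norm_num)
      linarith only [e3]
    linarith only [hθ, hrr, n1, n1', n2, n3, n5, n4, m1, m2, m3, m4, hfin]
  · -- derivative
    have hdec : (16777216 - 2 * (c:ℂ) * W : ℂ) = F - (2 * ((c - q : ℝ) : ℂ) * z + 2 * (c:ℂ) * (W - z)) := by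
      rw [hF]; push_cast; ring
    rw [hdec]
    refine (norm_sub_le _ _).trans ?_
    have h2 : ‖(2:ℂ)‖ = 2 := by simp
    have d1 : ‖2 * ((c - q : ℝ) : ℂ) * z‖ ≤ 11 := by
      rw [norm_mul, norm_mul, h2, Complex.norm_real, Real.norm_eq_abs]
      calc 2 * |c - q| * ‖z‖ ≤ 2 * (1 / 16777216) * 86000000 := by
            apply mul_le_mul _ hz4 (norm_nonneg _) (by norm_num)
            linarith only [hcq]
        _ ≤ 11 := by norm_num
    have hcC2 : |c| ≤ (C:ℝ) / 16777216 + 1 / 16777216 := by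
      have : c = q + (c - q) := by ring
      rw [this]
      refine (abs_add_le _ _).trans ?_
      rw [hqabs]
      linarith only [hcq]
    have d2 : ‖2 * (c:ℂ) * (W - z)‖ ≤ 2 * C * r / 16777216 + 26 := by
      rw [norm_mul, norm_mul, h2, Complex.norm_real, Real.norm_eq_abs]
      calc 2 * |c| * ‖W - z‖ ≤ 2 * ((C:ℝ) / 16777216 + 1 / 16777216) * r := by
            apply mul_le_mul _ hW (norm_nonneg _) (by positivity)
            linarith only [hcC2]
        _ = 2 * C * r / 16777216 + 2 * r / 16777216 := by ring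
        _ ≤ 2 * C * r / 16777216 + 26 := by
          have : 2 * (r:ℝ) / 16777216 ≤ 26 := by
            rw [div_le_iff₀ (by norm_num)]; linarith only [hr1]
          linarith only [this]
    have d3 := norm_add_le (2 * ((c - q : ℝ) : ℂ) * z) (2 * (c:ℂ) * (W - z))
    linarith only [hFw, d1, d2, d3]

end Pool.Agent.W_4481e3_q12.Ev
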