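import Pool.Agent.W_4481e3_q12.Root
import Pool.Agent.W_4481e3_q42.Stmt

/-!
Contraction over one period of `8/15, 1/15, 2/15, 4/15`.
-/

namespace Pool.Agent.W_4481e3_q12

open Complex Ev

/-- orbit from the phase `p` -/
noncomputable def zz (e : ℂ) : ℕ → ℕ → ℂ → ℂ
  | _, 0, w => w
  | p, j + 1, w => zz e (p + 1) j (w + (cph p : ℂ) * (e - w ^ 2))

lemma zz_add (e : ℂ) (i : ℕ) : ∀ (p j : ℕ) (w : ℂ), zz e p (i + j) w = zz e (p + i) j (zz e p i w) := by
  induction i with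
  | zero => intro p j w; rw [Nat.zero_add]; rfl
  | succ i ih =>
    intro p j w
    rw [show i + 1 + j = (i + j) + 1 by ring]
    show zz e (p + 1) (i + j) _ = zz e (p + (i + 1)) j (zz e (p + 1) i _)
    rw [ih, show p + 1 + i = p + (i + 1) by ring]

/-- bounded near orbit -/
structure Good (e : ℂ) (p : ℕ) (w : ℂ) : Prop where
  bd : ∀ j, ‖zz e p j w‖ ≤ 30
  near : ∀ j, (p + j) % 4 = 2 → 2 * cph (p + j) * (zz e p j w).re < 1

lemma Good.shift {e : ℂ} {p : ℕ} {w : ℂ} (h : Good e p w) (i : ℕ) : Good e (p + i) (zz e p i w) := by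
  refine ⟨fun j => ?_, fun j hj => ?_⟩
  · rw [← zz_add]; exact h.bd _
  · rw [← zz_add, show p + i + j = p + (i + j) by ring]
    exact h.near _ (by rw [← hj]; congr 1; ring)

lemma cph_mod {p : ℕ} : cph p = cph (p % 4) := by
  have : ∀ n : ℕ, cph (p % 4 + 4 * n) = cph (p % 4) := by
    intro n
    induction n with
    | zero => rfl
    | succ n ih => rw [show p % 4 + 4 * (n + 1) = (p % 4 + 4 * n) + 4 by ring, cph_add, ih]
  have h := this (p / 4)
  rwa [Nat.mod_add_div] at h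

lemma c0_bd : 913545 / 1000000 ≤ cph 0 ∧ cph 0 ≤ 913546 / 1000000 := by
  have h := abs_le.1 chk0
  constructor <;> linarith [h.1, h.2]
lemma c1_bd : 669130 / 1000000 ≤ cph 1 ∧ cph 1 ≤ 669131 / 1000000 := by
  have h := abs_le.1 chk1
  constructor <;> linarith [h.1, h.2]
lemma c2_bd : -(104529 / 1000000) ≤ cph 2 ∧ cph 2 ≤ -(104528 / 1000000) := by
  have h := abs_le.1 chk2
  constructor <;> linarith [h.1, h.2]
lemma c3_bd : -(978148 / 1000000) ≤ cph 3 ∧ cph 3 ≤ -(978147 / 1000000) := by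
  have h := abs_le.1 chk3'
  constructor <;> linarith [h.1, h.2]

lemma low (c : ℝ) {e w : ℂ} (he : ‖e‖ ≤ 1 / 4) :
    |c| * ‖w‖ ^ 2 - ‖w‖ - |c| / 4 ≤ ‖w + (c : ℂ) * (e - w ^ 2)‖ := by
  have h1 : (c : ℂ) * w ^ 2 = (w + (c : ℂ) * e) - (w + (c : ℂ) * (e - w ^ 2)) := by ring
  have h2 : ‖(c : ℂ) * w ^ 2‖ = |c| * ‖w‖ ^ 2 := by
    rw [norm_mul, norm_pow, Complex.norm_real, Real.norm_eq_abs]
  have h3 : ‖(c : ℂ) * e‖ ≤ |c| / 4 := by
    rw [norm_mul, Complex.norm_real, Real.norm_eq_abs]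
    have := mul_le_mul_of_nonneg_left he (abs_nonneg c)
    linarith
  have h4 := norm_sub_le (w + (c : ℂ) * e) (w + (c : ℂ) * (e - w ^ 2))
  rw [← h1, h2] at h4
  have h5 := norm_add_le w ((c : ℂ) * e)
  linarith

lemma low0 {e w : ℂ} (he : ‖e‖ ≤ 1 / 4) {x : ℝ} (hx : 1 ≤ x) (hw : x ≤ ‖w‖) :
    913545 / 1000000 * x ^ 2 - x - 2284 / 10000 ≤ ‖w + (cph 0 : ℂ) * (e - w ^ 2)‖ := by
  have h := low (cph 0) (w := w) he
  have h0 := c0_bd
  rw [abs_of_nonneg (by linarith [h0.1] : (0:ℝ) ≤ cph 0)] at h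
  have h1 : 913545 / 1000000 * ‖w‖ ^ 2 ≤ cph 0 * ‖w‖ ^ 2 := mul_le_mul_of_nonneg_right h0.1 (by positivity)
  nlinarith [h0.2]

lemma low1 {e w : ℂ} (he : ‖e‖ ≤ 1 / 4) {x : ℝ} (hx : 1 ≤ x) (hw : x ≤ ‖w‖) :
    669130 / 1000000 * x ^ 2 - x - 1673 / 10000 ≤ ‖w + (cph 1 : ℂ) * (e - w ^ 2)‖ := by
  have h := low (cph 1) (w := w) he
  have h0 := c1_bd
  rw [abs_of_nonneg (by linarith [h0.1] : (0:ℝ) ≤ cph 1)] at h
  have h1 : 669130 / 1000000 * ‖w‖ ^ 2 ≤ cph 1 * ‖w‖ ^ 2 := mul_le_mul_of_nonneg_right h0.1 (by positivity)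
  nlinarith [h0.2]

lemma low3 {e w : ℂ} (he : ‖e‖ ≤ 1 / 4) {x : ℝ} (hx : 1 ≤ x) (hw : x ≤ ‖w‖) :
    978147 / 1000000 * x ^ 2 - x - 24454 / 100000 ≤ ‖w + (cph 3 : ℂ) * (e - w ^ 2)‖ := by
  have h := low (cph 3) (w := w) he
  have h0 := c3_bd
  rw [abs_of_nonpos (by linarith [h0.2] : cph 3 ≤ 0)] at h
  have h1 : 978147 / 1000000 * ‖w‖ ^ 2 ≤ -cph 3 * ‖w‖ ^ 2 :=
    mul_le_mul_of_nonneg_right (by linarith [h0.2]) (by positivity)
  nlinarith [h0.1]

lemma low2 {e w : ℂ} (he : ‖e‖ ≤ 1 / 4) (hn : 2 * cph 2 * w.re < 1) :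
    ‖w‖ * (1 - 104529 / 1000000 * ‖w‖) - 262 / 10000 ≤ ‖w + (cph 2 : ℂ) * (e - w ^ 2)‖ ∧
      ‖w‖ / 2 - 262 / 10000 ≤ ‖w + (cph 2 : ℂ) * (e - w ^ 2)‖ := by
  have h0 := c2_bd
  have habs : |cph 2| = -cph 2 := abs_of_nonpos (by linarith [h0.2])
  have h3 : ‖(cph 2 : ℂ) * e‖ ≤ 262 / 10000 := by
    rw [norm_mul, Complex.norm_real, Real.norm_eq_abs, habs]
    have := mul_le_mul_of_nonneg_left he (by linarith [h0.2] : 0 ≤ -cph 2)
    linarith [h0.1]
  have h1 : w * (1 - (cph 2 : ℂ) * w) = (w + (cph 2 : ℂ) * (e - w ^ 2)) - (cph 2 : ℂ) * e := by ring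
  have h4 := norm_sub_le (w + (cph 2 : ℂ) * (e - w ^ 2)) ((cph 2 : ℂ) * e)
  rw [← h1, norm_mul] at h4
  have h5 : 1 - 104529 / 1000000 * ‖w‖ ≤ ‖1 - (cph 2 : ℂ) * w‖ := by
    have e1 : ‖(cph 2 : ℂ) * w‖ ≤ 104529 / 1000000 * ‖w‖ := by
      rw [norm_mul, Complex.norm_real, Real.norm_eq_abs, habs]
      exact mul_le_mul_of_nonneg_right (by linarith [h0.1]) (norm_nonneg _)
    have e2 := norm_sub_norm_le (1 : ℂ) ((cph 2 : ℂ) * w)
    rw [norm_one] at e2
    linarith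
  have h6 : 1 / 2 ≤ ‖1 - (cph 2 : ℂ) * w‖ := by
    have e1 : (1 - (cph 2 : ℂ) * w).re = 1 - cph 2 * w.re := by
      rw [Complex.sub_re, Complex.one_re, Complex.re_ofReal_mul]
    have e2 := Complex.re_le_norm (1 - (cph 2 : ℂ) * w)
    rw [e1] at e2
    linarith
  have h7 := mul_le_mul_of_nonneg_left h5 (norm_nonneg w)
  have h8 := mul_le_mul_of_nonneg_left h6 (norm_nonneg w)
  constructor <;> linarith

/-- growth from the phase `3` -/
lemma grow {x y0 y1 y2 x' : ℝ} (hx : 23 / 10 ≤ x)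
    (h0 : 978147 / 1000000 * x ^ 2 - x - 24454 / 100000 ≤ y0)
    (h1 : 1 ≤ y0 → 913545 / 1000000 * y0 ^ 2 - y0 - 2284 / 10000 ≤ y1)
    (h2 : 1 ≤ y1 → 669130 / 1000000 * y1 ^ 2 - y1 - 1673 / 10000 ≤ y2)
    (h3 : y2 * (1 - 104529 / 1000000 * y2) - 262 / 10000 ≤ x')
    (h4 : y2 / 2 - 262 / 10000 ≤ x') : x + 3 / 100 ≤ x' := by
  obtain ⟨u, hu⟩ : ∃ u, u = x - 23 / 10 := ⟨_, rfl⟩
  have hu0 : 0 ≤ u := by linarith
  have ex : x = 23 / 10 + u := by linarith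
  subst ex
  have a0 : 2629 / 1000 + 349 / 100 * u ≤ y0 := by nlinarith
  obtain ⟨a, ha⟩ : ∃ a, a = y0 - 2629 / 1000 := ⟨_, rfl⟩
  have ea : y0 = 2629 / 1000 + a := by linarith
  subst ea
  have ha0 : 349 / 100 * u ≤ a := by linarith
  have ha1 : 0 ≤ a := by linarith
  have h1' := h1 (by linarith)
  have b0 : 3456 / 1000 + 38 / 10 * a ≤ y1 := by nlinarith
  obtain ⟨b, hb⟩ : ∃ b, b = y1 - 3456 / 1000 := ⟨_, rfl⟩
  have eb : y1 = 3456 / 1000 + b := by linarith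
  subst eb
  have hb0 : 38 / 10 * a ≤ b := by linarith
  have hb1 : 0 ≤ b := by linarith
  have h2' := h2 (by linarith)
  have d0 : 4368 / 1000 + 362 / 100 * b ≤ y2 := by nlinarith
  obtain ⟨d, hd⟩ : ∃ d, d = y2 - 4368 / 1000 := ⟨_, rfl⟩
  have ed : y2 = 4368 / 1000 + d := by linarith
  subst ed
  have hd0 : 362 / 100 * b ≤ d := by linarith
  have hd1 : 47 * u ≤ d := by linarith
  have hd2 : 0 ≤ d := by linarith
  rcases le_total d (417 / 1000) with h5 | h5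
  · have : 23734 / 10000 ≤ (4368 / 1000 + d) * (1 - 104529 / 1000000 * (4368 / 1000 + d)) := by nlinarith
    linarith
  · rcases le_total u (3 / 100) with h6 | h6
    · linarith
    · linarith

lemma Good.three {e : ℂ} (he : ‖e‖ ≤ 1 / 4) {p : ℕ} (hp : p % 4 = 3) {w : ℂ} (h : Good e p w) :
    ‖w‖ ≤ 23 / 10 := by
  by_contra hcon
  push Not at hcon
  have c3 : cph p = cph 3 := by rw [cph_mod, hp]
  have c0 : cph (p + 1) = cph 0 := by rw [cph_mod, show (p + 1) % 4 = 0 by omega]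
  have c1 : cph (p + 1 + 1) = cph 1 := by rw [cph_mod, show (p + 1 + 1) % 4 = 1 by omega]
  have c2 : cph (p + 1 + 1 + 1) = cph 2 := by rw [cph_mod, show (p + 1 + 1 + 1) % 4 = 2 by omega]
  -- growth
  have key : ∀ (q : ℕ) (v : ℂ), q % 4 = 3 → Good e q v → 23 / 10 ≤ ‖v‖ → ‖v‖ + 3 / 100 ≤ ‖zz e q 4 v‖ := by
    intro q v hq hv h23
    have c3 : cph q = cph 3 := by rw [cph_mod, hq]
    have c0 : cph (q + 1) = cph 0 := by rw [cph_mod, show (q + 1) % 4 = 0 by omega]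
    have c1 : cph (q + 1 + 1) = cph 1 := by rw [cph_mod, show (q + 1 + 1) % 4 = 1 by omega]
    have c2 : cph (q + 1 + 1 + 1) = cph 2 := by rw [cph_mod, show (q + 1 + 1 + 1) % 4 = 2 by omega]
    set v0 := v + (cph 3 : ℂ) * (e - v ^ 2) with hv0
    set v1 := v0 + (cph 0 : ℂ) * (e - v0 ^ 2) with hv1
    set v2 := v1 + (cph 1 : ℂ) * (e - v1 ^ 2) with hv2
    have hz : zz e q 4 v = v2 + (cph 2 : ℂ) * (e - v2 ^ 2) := by
      show (v + (cph q : ℂ) * (e - v ^ 2) + (cph (q + 1) : ℂ) * (e - (v + (cph q : ℂ) * (e - v ^ 2)) ^ 2) +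
        (cph (q + 1 + 1) : ℂ) * (e - (v + (cph q : ℂ) * (e - v ^ 2) + (cph (q + 1) : ℂ) *
          (e - (v + (cph q : ℂ) * (e - v ^ 2)) ^ 2)) ^ 2)) + (cph (q + 1 + 1 + 1) : ℂ) * (e - _ ^ 2) = _
      rw [c3, c0, c1, c2]
    have hnear : 2 * cph 2 * v2.re < 1 := by
      have := hv.near 3 (by omega)
      rw [show q + 3 = q + 1 + 1 + 1 by ring, c2] at this
      have hz3 : zz e q 3 v = v2 := by
        show (v + (cph q : ℂ) * (e - v ^ 2) + (cph (q + 1) : ℂ) * (e - (v + (cph q : ℂ) * (e - v ^ 2)) ^ 2) +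
          (cph (q + 1 + 1) : ℂ) * (e - (v + (cph q : ℂ) * (e - v ^ 2) + (cph (q + 1) : ℂ) *
            (e - (v + (cph q : ℂ) * (e - v ^ 2)) ^ 2)) ^ 2)) = _
        rw [c3, c0, c1]
      rwa [hz3] at this
    have g2 := low2 he hnear
    rw [hz]
    exact grow h23 (low3 he (by linarith) le_rfl) (fun h => low0 he h le_rfl)
      (fun h => low1 he h le_rfl) g2.1 g2.2
  have all : ∀ n : ℕ, 23 / 10 + 3 / 100 * (n : ℝ) ≤ ‖zz e p (4 * n) w‖ := by
    intro n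
    induction n with
    | zero => simp only [Nat.cast_zero, mul_zero, add_zero]; exact hcon.le
    | succ n ih =>
      have h1 := key (p + 4 * n) (zz e p (4 * n) w) (by omega) (h.shift _)
        (by have : (0:ℝ) ≤ n := Nat.cast_nonneg n; linarith)
      rw [← zz_add, show 4 * n + 4 = 4 * (n + 1) by ring] at h1
      push_cast
      linarith
  have h1 := all 1000
  have h2 := h.bd (4 * 1000)
  norm_num at h1 h2
  linarith

lemma Good.two {e : ℂ} (he : ‖e‖ ≤ 1 / 4) {p : ℕ} (hp : p % 4 = 2) {w : ℂ} (h : Good e p w) :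
    ‖w‖ ≤ 70967623 / 16777216 := by
  by_contra hcon
  push Not at hcon
  have c2 : cph p = cph 2 := by rw [cph_mod, hp]
  have h1 := (h.shift 1).three he (by omega)
  have h2 := h.near 0 (by simpa using hp)
  rw [Nat.add_zero, c2] at h2
  have h3 : zz e p 1 w = w + (cph 2 : ℂ) * (e - w ^ 2) := by
    show w + (cph p : ℂ) * (e - w ^ 2) = _
    rw [c2]
  rw [h3] at h1
  obtain ⟨g1, g2⟩ := low2 he (show 2 * cph 2 * w.re < 1 from h2)
  rcases le_total ‖w‖ (479 / 100) with h5 | h5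
  · nlinarith
  · linarith

lemma Good.one {e : ℂ} (he : ‖e‖ ≤ 1 / 4) {p : ℕ} (hp : p % 4 = 1) {w : ℂ} (h : Good e p w) :
    ‖w‖ ≤ 57378078 / 16777216 := by
  by_contra hcon
  push Not at hcon
  have c1 : cph p = cph 1 := by rw [cph_mod, hp]
  have h1 := (h.shift 1).two he (by omega)
  have h3 : zz e p 1 w = w + (cph 1 : ℂ) * (e - w ^ 2) := by
    show w + (cph p : ℂ) * (e - w ^ 2) = _
    rw [c1]
  rw [h3] at h1
  have h2 := low1 he (by norm_num) hcon.le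
  norm_num at h2
  linarith

lemma Good.zero {e : ℂ} (he : ‖e‖ ≤ 1 / 4) {p : ℕ} (hp : p % 4 = 0) {w : ℂ} (h : Good e p w) :
    ‖w‖ ≤ 43956305 / 16777216 := by
  by_contra hcon
  push Not at hcon
  have c0 : cph p = cph 0 := by rw [cph_mod, hp]
  have h1 := (h.shift 1).one he (by omega)
  have h3 : zz e p 1 w = w + (cph 0 : ℂ) * (e - w ^ 2) := by
    show w + (cph p : ℂ) * (e - w ^ 2) = _
    rw [c0]
  rw [h3] at h1
  have h2 := low0 he (by norm_num) hcon.le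
  norm_num at h2
  linarith

lemma it_eq (e : ℂ) (j : ℕ) : ∀ (p : ℕ) (w : ℂ),
    it (16777216 * e) p j (16777216 * w) = 16777216 * zz e p j w := by
  induction j with
  | zero => intro p w; rfl
  | succ j ih =>
    intro p w
    show it _ (p + 1) j (stp (cph p) (16777216 * e) (16777216 * w)) = 16777216 * zz e (p + 1) j _
    rw [← ih]
    congr 1
    unfold stp
    ring

lemma Good.al {e : ℂ} (he : ‖e‖ ≤ 1 / 4) {p : ℕ} {w : ℂ} (h : Good e p w) :
    Al (16777216 * e) p (16777216 * w) := by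
  intro j
  rw [it_eq, norm_mul]
  have h16 : ‖(16777216 : ℂ)‖ = 16777216 := by simp
  rw [h16]
  have hj := h.shift j
  unfold TT
  have : (p + j) % 4 < 4 := Nat.mod_lt _ (by norm_num)
  split_ifs with h0 h1 h2
  · have := hj.zero he h0; linarith
  · have := hj.one he h1; linarith
  · have := hj.two he h2; linarith
  · have := hj.three he (by omega); linarith

/-- **Contraction over one period.** -/
theorem contr_core {e : ℂ} (h1 : ‖e‖ < 1 / 4) (h2 : 47 * ‖e‖ ^ 2 < 32 * e.re) (h3 : 0 ≤ e.im)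
    {w w1 w2 w3 : ℂ} (hg : Good e 3 w) (e1 : w1 = w + (cph 3 : ℂ) * (e - w ^ 2))
    (e2 : w2 = w1 + (cph 0 : ℂ) * (e - w1 ^ 2)) (e3 : w3 = w2 + (cph 1 : ℂ) * (e - w2 ^ 2)) :
    ‖1 - 2 * (cph 3 : ℂ) * w‖ * ‖1 - 2 * (cph 0 : ℂ) * w1‖ * ‖1 - 2 * (cph 1 : ℂ) * w2‖ *
      ‖1 - 2 * (cph 2 : ℂ) * w3‖ ≤ 199 / 200 * 16 := by
  have h16 : ‖(16777216 : ℂ)‖ = 16777216 := by simp
  have hg1 : Good e 0 w1 := by
    have h4 := hg.shift 1
    have h5 : zz e 3 1 w = w1 := by rw [e1]; rfl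
    rw [h5] at h4
    have hz : ∀ j (q : ℕ) (v : ℂ), zz e (q + 4) j v = zz e q j v := by
      intro j
      induction j with
      | zero => intro q v; rfl
      | succ j ih =>
        intro q v
        show zz e (q + 4 + 1) j (v + (cph (q + 4) : ℂ) * (e - v ^ 2)) = zz e (q + 1) j _
        rw [cph_add, show q + 4 + 1 = q + 1 + 4 by ring, ih]
    refine ⟨fun j => ?_, fun j hj => ?_⟩
    · have := h4.bd j
      rwa [show 3 + 1 = 0 + 4 by norm_num, hz] at this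
    · have := h4.near j (by omega)
      rwa [show 3 + 1 + j = (0 + j) + 4 by ring, cph_add, show 3 + 1 = 0 + 4 by norm_num, hz] at this
  have hA := hg1.al h1.le
  have hre := Complex.abs_re_le_norm e
  have him := Complex.abs_im_le_norm e
  have hre0 : 0 ≤ e.re := by nlinarith [norm_nonneg e]
  have E_re : ((16777216 : ℂ) * e).re = 16777216 * e.re := by
    have : (16777216 : ℂ) = ((16777216 : ℝ) : ℂ) := by norm_num
    rw [this, Complex.re_ofReal_mul]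
  have E_im : ((16777216 : ℂ) * e).im = 16777216 * e.im := by
    have : (16777216 : ℂ) = ((16777216 : ℝ) : ℂ) := by norm_num
    rw [this, Complex.im_ofReal_mul]
  have W_re : ((16777216 : ℂ) * w1).re = 16777216 * w1.re := by
    have : (16777216 : ℂ) = ((16777216 : ℝ) : ℂ) := by norm_num
    rw [this, Complex.re_ofReal_mul]
  have W_im : ((16777216 : ℂ) * w1).im = 16777216 * w1.im := by
    have : (16777216 : ℂ) = ((16777216 : ℝ) : ℂ) := by norm_num
    rw [this, Complex.im_ofReal_mul]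
  have hw1 := hg1.zero h1.le rfl
  have hwr := (Complex.abs_re_le_norm w1).trans hw1
  have hwi := (Complex.abs_im_le_norm w1).trans hw1
  have hE : BxE 2097152 2097152 2097152 (16777216 * e) := by
    unfold BxE
    rw [E_re, E_im]
    have a1 := abs_le.1 hre
    have a2 := abs_le.1 him
    constructor <;> (rw [abs_le]; push_cast; constructor <;> linarith)
  have hW : BxW 536870912 536870912 44040192 (16777216 * w1) := by
    unfold BxW
    rw [W_re, W_im]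
    rw [abs_le] at hwr hwi
    constructor <;> (rw [abs_le]; push_cast; constructor <;> linarith)
  have hR : Rg (16777216 * e) := by
    unfold Rg
    rw [E_re, norm_mul, h16]
    constructor
    · linarith
    · nlinarith
  have hQ := root _ _ hE hW hR hA
  unfold Q at hQ
  have k0 : (4194304 : ℂ) - (cph 3 : ℂ) * (16777216 * w1) + (cph 3 : ℂ) ^ 2 * (16777216 * e) =
      4194304 * (1 - 2 * (cph 3 : ℂ) * w) ^ 2 := by rw [e1]; ring
  have k1 : (16777216 : ℂ) - 2 * (cph 0 : ℂ) * (16777216 * w1) = 16777216 * (1 - 2 * (cph 0 : ℂ) * w1) := by ring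
  have s1 : stp (cph 0) (16777216 * e) (16777216 * w1) = 16777216 * w2 := by unfold stp; rw [e2]; ring
  have s2 : stp (cph 1) (16777216 * e) (16777216 * w2) = 16777216 * w3 := by unfold stp; rw [e3]; ring
  have k2 : (16777216 : ℂ) - 2 * (cph 1 : ℂ) * (16777216 * w2) = 16777216 * (1 - 2 * (cph 1 : ℂ) * w2) := by ring
  have k3 : (16777216 : ℂ) - 2 * (cph 2 : ℂ) * (16777216 * w3) = 16777216 * (1 - 2 * (cph 2 : ℂ) * w3) := by ring
  rw [s1, s2, k0, k1, k2, k3, norm_mul, norm_mul, norm_mul, norm_mul, norm_pow, h16] at hQ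
  have h41 : ‖(4194304 : ℂ)‖ = 4194304 := by simp
  rw [h41] at hQ
  set a := ‖1 - 2 * (cph 3 : ℂ) * w‖
  set b := ‖1 - 2 * (cph 0 : ℂ) * w1‖
  set c := ‖1 - 2 * (cph 1 : ℂ) * w2‖
  set d := ‖1 - 2 * (cph 2 : ℂ) * w3‖
  have hsq : (a * b * c * d) ^ 2 ≤ (199 / 200 * 16) ^ 2 := by
    have : 4194304 * a ^ 2 * (16777216 * b / 33554432 * (16777216 * c / 33554432) *
      (16777216 * d / 33554432)) ^ 2 = 65536 * (a * b * c * d) ^ 2 := by ring
    rw [this] at hQ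
    linarith
  exact le_of_sq_le_sq hsq (by norm_num)

open Pool.Agent.W_4481e3_q42 in
/-- **CONTR1** in the language of the certificate. -/
theorem contr1 {ε : ℂ} (hn : ‖ε‖ < 1 / 2)
    (hreg : 3 * ‖ε ^ 2‖ ^ 2 < 2 * (ε ^ 2).re + ‖ε ^ 2‖ ^ 4) (him : 0 ≤ (ε ^ 2).im)
    {w : ℂ} (h : Alive ε (2 ^ 3 / 15) w) :
    ∏ j ∈ Finset.range 4, ‖1 - 2 * (cc (3 + j) : ℂ) * ww (ε ^ 2) 3 w j‖ ≤ 199 / 200 * 16 := by
  set e := ε ^ 2 with he
  have hen : ‖e‖ < 1 / 4 := by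
    rw [he, norm_pow]
    have := norm_nonneg ε
    nlinarith
  have hreg' : 47 * ‖e‖ ^ 2 < 32 * e.re := by
    have h4 : ‖e‖ ^ 4 ≤ ‖e‖ ^ 2 / 16 := by
      have : ‖e‖ ^ 2 ≤ 1 / 16 := by nlinarith [norm_nonneg e]
      nlinarith [sq_nonneg ‖e‖]
    linarith
  have hcc : ∀ p, cc p = cph p := fun p => rfl
  have horb : ∀ j, orb e (2 ^ 3 / 15) w j = zz e 3 j w := by
    intro j
    induction j with
    | zero => rfl
    | succ j ih =>
      have h1 : zz e 3 (j + 1) w = zz e 3 j w + (cph (3 + j) : ℂ) * (e - zz e 3 j w ^ 2) := by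
        rw [zz_add]; rfl
      rw [h1, ← ih]
      show orb e (2 ^ 3 / 15) w j + (Real.cos (2 * Real.pi * (2 ^ j * (2 ^ 3 / 15))) : ℂ) * _ = _
      congr 2
      unfold cph
      congr 2
      rw [pow_add]
      ring
  have hg : Good e 3 w := by
    refine ⟨fun j => ?_, fun j hj => ?_⟩
    · rw [← horb]; exact h.bd j
    · rw [← horb]
      have hx : (2:ℝ) ^ j * (2 ^ 3 / 15) = 2 ^ (3 + j) / 15 := by rw [pow_add]; ring
      obtain ⟨n, hn⟩ : ∃ n : ℤ, (2:ℤ) ^ (3 + j) = 15 * n + 4 := by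
        have h1 : (2:ℤ) ^ (3 + j) ≡ 4 [ZMOD 15] := by
          obtain ⟨m, hm⟩ : ∃ m, 3 + j = 4 * m + 2 := ⟨(3 + j) / 4, by omega⟩
          rw [hm, pow_add, pow_mul]
          have h2 : ((2:ℤ) ^ 4) ^ m ≡ 1 ^ m [ZMOD 15] := Int.ModEq.pow m (by decide)
          rw [one_pow] at h2
          have h3 := h2.mul_right (2 ^ 2)
          norm_num at h3 ⊢
          exact h3
        obtain ⟨k, hk⟩ := h1.symm.dvd
        exact ⟨k, by linarith⟩
      have hn' : (2:ℝ) ^ (3 + j) = 15 * n + 4 := by exact_mod_cast hn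
      have h4 := h.half j n (by rw [hx, hn']; linarith) (by rw [hx, hn']; linarith)
      rw [hx] at h4
      exact h4
  have hc4 : cph 4 = cph 0 := cph_add 0
  have hc5 : cph 5 = cph 1 := cph_add 1
  have hc6 : cph 6 = cph 2 := cph_add 2
  have := contr_core hen hreg' him hg rfl rfl rfl
  rw [Finset.prod_range_succ, Finset.prod_range_succ, Finset.prod_range_succ, Finset.prod_range_succ,
    Finset.prod_range_zero, one_mul]
  simp only [hcc, Nat.add_zero, Nat.reduceAdd, ww]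
  rw [hc4, hc5, hc6]
  exact this

end Pool.Agent.W_4481e3_q12
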