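import Pool.Agent.W_4481e3_q12.SndA

/-!
Soundness of the leaves: escape, contraction, outside.
-/

namespace Pool.Agent.W_4481e3_q12.Ev

open Complex
open Pool.Agent.W_MP_4481e3_an.Ev (gd nrm1 pt InB gd_true div_lower div_upper
  nrm1_sound norm_pt_sq norm_le_sqrt_two ndiv_eq cosChk_sound)

/-- cosine of the phase `p` -/
noncomputable def cph (p : ℕ) : ℝ := Real.cos (2 * Real.pi * (2 ^ p / 15))

lemma cph_add (p : ℕ) : cph (p + 4) = cph p := by
  unfold cph
  have : 2 * Real.pi * (2 ^ (p + 4) / 15) = 2 * Real.pi * (2 ^ p / 15) + ((2 ^ p : ℕ) : ℝ) * (2 * Real.pi) := by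
    push_cast
    rw [pow_add]
    ring
  rw [this, Real.cos_add_nat_mul_two_pi]

/-- thresholds, scaled -/
noncomputable def TT (p : ℕ) : ℝ :=
  if p % 4 = 0 then 43956305 else if p % 4 = 1 then 57378078 else if p % 4 = 2 then 70967623
    else 38587597

lemma TT_add (p : ℕ) : TT (p + 4) = TT p := by
  unfold TT
  rw [Nat.add_mod_right]

/-- iterates from the phase `p`, scaled -/
noncomputable def it (E : ℂ) : ℕ → ℕ → ℂ → ℂ
  | _, 0, W => W
  | p, j + 1, W => it E (p + 1) j (stp (cph p) E W)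

lemma it_add4 (E : ℂ) (j : ℕ) : ∀ (p : ℕ) (W : ℂ), it E (p + 4) j W = it E p j W := by
  induction j with
  | zero => intro p W; rfl
  | succ j ih =>
    intro p W
    show it E (p + 4 + 1) j (stp (cph (p + 4)) E W) = it E (p + 1) j (stp (cph p) E W)
    rw [cph_add, show p + 4 + 1 = (p + 1) + 4 by ring, ih]

/-- alive from the phase `p` -/
def Al (E : ℂ) (p : ℕ) (W : ℂ) : Prop := ∀ j, ‖it E p j W‖ ≤ TT (p + j)

lemma Al.bd {E : ℂ} {p : ℕ} {W : ℂ} (h : Al E p W) : ‖W‖ ≤ TT p := h 0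

lemma Al.step {E : ℂ} {p : ℕ} {W : ℂ} (h : Al E p W) : Al E (p + 1) (stp (cph p) E W) := by
  intro j
  have := h (j + 1)
  rwa [show p + (j + 1) = p + 1 + j by ring] at this

lemma Al.add4 {E : ℂ} {p : ℕ} {W : ℂ} (h : Al E (p + 4) W) : Al E p W := by
  intro j
  have := h j
  rwa [it_add4, show p + 4 + j = (p + j) + 4 by ring, TT_add] at this

lemma cph_abs (p : ℕ) : |cph p| ≤ 1 := Real.abs_cos_le_one _

lemma cph_chk {p tgt : ℕ} (h : Pool.Agent.W_MP_4481e3_an.Ev.cosChk (2 ^ p) 15 tgt = true) :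
    |(1 - cph p) * 16777216 - tgt| ≤ 1 := by
  have := cosChk_sound h
  unfold cph
  push_cast at this
  exact this

lemma chk0 : |(1 - cph 0) * 16777216 - 1450467| ≤ 1 := by
  have := cph_chk (p := 0) (tgt := 1450467) (by decide +kernel)
  exact_mod_cast this
lemma chk1 : |(1 - cph 1) * 16777216 - 5551067| ≤ 1 := by
  have := cph_chk (p := 1) (tgt := 5551067) (by decide +kernel)
  exact_mod_cast this
lemma chk2 : |(1 - cph 2) * 16777216 - 18530913| ≤ 1 := by
  have := cph_chk (p := 2) (tgt := 18530913) (by decide +kernel)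
  exact_mod_cast this
lemma chk3' : |(1 - cph 3) * 16777216 - 33187810| ≤ 1 := by
  have := cph_chk (p := 3) (tgt := 33187810) (by decide +kernel)
  exact_mod_cast this

lemma ph0 : Ph fid 15326749 8228485713625088 (cph 0) := by
  refine ⟨⟨1, Or.inl rfl, flip_fid, ?_⟩, by norm_num, by norm_num, cph_abs _⟩
  have h := chk0
  rw [abs_le] at h ⊢
  push_cast
  constructor <;> linarith [h.1, h.2]

lemma ph1 : Ph fid 11226149 6026992851877888 (cph 1) := by
  refine ⟨⟨1, Or.inl rfl, flip_fid, ?_⟩, by norm_num, by norm_num, cph_abs _⟩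
  have h := chk1
  rw [abs_le] at h ⊢
  push_cast
  constructor <;> linarith [h.1, h.2]

lemma ph2 : Ph neg 1753697 941508907761664 (cph 2) := by
  refine ⟨⟨-1, Or.inr rfl, flip_neg, ?_⟩, by norm_num, by norm_num, cph_abs _⟩
  have h := chk2
  rw [abs_le] at h ⊢
  push_cast
  constructor <;> linarith [h.1, h.2]

lemma ph3 : Ph neg 16410594 8810370567241728 (cph 3) := by
  refine ⟨⟨-1, Or.inr rfl, flip_neg, ?_⟩, by norm_num, by norm_num, cph_abs _⟩
  have h := chk3'
  rw [abs_le] at h ⊢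
  push_cast
  constructor <;> linarith [h.1, h.2]

lemma esc_sound {R A B r : ℕ} {W : ℂ} (hW : InB A B r W) (h : esc R A B r = true) :
    (R:ℝ) < ‖W‖ := by
  unfold esc esc1 at h
  simp only [Nat.add_eq, Nat.mul_eq] at h
  have h1 := Nat.le_of_ble_eq_true h
  have h2 : ((R:ℝ) + r) ^ 2 < ‖pt A B‖ ^ 2 := by
    rw [norm_pt_sq, ← sq_abs ((A:ℝ) - 536870912), ← sq_abs ((B:ℝ) - 536870912)]
    have h3 : (R + r) * (R + r) < ds A 536870912 * ds A 536870912 + ds B 536870912 * ds B 536870912 := h1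
    have h4 : (((R + r) * (R + r) : ℕ) : ℝ) <
      ((ds A 536870912 * ds A 536870912 + ds B 536870912 * ds B 536870912 : ℕ) : ℝ) := by exact_mod_cast h3
    push_cast at h4
    rw [ds_cast, ds_cast] at h4
    push_cast at h4
    nlinarith
  have h3 : (R:ℝ) + r < ‖pt A B‖ := lt_of_pow_lt_pow_left₀ 2 (norm_nonneg _) h2
  unfold InB at hW
  have h4 : ‖pt A B‖ ≤ ‖W‖ + ‖W - pt A B‖ := by
    have : pt A B = W - (W - pt A B) := by ring
    calc ‖pt A B‖ = ‖W - (W - pt A B)‖ := by rw [← this]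
      _ ≤ _ := norm_sub_le _ _
  linarith

section
variable {X Y t A B r : ℕ} {E W : ℂ}

lemma s0f_sound {k : ℕ → ℕ → ℕ → Bool} (hX : X ≤ 4194304) (hY : Y ≤ 4194304) (ht : t ≤ 16777216)
    (hE : InE X Y t E) (hW : InB A B r W) (h : s0 X Y t (fg k) A B r = true) :
    ∃ A' B' r' : ℕ, k A' B' r' = true ∧ InB A' B' r' (stp (cph 0) E W) := by
  obtain ⟨A', B', r', G, h1, h2, _⟩ := st_sound ph0 hX hY ht hE hW h
  exact ⟨A', B', r', h1, h2⟩

lemma s1f_sound {k : ℕ → ℕ → ℕ → Bool} (hX : X ≤ 4194304) (hY : Y ≤ 4194304) (ht : t ≤ 16777216)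
    (hE : InE X Y t E) (hW : InB A B r W) (h : s1 X Y t (fg k) A B r = true) :
    ∃ A' B' r' : ℕ, k A' B' r' = true ∧ InB A' B' r' (stp (cph 1) E W) := by
  obtain ⟨A', B', r', G, h1, h2, _⟩ := st_sound ph1 hX hY ht hE hW h
  exact ⟨A', B', r', h1, h2⟩

lemma s2f_sound {k : ℕ → ℕ → ℕ → Bool} (hX : X ≤ 4194304) (hY : Y ≤ 4194304) (ht : t ≤ 16777216)
    (hE : InE X Y t E) (hW : InB A B r W) (h : s2 X Y t (fg k) A B r = true) :
    ∃ A' B' r' : ℕ, k A' B' r' = true ∧ InB A' B' r' (stp (cph 2) E W) := by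
  obtain ⟨A', B', r', G, h1, h2, _⟩ := st_sound ph2 hX hY ht hE hW h
  exact ⟨A', B', r', h1, h2⟩

lemma s3f_sound {k : ℕ → ℕ → ℕ → Bool} (hX : X ≤ 4194304) (hY : Y ≤ 4194304) (ht : t ≤ 16777216)
    (hE : InE X Y t E) (hW : InB A B r W) (h : s3 X Y t (fg k) A B r = true) :
    ∃ A' B' r' : ℕ, k A' B' r' = true ∧ InB A' B' r' (stp (cph 3) E W) := by
  obtain ⟨A', B', r', G, h1, h2, _⟩ := st_sound ph3 hX hY ht hE hW h
  exact ⟨A', B', r', h1, h2⟩

lemma tail_sound {b : ℕ} (hX : X ≤ 4194304) (hY : Y ≤ 4194304) (ht : t ≤ 16777216)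
    (hE : InE X Y t E) (hW : InB A B r W) (h : tail X Y t b A B r = true) : ¬ Al E 0 W := by
  intro hA
  match b, h with
  | 0, h =>
    have h1 : esc 43956305 A B r = true := h
    have h2 := esc_sound hW h1
    have h3 := hA.bd
    norm_num [TT] at h3 h2
    linarith
  | 1, h =>
    have h1 : s0 X Y t (fg (esc 57378078)) A B r = true := h
    obtain ⟨A1, B1, r1, h1, w1⟩ := s0f_sound hX hY ht hE hW h1
    have h2 := esc_sound w1 h1
    have h3 := hA.step.bd
    norm_num [TT] at h3 h2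
    linarith
  | 2, h =>
    have h1 : s0 X Y t (fg (s1 X Y t (fg (esc 70967623)))) A B r = true := h
    obtain ⟨A1, B1, r1, h1, w1⟩ := s0f_sound hX hY ht hE hW h1
    obtain ⟨A2, B2, r2, h1, w2⟩ := s1f_sound hX hY ht hE w1 h1
    have h2 := esc_sound w2 h1
    have h3 := hA.step.step.bd
    norm_num [TT] at h3 h2
    linarith
  | b + 3, h =>
    have h1 : s0 X Y t (fg (s1 X Y t (fg (s2 X Y t (fg (esc 38587597)))))) A B r = true := h
    obtain ⟨A1, B1, r1, h1, w1⟩ := s0f_sound hX hY ht hE hW h1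
    obtain ⟨A2, B2, r2, h1, w2⟩ := s1f_sound hX hY ht hE w1 h1
    obtain ⟨A3, B3, r3, h1, w3⟩ := s2f_sound hX hY ht hE w2 h1
    have h2 := esc_sound w3 h1
    have h3 := hA.step.step.step.bd
    norm_num [TT] at h3 h2
    linarith

lemma iter_sound {k : ℕ → ℕ → ℕ → Bool} (hX : X ≤ 4194304) (hY : Y ≤ 4194304) (ht : t ≤ 16777216)
    (hE : InE X Y t E) (hk : ∀ {A B r : ℕ} {W : ℂ}, InB A B r W → k A B r = true → ¬ Al E 0 W)
    (j : ℕ) : ∀ {A B r : ℕ} {W : ℂ}, InB A B r W →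
      (Nat.rec k (fun _ ih => per X Y t ih) j : ℕ → ℕ → ℕ → Bool) A B r = true → ¬ Al E 0 W := by
  induction j with
  | zero => intro A B r W hW h; exact hk hW h
  | succ j ih =>
    intro A B r W hW h hA
    have h1 : s0 X Y t (fg (s1 X Y t (fg (s2 X Y t (fg (s3 X Y t (fg
      (Nat.rec k (fun _ ih => per X Y t ih) j : ℕ → ℕ → ℕ → Bool)))))))) A B r = true := h
    obtain ⟨A1, B1, r1, h1, w1⟩ := s0f_sound hX hY ht hE hW h1
    obtain ⟨A2, B2, r2, h1, w2⟩ := s1f_sound hX hY ht hE w1 h1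
    obtain ⟨A3, B3, r3, h1, w3⟩ := s2f_sound hX hY ht hE w2 h1
    obtain ⟨A4, B4, r4, h1, w4⟩ := s3f_sound hX hY ht hE w3 h1
    exact ih w4 h1 (hA.step.step.step.step.add4)

lemma escj_sound {j : ℕ} (hX : X ≤ 4194304) (hY : Y ≤ 4194304) (ht : t ≤ 16777216)
    (hE : InE X Y t E) (hW : InB A B r W) (h : escj X Y t j A B r = true) : ¬ Al E 0 W :=
  iter_sound hX hY ht hE (fun hW h => tail_sound hX hY ht hE hW h) _ hW h

/-- the scaled product of one period -/
noncomputable def Q (E W : ℂ) : ℝ :=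
  ‖4194304 - (cph 3 : ℂ) * W + (cph 3 : ℂ) ^ 2 * E‖ *
    (‖16777216 - 2 * (cph 0 : ℂ) * W‖ / 33554432 *
      (‖16777216 - 2 * (cph 1 : ℂ) * stp (cph 0) E W‖ / 33554432) *
      (‖16777216 - 2 * (cph 2 : ℂ) * stp (cph 1) E (stp (cph 0) E W)‖ / 33554432)) ^ 2

lemma up2_sound {P q : ℕ} {x g : ℝ} (hx : x ≤ P) (hg0 : 0 ≤ g) (hg : g ≤ q) :
    x * (g / 33554432) ^ 2 ≤ up2 P q := by
  unfold up2
  simp only [Nat.add_eq, Nat.mul_eq, ndiv_eq]
  have h1 := div_lower (P * q) 33554432 (by norm_num)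
  have h2 := div_lower ((P * q / 33554432 + 1) * q) 33554432 (by norm_num)
  push_cast at h1 h2 ⊢
  have h3 : x * g / 33554432 ≤ ((P * q / 33554432 : ℕ) : ℝ) + 1 := by
    have : x * g ≤ P * q := mul_le_mul hx hg hg0 (by positivity)
    have : x * g / 33554432 ≤ P * q / 33554432 := div_le_div_of_nonneg_right this (by norm_num)
    linarith
  have h4 : x * (g / 33554432) ^ 2 = (x * g / 33554432) * g / 33554432 := by ring
  have h5 : (x * g / 33554432) * g ≤ (((P * q / 33554432 : ℕ) : ℝ) + 1) * q :=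
    mul_le_mul h3 hg hg0 (by positivity)
  have h6 : (x * g / 33554432) * g / 33554432 ≤ (((P * q / 33554432 : ℕ) : ℝ) + 1) * q / 33554432 :=
    div_le_div_of_nonneg_right h5 (by norm_num)
  rw [h4]
  linarith

lemma up_sound {C P G r : ℕ} {x g : ℝ} (hx : x ≤ P) (hg0 : 0 ≤ g)
    (hg : g ≤ G + 2 * C * r / 16777216 + 37) : x * (g / 33554432) ^ 2 ≤ up C P G r := by
  unfold up
  apply up2_sound hx hg0
  simp only [Nat.add_eq, Nat.mul_eq, ndiv_eq]
  have h1 := div_lower (2 * C * r) 16777216 (by norm_num)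
  push_cast at h1 ⊢
  linarith

lemma con_sound (hX : X ≤ 4194304) (hY : Y ≤ 4194304) (ht : t ≤ 16777216)
    (hE : InE X Y t E) (hW : InB A B r W) (h : con X Y t A B r = true) : Q E W ≤ 16609863 := by
  unfold con con1 at h
  simp only [Nat.add_eq, Nat.mul_eq, ndiv_eq] at h
  obtain ⟨A1, B1, r1, G0, h1, w1, hr, hz, g0⟩ := st_sound ph0 hX hY ht hE hW h
  unfold con2 at h1
  obtain ⟨A2, B2, r2, G1, h2, w2, _, _, g1⟩ := st_sound ph1 hX hY ht hE w1 h1
  unfold con3 at h2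
  obtain ⟨A3, B3, r3, G2, h3, w3, _, _, g2⟩ := st_sound ph2 hX hY ht hE w2 h2
  unfold con4 at h3
  have h4 := Nat.le_of_ble_eq_true h3
  clear h h1 h2 h3
  -- the first factor
  set m := ds (70368744177664 + 16410594 * A + 16051983 * X) 8810370567241728 / 16777216 + 1 with hm
  set n := ds (16410594 * B + 16051983 * Y) 8810370567241728 / 16777216 + 1 with hn
  set P0 := nrm m n (m * m + n * n) + (16410594 * r + 16051983 * t) / 16777216 + 40 with hP0
  have hfirst : ‖4194304 - (cph 3 : ℂ) * W + (cph 3 : ℂ) ^ 2 * E‖ ≤ P0 := by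
    have hc3 := abs_le.1 chk3'
    have hl : (cph 3) * 16777216 ≤ -16410593 := by linarith [hc3.1]
    have hu : -16410595 ≤ (cph 3) * 16777216 := by linarith [hc3.2]
    set γ : ℝ := 16410594 / 16777216 with hγ
    set κ : ℝ := 16051983 / 16777216 with hκ
    have hcg : |cph 3 + γ| ≤ 1 / 16777216 := by
      rw [abs_le, hγ]; constructor <;> linarith
    have hck : |cph 3 ^ 2 - κ| ≤ 4 / 16777216 := by
      have e1 : (-16410595 / 16777216 : ℝ) ≤ cph 3 := by linarith
      have e2 : cph 3 ≤ -16410593 / 16777216 := by linarith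
      rw [abs_le, hκ]
      constructor <;> nlinarith
    set z := pt A B with hz0
    set k0 : ℂ := (⟨(X:ℝ), (Y:ℝ)⟩ : ℂ) with hk0
    set F : ℂ := 4194304 + (γ : ℂ) * z + (κ : ℂ) * k0 with hF
    have h16 : ‖(16777216 : ℂ)‖ = 16777216 := by simp
    have hk2 : ‖k0‖ ≤ 6291456 := by
      have hX' : (X:ℝ) ≤ 4194304 := by exact_mod_cast hX
      have hY' : (Y:ℝ) ≤ 4194304 := by exact_mod_cast hY
      have e1 : ‖(⟨(X:ℝ), (Y:ℝ)⟩ : ℂ)‖ ≤ 3 / 2 * 4194304 := by
        apply norm_le_sqrt_two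
        · simp only [Nat.abs_cast]; exact hX'
        · simp only [Nat.abs_cast]; exact hY'
      linarith
    have hFre : 16777216 * F.re = 70368744177664 + 16410594 * (A:ℝ) + 16051983 * X - 8810370567241728 := by
      rw [hF, Complex.add_re, Complex.add_re, Complex.re_ofReal_mul, Complex.re_ofReal_mul]
      have e1 : (4194304 : ℂ).re = 4194304 := by norm_num
      rw [e1, hz0, hk0, hγ, hκ]
      unfold pt
      simp only
      ring
    have hFim : 16777216 * F.im = 16410594 * (B:ℝ) + 16051983 * Y - 8810370567241728 := by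
      rw [hF, Complex.add_im, Complex.add_im, Complex.im_ofReal_mul, Complex.im_ofReal_mul]
      have e1 : (4194304 : ℂ).im = 0 := by norm_num
      rw [e1, hz0, hk0, hγ, hκ]
      unfold pt
      simp only
      ring
    have hmre : |F.re| ≤ m := by
      have e3 := div_lower (ds (70368744177664 + 16410594 * A + 16051983 * X) 8810370567241728) 16777216 (by norm_num)
      rw [ds_cast] at e3
      push_cast at e3
      rw [← hFre, abs_mul, abs_of_pos (show (0:ℝ) < 16777216 by norm_num)] at e3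
      rw [hm]
      push_cast
      linarith
    have hnim : |F.im| ≤ n := by
      have e3 := div_lower (ds (16410594 * B + 16051983 * Y) 8810370567241728) 16777216 (by norm_num)
      rw [ds_cast] at e3
      push_cast at e3
      rw [← hFim, abs_mul, abs_of_pos (show (0:ℝ) < 16777216 by norm_num)] at e3
      rw [hn]
      push_cast
      linarith
    have hFw : ‖F‖ ≤ nrm m n (m * m + n * n) := by
      apply nrm_sound
      have e3 : ‖F‖ ^ 2 = |F.re| ^ 2 + |F.im| ^ 2 := by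
        rw [Complex.sq_norm, Complex.normSq_apply, sq_abs, sq_abs]; ring
      rw [e3]
      push_cast
      have e4 : |F.re| ^ 2 ≤ (m:ℝ) ^ 2 := pow_le_pow_left₀ (abs_nonneg _) hmre 2
      have e5 : |F.im| ^ 2 ≤ (n:ℝ) ^ 2 := pow_le_pow_left₀ (abs_nonneg _) hnim 2
      linarith
    have hdec : 4194304 - (cph 3 : ℂ) * W + (cph 3 : ℂ) ^ 2 * E =
        (F + -(((cph 3 + γ : ℝ) : ℂ) * z)) + (((cph 3 ^ 2 - κ : ℝ) : ℂ) * k0 + -((cph 3 : ℂ) * (W - z))) +
          (cph 3 : ℂ) ^ 2 * (E - k0) := by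
      rw [hF]; push_cast; ring
    have d1 : ‖-(((cph 3 + γ : ℝ) : ℂ) * z)‖ ≤ 6 := by
      rw [norm_neg, norm_mul, Complex.norm_real, Real.norm_eq_abs]
      calc |cph 3 + γ| * ‖z‖ ≤ 1 / 16777216 * 86000000 := mul_le_mul hcg hz (norm_nonneg _) (by norm_num)
        _ ≤ 6 := by norm_num
    have d2 : ‖((cph 3 ^ 2 - κ : ℝ) : ℂ) * k0‖ ≤ 2 := by
      rw [norm_mul, Complex.norm_real, Real.norm_eq_abs]
      calc |cph 3 ^ 2 - κ| * ‖k0‖ ≤ 4 / 16777216 * 6291456 := mul_le_mul hck hk2 (norm_nonneg _) (by norm_num)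
        _ ≤ 2 := by norm_num
    have hr' : (r:ℝ) ≤ 218103808 := by exact_mod_cast hr
    have ht' : (t:ℝ) ≤ 16777216 := by exact_mod_cast ht
    have d3 : ‖-((cph 3 : ℂ) * (W - z))‖ ≤ 16410594 * r / 16777216 + 13 := by
      rw [norm_neg, norm_mul, Complex.norm_real, Real.norm_eq_abs]
      have e1 : |cph 3| ≤ 16410595 / 16777216 := by
        rw [abs_le]; constructor <;> linarith
      have e2 : |cph 3| * ‖W - z‖ ≤ 16410595 / 16777216 * r :=
        mul_le_mul e1 hW (norm_nonneg _) (by norm_num)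
      linarith
    have d4 : ‖(cph 3 : ℂ) ^ 2 * (E - k0)‖ ≤ 16051983 * t / 16777216 + 4 := by
      rw [norm_mul, norm_pow, Complex.norm_real, Real.norm_eq_abs, sq_abs]
      have e1 : cph 3 ^ 2 ≤ (16051983 + 4) / 16777216 := by
        have := (abs_le.1 hck).2
        rw [hκ] at this
        linarith
      have e2 : cph 3 ^ 2 * ‖E - k0‖ ≤ (16051983 + 4) / 16777216 * t :=
        mul_le_mul e1 hE (norm_nonneg _) (by norm_num)
      linarith
    rw [hdec]
    refine (norm_add₃_le).trans ?_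
    have m1 := norm_add_le F (-(((cph 3 + γ : ℝ) : ℂ) * z))
    have m2 := norm_add_le (((cph 3 ^ 2 - κ : ℝ) : ℂ) * k0) (-((cph 3 : ℂ) * (W - z)))
    have e6 := div_lower (16410594 * r + 16051983 * t) 16777216 (by norm_num)
    have hP0r : (P0:ℝ) = ((nrm m n (m * m + n * n) : ℕ) : ℝ) +
        (((16410594 * r + 16051983 * t) / 16777216 : ℕ) : ℝ) + 40 := by
      rw [hP0]; push_cast; ring
    push_cast at e6
    have e7 : (16410594 * (r:ℝ) + 16051983 * t) / 16777216 = 16410594 * r / 16777216 + 16051983 * t / 16777216 := by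
      ring
    have t1 := m1.trans (add_le_add hFw d1)
    have t2 := m2.trans (add_le_add d2 d3)
    have t3 := add_le_add (add_le_add t1 t2) d4
    refine t3.trans ?_
    rw [hP0r]
    rw [e7] at e6
    linarith
  clear_value m n P0
  -- the product
  set x0 := ‖4194304 - (cph 3 : ℂ) * W + (cph 3 : ℂ) ^ 2 * E‖ with hx0
  set y0 := ‖16777216 - 2 * (cph 0 : ℂ) * W‖ with hy0
  set y1 := ‖16777216 - 2 * (cph 1 : ℂ) * stp (cph 0) E W‖ with hy1
  set y2 := ‖16777216 - 2 * (cph 2 : ℂ) * stp (cph 1) E (stp (cph 0) E W)‖ with hy2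
  have px0 : 0 ≤ x0 := norm_nonneg _
  have py0 : 0 ≤ y0 := norm_nonneg _
  have py1 : 0 ≤ y1 := norm_nonneg _
  have py2 : 0 ≤ y2 := norm_nonneg _
  have u0 := up_sound hfirst py0 (by exact_mod_cast g0)
  have u1 := up_sound u0 py1 (by exact_mod_cast g1)
  have u2 := up_sound u1 py2 (by exact_mod_cast g2)
  have h5 : ((up 1753697 (up 11226149 (up 15326749 P0 G0 r) G1 r1) G2 r2 : ℕ) : ℝ) ≤ 16609863 := by
    exact_mod_cast h4
  have : Q E W = x0 * (y0 / 33554432) ^ 2 * (y1 / 33554432) ^ 2 * (y2 / 33554432) ^ 2 := by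
    unfold Q
    rw [← hx0, ← hy0, ← hy1, ← hy2]
    ring
  rw [this]
  exact u2.trans h5

end

/-- the scaled parameter region -/
def Rg (E : ℂ) : Prop := ‖E‖ < 4194304 ∧ 47 * ‖E‖ ^ 2 < 536870912 * E.re

/-- boxes -/
def BxE (X Y H : ℕ) (E : ℂ) : Prop := |E.re - X| ≤ H ∧ |E.im - Y| ≤ H
def BxW (A B h : ℕ) (W : ℂ) : Prop := |W.re - ((A:ℝ) - 536870912)| ≤ h ∧ |W.im - ((B:ℝ) - 536870912)| ≤ h

lemma out_sound {X Y H : ℕ} {E : ℂ} (hE : BxE X Y H E) (h : out X Y H = true) : ¬ Rg E := by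
  rintro ⟨h1, h2⟩
  have hu : ((X - H : ℕ) : ℝ) ≤ |E.re| := by
    rcases le_total H X with h | h
    · rw [Nat.cast_sub h]
      have := abs_le.1 hE.1
      have := le_abs_self E.re
      linarith
    · rw [Nat.sub_eq_zero_of_le h]; push_cast; exact abs_nonneg _
  have hv : ((Y - H : ℕ) : ℝ) ≤ |E.im| := by
    rcases le_total H Y with h | h
    · rw [Nat.cast_sub h]
      have := abs_le.1 hE.2
      have := le_abs_self E.im
      linarith
    · rw [Nat.sub_eq_zero_of_le h]; push_cast; exact abs_nonneg _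
  have hq : (((X - H) * (X - H) + (Y - H) * (Y - H) : ℕ) : ℝ) ≤ ‖E‖ ^ 2 := by
    have e3 : ‖E‖ ^ 2 = |E.re| ^ 2 + |E.im| ^ 2 := by
      rw [Complex.sq_norm, Complex.normSq_apply, sq_abs, sq_abs]; ring
    rw [e3]
    push_cast
    have e4 := pow_le_pow_left₀ (Nat.cast_nonneg (α := ℝ) (X - H)) hu 2
    have e5 := pow_le_pow_left₀ (Nat.cast_nonneg (α := ℝ) (Y - H)) hv 2
    nlinarith
  unfold out out1 out2 at h
  simp only [Nat.add_eq, Nat.mul_eq, Nat.sub_eq] at h
  set q := (X - H) * (X - H) + (Y - H) * (Y - H) with hqd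
  cases hb : Nat.ble 17592186044416 q with
  | false =>
    rw [hb] at h
    have h3 : 536870912 * (X + H) < 47 * q := Nat.le_of_ble_eq_true h
    have h4 : 536870912 * ((X:ℝ) + H) < 47 * q := by exact_mod_cast h3
    have h5 := (abs_le.1 hE.1).2
    linarith
  | true =>
    have h3 := Nat.le_of_ble_eq_true hb
    have h4 : (17592186044416:ℝ) ≤ q := by exact_mod_cast h3
    nlinarith [norm_nonneg E]

lemma box_norm {z : ℂ} {h : ℕ} (h1 : |z.re| ≤ h) (h2 : |z.im| ≤ h) :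
    ‖z‖ ≤ ((h * 1449 / 1024 + 1 : ℕ) : ℝ) := by
  have e := div_lower (h * 1449) 1024 (by norm_num)
  push_cast at e ⊢
  have h0 : (0:ℝ) ≤ h := Nat.cast_nonneg _
  have h3 : ‖z‖ ^ 2 = |z.re| ^ 2 + |z.im| ^ 2 := by
    rw [Complex.sq_norm, Complex.normSq_apply, sq_abs, sq_abs]; ring
  have e4 := pow_le_pow_left₀ (abs_nonneg _) h1 2
  have e5 := pow_le_pow_left₀ (abs_nonneg _) h2 2
  have h4 : ‖z‖ ^ 2 ≤ ((h:ℝ) * 1449 / 1024) ^ 2 := by
    rw [h3]
    nlinarith
  have h5 := le_of_sq_le_sq h4 (by positivity)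
  linarith

/-- the statement certified on a cell -/
def Cl (E W : ℂ) : Prop := Rg E → Al E 0 W → Q E W ≤ 16609863

lemma chk_sound {m X Y H A B h : ℕ} (hX : X ≤ 4194304) (hY : Y ≤ 4194304) (hH : H ≤ 4194304)
    (hc : chk m X Y H A B h = true) {E W : ℂ} (hE : BxE X Y H E) (hW : BxW A B h W) : Cl E W := by
  intro hR hA
  unfold chk chk3 at hc
  simp only [Nat.add_eq, Nat.mul_eq, ndiv_eq] at hc
  have hE' : InE X Y (H * 1449 / 1024 + 1) E := by
    unfold InE
    apply box_norm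
    · rw [Complex.sub_re]; exact hE.1
    · rw [Complex.sub_im]; exact hE.2
  have hW' : InB A B (h * 1449 / 1024 + 1) W := by
    unfold InB
    apply box_norm
    · rw [Complex.sub_re]; exact hW.1
    · rw [Complex.sub_im]; exact hW.2
  have ht : H * 1449 / 1024 + 1 ≤ 16777216 := by omega
  cases h1 : Nat.ble 12 m with
  | false =>
    rw [h1] at hc
    exact absurd hA (escj_sound hX hY ht hE' hW' hc)
  | true =>
    rw [h1] at hc
    cases h2 : Nat.ble 13 m with
    | false =>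
      rw [h2] at hc
      exact absurd hR (out_sound hE hc)
    | true =>
      rw [h2] at hc
      exact con_sound hX hY ht hE' hW' hc

end Pool.Agent.W_4481e3_q12.Ev
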