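import Pool.Agent.W_4481e3_q12.SndB

/-!
Soundness of the trees.
-/

namespace Pool.Agent.W_4481e3_q12.Ev

/-- geometric side conditions of a cell -/
structure Ok (d X Y H A B h : ℕ) : Prop where
  dH : 2 ^ d ∣ H
  dh : 2 ^ d ∣ h
  X0 : H ≤ X
  Y0 : H ≤ Y
  A0 : h ≤ A
  B0 : h ≤ B
  X1 : X + H ≤ 4194304
  Y1 : Y + H ≤ 4194304

lemma half_of_dvd {d H : ℕ} (h : 2 ^ (d + 1) ∣ H) : H = 2 * ((H + 1) / 2) ∧ 2 ^ d ∣ (H + 1) / 2 := by
  obtain ⟨k, hk⟩ := h
  have e : H = 2 * (2 ^ d * k) := by rw [hk, pow_succ]; ring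
  have e2 : (H + 1) / 2 = 2 ^ d * k := by omega
  exact ⟨by rw [e2]; exact e, by rw [e2]; exact dvd_mul_right _ _⟩

/-- the statement on a cell -/
def Cov (X Y H A B h : ℕ) : Prop := ∀ E W : ℂ, BxE X Y H E → BxW A B h W → Cl E W

lemma Cov.e {X Y H A B h : ℕ} (hX : H ≤ X) (hY : H ≤ Y)
    (c1 : Cov (X - H) (Y - H) H A B h) (c2 : Cov (X - H) (Y + H) H A B h)
    (c3 : Cov (X + H) (Y - H) H A B h) (c4 : Cov (X + H) (Y + H) H A B h) :
    Cov X Y (2 * H) A B h := by
  intro E W hE hW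
  have cX : ((X - H : ℕ) : ℝ) = X - H := Nat.cast_sub hX
  have cY : ((Y - H : ℕ) : ℝ) = Y - H := Nat.cast_sub hY
  obtain ⟨y1, y2⟩ := hE
  push_cast at y1 y2
  rw [abs_le] at y1 y2
  rcases le_total E.re X with r1 | r1
  · rcases le_total E.im Y with r2 | r2
    · refine c1 E W ⟨?_, ?_⟩ hW
      · rw [cX, abs_le]; constructor <;> linarith
      · rw [cY, abs_le]; constructor <;> linarith
    · refine c2 E W ⟨?_, ?_⟩ hW
      · rw [cX, abs_le]; constructor <;> linarith
      · push_cast; rw [abs_le]; constructor <;> linarith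
  · rcases le_total E.im Y with r2 | r2
    · refine c3 E W ⟨?_, ?_⟩ hW
      · push_cast; rw [abs_le]; constructor <;> linarith
      · rw [cY, abs_le]; constructor <;> linarith
    · refine c4 E W ⟨?_, ?_⟩ hW
      · push_cast; rw [abs_le]; constructor <;> linarith
      · push_cast; rw [abs_le]; constructor <;> linarith

lemma Cov.w {X Y H A B h : ℕ} (hA : h ≤ A) (hB : h ≤ B)
    (c1 : Cov X Y H (A - h) (B - h) h) (c2 : Cov X Y H (A - h) (B + h) h)
    (c3 : Cov X Y H (A + h) (B - h) h) (c4 : Cov X Y H (A + h) (B + h) h) :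
    Cov X Y H A B (2 * h) := by
  intro E W hE hW
  have cA : ((A - h : ℕ) : ℝ) = A - h := Nat.cast_sub hA
  have cB : ((B - h : ℕ) : ℝ) = B - h := Nat.cast_sub hB
  obtain ⟨y1, y2⟩ := hW
  push_cast at y1 y2
  rw [abs_le] at y1 y2
  rcases le_total W.re ((A:ℝ) - 536870912) with r1 | r1
  · rcases le_total W.im ((B:ℝ) - 536870912) with r2 | r2
    · refine c1 E W hE ⟨?_, ?_⟩
      · rw [cA, abs_le]; constructor <;> linarith
      · rw [cB, abs_le]; constructor <;> linarith
    · refine c2 E W hE ⟨?_, ?_⟩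
      · rw [cA, abs_le]; constructor <;> linarith
      · push_cast; rw [abs_le]; constructor <;> linarith
  · rcases le_total W.im ((B:ℝ) - 536870912) with r2 | r2
    · refine c3 E W hE ⟨?_, ?_⟩
      · push_cast; rw [abs_le]; constructor <;> linarith
      · rw [cB, abs_le]; constructor <;> linarith
    · refine c4 E W hE ⟨?_, ?_⟩
      · push_cast; rw [abs_le]; constructor <;> linarith
      · push_cast; rw [abs_le]; constructor <;> linarith

lemma leaf_sound {m X Y H A B h n : ℕ} (hX : X ≤ 4194304) (hY : Y ≤ 4194304) (hH : H ≤ 4194304)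
    (hl : leaf m X Y H A B h n ≠ 0) : n ≠ 0 ∧ Cov X Y H A B h := by
  unfold leaf at hl
  cases hc : chk m X Y H A B h with
  | false => rw [hc] at hl; exact absurd rfl hl
  | true =>
    rw [hc] at hl
    exact ⟨hl, fun E W hE hW => chk_sound hX hY hH hc hE hW⟩

lemma go_zero (X Y H A B h n : ℕ) :
    go 0 X Y H A B h n = leaf (n % 16) X Y H A B h (n / 16) := rfl

lemma go_succ (d X Y H A B h n : ℕ) :
    go (d + 1) X Y H A B h n = nd (go d) (n % 16) X Y H A B h (n / 16) := rfl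

lemma go_sound (d : ℕ) : ∀ {X Y H A B h n : ℕ}, Ok d X Y H A B h → go d X Y H A B h n ≠ 0 →
    n ≠ 0 ∧ Cov X Y H A B h := by
  induction d with
  | zero =>
    intro X Y H A B h n ok hg
    rw [go_zero] at hg
    obtain ⟨h1, h2⟩ := leaf_sound (by have := ok.X1; omega) (by have := ok.Y1; omega)
      (by have := ok.X1; omega) hg
    exact ⟨fun h0 => h1 (by rw [h0]), h2⟩
  | succ d ih =>
    intro X Y H A B h n ok hg
    obtain ⟨eH, dH⟩ := half_of_dvd ok.dH
    obtain ⟨eh, dh⟩ := half_of_dvd ok.dh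
    obtain ⟨pH, ph, X0, Y0, A0, B0, X1, Y1⟩ := ok
    rw [go_succ] at hg
    unfold nd at hg
    suffices hh : n / 16 ≠ 0 ∧ Cov X Y H A B h from ⟨fun h0 => hh.1 (by rw [h0]), hh.2⟩
    generalize n / 16 = n0 at hg ⊢
    cases h14 : Nat.ble 14 (n % 16) with
    | false =>
      rw [h14] at hg
      exact leaf_sound (by omega) (by omega) (by omega) hg
    | true =>
      rw [h14] at hg
      cases h15 : Nat.ble 15 (n % 16) with
      | false =>
        rw [h15] at hg
        have hg' : spe (go d) X Y ((H + 1) / 2) A B h n0 ≠ 0 := hg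
        clear hg
        unfold spe at hg'
        simp only [Nat.add_eq, Nat.sub_eq] at hg'
        set K := (H + 1) / 2 with hK
        clear_value K
        have dh' : 2 ^ d ∣ h := (pow_dvd_pow 2 (Nat.le_succ d)).trans ph
        obtain ⟨m4, c4⟩ := ih (X := X + K) (Y := Y + K) (H := K) (A := A) (B := B) (h := h)
          ⟨dH, dh', by omega, by omega, A0, B0, by omega, by omega⟩ hg'
        obtain ⟨m3, c3⟩ := ih (X := X + K) (Y := Y - K) (H := K) (A := A) (B := B) (h := h)
          ⟨dH, dh', by omega, by omega, A0, B0, by omega, by omega⟩ m4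
        obtain ⟨m2, c2⟩ := ih (X := X - K) (Y := Y + K) (H := K) (A := A) (B := B) (h := h)
          ⟨dH, dh', by omega, by omega, A0, B0, by omega, by omega⟩ m3
        obtain ⟨m1, c1⟩ := ih (X := X - K) (Y := Y - K) (H := K) (A := A) (B := B) (h := h)
          ⟨dH, dh', by omega, by omega, A0, B0, by omega, by omega⟩ m2
        refine ⟨m1, ?_⟩
        rw [eH]
        exact Cov.e (by omega) (by omega) c1 c2 c3 c4
      | true =>
        rw [h15] at hg
        have hg' : spw (go d) X Y H A B ((h + 1) / 2) n0 ≠ 0 := hg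
        clear hg
        unfold spw at hg'
        simp only [Nat.add_eq, Nat.sub_eq] at hg'
        set K := (h + 1) / 2 with hK
        clear_value K
        have dH' : 2 ^ d ∣ H := (pow_dvd_pow 2 (Nat.le_succ d)).trans pH
        obtain ⟨m4, c4⟩ := ih (X := X) (Y := Y) (H := H) (A := A + K) (B := B + K) (h := K)
          ⟨dH', dh, X0, Y0, by omega, by omega, X1, Y1⟩ hg'
        obtain ⟨m3, c3⟩ := ih (X := X) (Y := Y) (H := H) (A := A + K) (B := B - K) (h := K)
          ⟨dH', dh, X0, Y0, by omega, by omega, X1, Y1⟩ m4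
        obtain ⟨m2, c2⟩ := ih (X := X) (Y := Y) (H := H) (A := A - K) (B := B + K) (h := K)
          ⟨dH', dh, X0, Y0, by omega, by omega, X1, Y1⟩ m3
        obtain ⟨m1, c1⟩ := ih (X := X) (Y := Y) (H := H) (A := A - K) (B := B - K) (h := K)
          ⟨dH', dh, X0, Y0, by omega, by omega, X1, Y1⟩ m2
        refine ⟨m1, ?_⟩
        rw [eh]
        exact Cov.w (by omega) (by omega) c1 c2 c3 c4

/-- decidable form of the side conditions -/
def okb (d X Y H A B h : ℕ) : Bool :=
  Nat.beq (H % 2 ^ d) 0 && Nat.beq (h % 2 ^ d) 0 && Nat.ble H X && Nat.ble H Y && Nat.ble h A &&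
    Nat.ble h B && Nat.ble (X + H) 4194304 && Nat.ble (Y + H) 4194304

lemma okb_sound {d X Y H A B h : ℕ} (hb : okb d X Y H A B h = true) : Ok d X Y H A B h := by
  unfold okb at hb
  simp only [Bool.and_eq_true, Nat.ble_eq] at hb
  obtain ⟨⟨⟨⟨⟨⟨⟨h1, h2⟩, h3⟩, h4⟩, h5⟩, h6⟩, h7⟩, h8⟩ := hb
  exact ⟨Nat.dvd_of_mod_eq_zero (Nat.eq_of_beq_eq_true h1),
    Nat.dvd_of_mod_eq_zero (Nat.eq_of_beq_eq_true h2), h3, h4, h5, h6, h7, h8⟩

lemma Cov.tree (d : ℕ) {X Y H A B h n : ℕ} (hb : okb d X Y H A B h = true)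
    (hg : Nat.ble 1 (go d X Y H A B h n) = true) : Cov X Y H A B h :=
  (go_sound d (okb_sound hb) (Nat.one_le_iff_ne_zero.1 (Nat.le_of_ble_eq_true hg))).2

end Pool.Agent.W_4481e3_q12.Ev
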