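import Pool.Agent.W_MP_4481e3_low.Ev

/-!
Contraction certificate for `L = 2` over the base cycle `1/15, 2/15, 4/15, 8/15`: evaluator.

Scale `2 ^ 24`.  A point `w` is stored as a ball `(A, B, r)` (centre `(A - 2^29) + (B - 2^29) i`,
radius `r`), the parameter `e` as a ball `(X, Y, t)` (centre `X + Y i`).
-/

namespace Pool.Agent.W_4481e3_q12.Ev

open Pool.Agent.W_MP_4481e3_an.Ev (gd nrm1)

/-- `|x - y|` -/
def ds (x y : ℕ) : ℕ := Nat.add (Nat.sub x y) (Nat.sub y x)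

/-- upper bound of the square root of `N = a ^ 2 + b ^ 2`, two Newton steps -/
def nrm (a b N : ℕ) : ℕ :=
  nrm1 N (nrm1 N (Nat.add (Nat.div (Nat.mul (Nat.add a b) 27) 32) 1))

/-- one step `w ↦ w + c (e - w ^ 2)`: output -/
noncomputable def st5 (f : ℕ → ℕ) (C D t A B r U V G : ℕ) (k : ℕ → ℕ → ℕ → ℕ → Bool) : Bool :=
  k (Nat.div (Nat.sub (Nat.add (Nat.mul 16777216 A) (Nat.mul C (f U))) D) 16777216)
    (Nat.div (Nat.sub (Nat.add (Nat.mul 16777216 B) (Nat.mul C (f V))) D) 16777216)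
    (Nat.add (Nat.div (Nat.add (Nat.mul (Nat.add G 25) r)
      (Nat.mul C (Nat.add (Nat.div (Nat.mul r r) 16777216) t))) 16777216) 40) G

noncomputable def st4 (f : ℕ → ℕ) (C D t A B r U V m n : ℕ) (k : ℕ → ℕ → ℕ → ℕ → Bool) : Bool :=
  st5 f C D t A B r U V (nrm m n (Nat.add (Nat.mul m m) (Nat.mul n n))) k

noncomputable def st3 (f : ℕ → ℕ) (C D X Y t A B r b aa bb N s2 : ℕ)
    (k : ℕ → ℕ → ℕ → ℕ → Bool) : Bool :=
  gd (Nat.ble (Nat.add N (Nat.mul 33554432 r)) 7318349394477056)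
    (st4 f C D t A B r
      (Nat.add (Nat.div (Nat.sub (Nat.add bb 9007199254740992) aa) 16777216) X)
      (Nat.add (Nat.div (Nat.sub (Nat.add N 9007199254740992) s2) 16777216) Y)
      (Nat.add (Nat.div (ds (Nat.mul (Nat.mul 2 C) (f A)) (Nat.add 281474976710656 (Nat.mul 2 D)))
        16777216) 1)
      (Nat.add (Nat.div (Nat.mul (Nat.mul 2 C) b) 16777216) 1) k)

noncomputable def st2 (f : ℕ → ℕ) (C D X Y t A B r b aa bb s : ℕ)
    (k : ℕ → ℕ → ℕ → ℕ → Bool) : Bool :=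
  st3 f C D X Y t A B r b aa bb (Nat.add aa bb) (Nat.mul s s) k

noncomputable def st1 (f : ℕ → ℕ) (C D X Y t A B r a b s : ℕ)
    (k : ℕ → ℕ → ℕ → ℕ → Bool) : Bool :=
  st2 f C D X Y t A B r b (Nat.mul a a) (Nat.mul b b) s k

/-- one step; the continuation gets the new ball and the bound `G` for the old derivative;
`C = |c| 2^24`, `D = C 2^29`, `f` is the identity for `c > 0`, the flip for `c < 0` -/
noncomputable def st (f : ℕ → ℕ) (C D X Y t A B r : ℕ) (k : ℕ → ℕ → ℕ → ℕ → Bool) : Bool :=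
  st1 f C D X Y t A B r (ds A 536870912) (ds B 536870912) (ds (Nat.add A B) 1073741824) k

def fid (x : ℕ) : ℕ := x
def neg (x : ℕ) : ℕ := Nat.sub 1073741824 x

/-- the four phases -/
noncomputable def s0 (X Y t : ℕ) (k : ℕ → ℕ → ℕ → ℕ → Bool) (A B r : ℕ) : Bool :=
  st fid 15326749 8228485713625088 X Y t A B r k
noncomputable def s1 (X Y t : ℕ) (k : ℕ → ℕ → ℕ → ℕ → Bool) (A B r : ℕ) : Bool :=
  st fid 11226149 6026992851877888 X Y t A B r k
noncomputable def s2 (X Y t : ℕ) (k : ℕ → ℕ → ℕ → ℕ → Bool) (A B r : ℕ) : Bool :=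
  st neg 1753697 941508907761664 X Y t A B r k
noncomputable def s3 (X Y t : ℕ) (k : ℕ → ℕ → ℕ → ℕ → Bool) (A B r : ℕ) : Bool :=
  st neg 16410594 8810370567241728 X Y t A B r k

/-- forget the derivative -/
noncomputable def fg (k : ℕ → ℕ → ℕ → Bool) (A B r _G : ℕ) : Bool := k A B r

/-- escape -/
noncomputable def esc1 (a b R : ℕ) : Bool :=
  Nat.ble (Nat.succ (Nat.mul R R)) (Nat.add (Nat.mul a a) (Nat.mul b b))

noncomputable def esc (R A B r : ℕ) : Bool :=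
  esc1 (ds A 536870912) (ds B 536870912) (Nat.add R r)

noncomputable def per (X Y t : ℕ) (k : ℕ → ℕ → ℕ → Bool) : ℕ → ℕ → ℕ → Bool :=
  s0 X Y t (fg (s1 X Y t (fg (s2 X Y t (fg (s3 X Y t (fg k)))))))

noncomputable def tail (X Y t b : ℕ) : ℕ → ℕ → ℕ → Bool :=
  Nat.rec (esc 43956305) (fun b _ => Nat.rec (s0 X Y t (fg (esc 57378078)))
    (fun b _ => Nat.rec (s0 X Y t (fg (s1 X Y t (fg (esc 70967623)))))
      (fun _ _ => s0 X Y t (fg (s1 X Y t (fg (s2 X Y t (fg (esc 38587597))))))) b) b) b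

/-- escape after `j` steps -/
noncomputable def escj (X Y t j : ℕ) : ℕ → ℕ → ℕ → Bool :=
  Nat.rec (tail X Y t (Nat.mod j 4)) (fun _ ih => per X Y t ih) (Nat.div j 4)

/-- update of the product -/
def up2 (P q : ℕ) : ℕ :=
  Nat.add (Nat.div (Nat.mul (Nat.add (Nat.div (Nat.mul P q) 33554432) 1) q) 33554432) 1

def up (C P G r : ℕ) : ℕ :=
  up2 P (Nat.add (Nat.add G (Nat.div (Nat.mul (Nat.mul 2 C) r) 16777216)) 40)

noncomputable def con4 (P r : ℕ) (_A _B _r G : ℕ) : Bool := Nat.ble (up 1753697 P G r) 16609863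

noncomputable def con3 (X Y t P r : ℕ) (A1 B1 r1 G : ℕ) : Bool :=
  s2 X Y t (con4 (up 11226149 P G r) r1) A1 B1 r1

noncomputable def con2 (X Y t P r : ℕ) (A1 B1 r1 G : ℕ) : Bool :=
  s1 X Y t (con3 X Y t (up 15326749 P G r) r1) A1 B1 r1

noncomputable def con1 (X Y t A B r m n : ℕ) : Bool :=
  s0 X Y t (con2 X Y t (Nat.add (Nat.add (nrm m n (Nat.add (Nat.mul m m) (Nat.mul n n)))
    (Nat.div (Nat.add (Nat.mul 16410594 r) (Nat.mul 16051983 t)) 16777216)) 40) r) A B r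

/-- contraction over one period -/
noncomputable def con (X Y t A B r : ℕ) : Bool :=
  con1 X Y t A B r
    (Nat.add (Nat.div (ds (Nat.add (Nat.add 70368744177664 (Nat.mul 16410594 A)) (Nat.mul 16051983 X))
      8810370567241728) 16777216) 1)
    (Nat.add (Nat.div (ds (Nat.add (Nat.mul 16410594 B) (Nat.mul 16051983 Y))
      8810370567241728) 16777216) 1)

/-- outside of the parameter region -/
noncomputable def out2 (x q : ℕ) : Bool :=
  Bool.rec (Nat.ble (Nat.succ (Nat.mul 536870912 x)) (Nat.mul 47 q)) true (Nat.ble 17592186044416 q)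

noncomputable def out1 (x u v : ℕ) : Bool := out2 x (Nat.add (Nat.mul u u) (Nat.mul v v))

noncomputable def out (X Y H : ℕ) : Bool := out1 (Nat.add X H) (Nat.sub X H) (Nat.sub Y H)

/-- check of a leaf -/
noncomputable def chk3 (m X Y H t A B r : ℕ) : Bool :=
  Bool.rec (escj X Y t m A B r) (Bool.rec (out X Y H) (con X Y t A B r) (Nat.ble 13 m)) (Nat.ble 12 m)

noncomputable def chk (m X Y H A B h : ℕ) : Bool :=
  chk3 m X Y H (Nat.add (Nat.div (Nat.mul H 1449) 1024) 1) A B (Nat.add (Nat.div (Nat.mul h 1449) 1024) 1)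

noncomputable def leaf (m X Y H A B h n : ℕ) : ℕ := Bool.rec 0 n (chk m X Y H A B h)

noncomputable def spe (go : ℕ → ℕ → ℕ → ℕ → ℕ → ℕ → ℕ → ℕ) (X Y H A B h n : ℕ) : ℕ :=
  go (Nat.add X H) (Nat.add Y H) H A B h (go (Nat.add X H) (Nat.sub Y H) H A B h
    (go (Nat.sub X H) (Nat.add Y H) H A B h (go (Nat.sub X H) (Nat.sub Y H) H A B h n)))

noncomputable def spw (go : ℕ → ℕ → ℕ → ℕ → ℕ → ℕ → ℕ → ℕ) (X Y H A B h n : ℕ) : ℕ :=
  go X Y H (Nat.add A h) (Nat.add B h) h (go X Y H (Nat.add A h) (Nat.sub B h) h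
    (go X Y H (Nat.sub A h) (Nat.add B h) h (go X Y H (Nat.sub A h) (Nat.sub B h) h n)))

noncomputable def nd (go : ℕ → ℕ → ℕ → ℕ → ℕ → ℕ → ℕ → ℕ) (m X Y H A B h n : ℕ) : ℕ :=
  Bool.rec (leaf m X Y H A B h n)
    (Bool.rec (spe go X Y (Nat.div (Nat.add H 1) 2) A B h n)
      (spw go X Y H A B (Nat.div (Nat.add h 1) 2) n) (Nat.ble 15 m)) (Nat.ble 14 m)

/-- the tree -/
noncomputable def go (d : ℕ) : ℕ → ℕ → ℕ → ℕ → ℕ → ℕ → ℕ → ℕ :=
  Nat.rec (fun X Y H A B h n => leaf (Nat.mod n 16) X Y H A B h (Nat.div n 16))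
    (fun _ ih X Y H A B h n => nd ih (Nat.mod n 16) X Y H A B h (Nat.div n 16)) d

end Pool.Agent.W_4481e3_q12.Ev
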