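import Pool.Agent.W_4481e3_q59.PerEv

/-!
Upper bound of the slopes: evaluator.  Base variable: the point over `1/15`; the slope bound is
carried from `8/15` over one period.
-/

namespace Pool.Agent.W_4481e3_q12.Hi

open Pool.Agent.W_MP_4481e3_an.Ev (gd nrm1)
open Pool.Agent.W_4481e3_q12.Ev (ds nrm fid neg s0 s1 s2 s3 escj out)
open Pool.Agent.W_4481e3_q59.PEv (wn en fu fw spe spw)

/-- bound for `e - w0 ^ 2` over `8/15`; `g` bounds `1 - 2 c w0`, `W` bounds the next point -/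
def e00 (g W : ℕ) : ℕ :=
  Nat.add (Nat.div (Nat.mul (Nat.add (Nat.add W (Nat.div (Nat.mul (Nat.add 16777216 g) 8576299)
    16777216)) 1) 17152598) 16777216) 1

noncomputable def hi6 (T0 a3 e2 r2 : ℕ) (_A _B _r G : ℕ) : Bool :=
  Nat.ble (fw (fu 1753697 r2 G) 104837500 e2 a3) T0

noncomputable def hi5 (T0 X Y t a2 e1 r1 : ℕ) (A2 B2 r2 G : ℕ) : Bool :=
  s2 X Y t (hi6 T0 (fw (fu 11226149 r1 G) 78338600 e1 a2) (en X Y t A2 B2 r2) r2) A2 B2 r2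

noncomputable def hi4 (T0 T1 X Y t a1 e0 r : ℕ) (A1 B1 r1 G : ℕ) : Bool :=
  gd (Nat.ble (fw (fu 15326749 r G) 42876300 e0 a1) T1)
    (s1 X Y t (hi5 T0 X Y t (fw (fu 15326749 r G) 42876300 e0 a1) (en X Y t A1 B1 r1) r1) A1 B1 r1)

noncomputable def hi3 (T0 T1 X Y t A B r g W : ℕ) : Bool :=
  s0 X Y t (hi4 T0 T1 X Y t (fw g 21917200 (e00 g W) T0) (en X Y t A B r) r) A B r

noncomputable def hi2 (T0 T1 X Y t A B r N : ℕ) : Bool :=
  hi3 T0 T1 X Y t A B r (nrm1 N (nrm1 N 50331648)) (wn A B r)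

noncomputable def hi1 (T0 T1 X Y t A B r m n : ℕ) : Bool :=
  hi2 T0 T1 X Y t A B r (Nat.mul 67108864 (Nat.add (Nat.add (nrm m n (Nat.add (Nat.mul m m)
    (Nat.mul n n))) (Nat.div (Nat.add (Nat.mul 16410594 r) (Nat.mul 16051983 t)) 16777216)) 40))

/-- slopes after two and after four steps from `8/15` -/
noncomputable def hi (T0 T1 X Y t A B r : ℕ) : Bool :=
  hi1 T0 T1 X Y t A B r
    (Nat.add (Nat.div (ds (Nat.add (Nat.add 70368744177664 (Nat.mul 16410594 A)) (Nat.mul 16051983 X))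
      8810370567241728) 16777216) 1)
    (Nat.add (Nat.div (ds (Nat.add (Nat.mul 16410594 B) (Nat.mul 16051983 Y))
      8810370567241728) 16777216) 1)

/-- leaf; `cl` is the special closer -/
noncomputable def chk3 (cl : ℕ → ℕ → ℕ → ℕ → ℕ → ℕ → Bool) (m X Y H t A B r : ℕ) : Bool :=
  Bool.rec (escj X Y t m A B r) (Bool.rec (out X Y H) (cl X Y t A B r) (Nat.ble 13 m)) (Nat.ble 12 m)

noncomputable def chk (cl : ℕ → ℕ → ℕ → ℕ → ℕ → ℕ → Bool) (m X Y H A B h : ℕ) : Bool :=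
  chk3 cl m X Y H (Nat.add (Nat.div (Nat.mul H 1449) 1024) 1) A B (Nat.add (Nat.div (Nat.mul h 1449) 1024) 1)

noncomputable def leaf (cl : ℕ → ℕ → ℕ → ℕ → ℕ → ℕ → Bool) (m X Y H A B h n : ℕ) : ℕ :=
  Bool.rec 0 n (chk cl m X Y H A B h)

noncomputable def nd (cl : ℕ → ℕ → ℕ → ℕ → ℕ → ℕ → Bool)
    (go : ℕ → ℕ → ℕ → ℕ → ℕ → ℕ → ℕ → ℕ) (m X Y H A B h n : ℕ) : ℕ :=
  Bool.rec (leaf cl m X Y H A B h n)
    (Bool.rec (spe go X Y (Nat.div (Nat.add H 1) 2) A B h n)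
      (spw go X Y H A B (Nat.div (Nat.add h 1) 2) n) (Nat.ble 15 m)) (Nat.ble 14 m)

/-- the tree -/
noncomputable def go (cl : ℕ → ℕ → ℕ → ℕ → ℕ → ℕ → Bool) (d : ℕ) : ℕ → ℕ → ℕ → ℕ → ℕ → ℕ → ℕ → ℕ :=
  Nat.rec (fun X Y H A B h n => leaf cl (Nat.mod n 16) X Y H A B h (Nat.div n 16))
    (fun _ ih X Y H A B h n => nd cl ih (Nat.mod n 16) X Y H A B h (Nat.div n 16)) d

end Pool.Agent.W_4481e3_q12.Hi
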