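import Pool.Agent.W_4481e3_q12.HiDataA
import Pool.Agent.W_4481e3_q12.HiDataB
import Pool.Agent.W_4481e3_q12.HiDataC
import Pool.Agent.W_4481e3_q12.HiDataD
import Pool.Agent.W_4481e3_q12.HiDataE
import Pool.Agent.W_4481e3_q12.HiDataF
import Pool.Agent.W_4481e3_q12.HiDataG
import Pool.Agent.W_4481e3_q12.HiDataH

/-!
The whole tree.
-/

namespace Pool.Agent.W_4481e3_q12.Hi

theorem c10 : CC 2097152 2097152 2097152 540999680 510722048 1376256 :=
  Cov.w (h := 688128) (by norm_num) (by norm_num) p6 p7 p8 p9

theorem c12 : CC 2097152 2097152 2097152 539623424 512098304 2752512 :=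
  Cov.w (h := 1376256) (by norm_num) (by norm_num) p4 p5 c10 p11

theorem c17 : CC 2097152 2097152 2097152 545128448 506593280 2752512 :=
  Cov.w (h := 1376256) (by norm_num) (by norm_num) p13 p14 p15 p16

theorem c22 : CC 2097152 2097152 2097152 543752192 510722048 1376256 :=
  Cov.w (h := 688128) (by norm_num) (by norm_num) p18 p19 p20 p21

theorem c26 : CC 2097152 2097152 2097152 545128448 512098304 2752512 :=
  Cov.w (h := 1376256) (by norm_num) (by norm_num) c22 p23 p24 p25

theorem c27 : CC 2097152 2097152 2097152 542375936 509345792 5505024 :=
  Cov.w (h := 2752512) (by norm_num) (by norm_num) p3 c12 c17 c26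

theorem c35 : CC 1048576 1048576 1048576 548569088 508657664 688128 :=
  Cov.w (h := 344064) (by norm_num) (by norm_num) p31 p32 p33 p34

theorem c39 : CC 2097152 2097152 2097152 548569088 508657664 688128 :=
  Cov.e (H := 1048576) (by norm_num) (by norm_num) c35 p36 p37 p38

theorem c42 : CC 2097152 2097152 2097152 549257216 507969536 1376256 :=
  Cov.w (h := 688128) (by norm_num) (by norm_num) p30 c39 p40 p41

theorem c45 : CC 2097152 2097152 2097152 550633472 506593280 2752512 :=
  Cov.w (h := 1376256) (by norm_num) (by norm_num) p29 c42 p43 p44

theorem c52 : CC 1048576 1048576 1048576 548913152 509689856 344064 :=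
  Cov.e (H := 524288) (by norm_num) (by norm_num) p48 p49 p50 p51

theorem c57 : CC 1048576 1048576 1048576 548913152 510377984 344064 :=
  Cov.e (H := 524288) (by norm_num) (by norm_num) p53 p54 p55 p56

theorem c58 : CC 1048576 1048576 1048576 548569088 510033920 688128 :=
  Cov.w (h := 344064) (by norm_num) (by norm_num) p46 p47 c52 c57

theorem c63 : CC 1048576 3145728 1048576 548569088 510033920 688128 :=
  Cov.w (h := 344064) (by norm_num) (by norm_num) p59 p60 p61 p62

theorem c71 : CC 3145728 1048576 1048576 548913152 510377984 344064 :=
  Cov.e (H := 524288) (by norm_num) (by norm_num) p67 p68 p69 p70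

theorem c72 : CC 3145728 1048576 1048576 548569088 510033920 688128 :=
  Cov.w (h := 344064) (by norm_num) (by norm_num) p64 p65 p66 c71

theorem c77 : CC 3145728 3145728 1048576 548569088 510033920 688128 :=
  Cov.w (h := 344064) (by norm_num) (by norm_num) p73 p74 p75 p76

theorem c78 : CC 2097152 2097152 2097152 548569088 510033920 688128 :=
  Cov.e (H := 1048576) (by norm_num) (by norm_num) c58 c63 c72 c77

theorem c83 : CC 2097152 2097152 2097152 548569088 511410176 688128 :=
  Cov.e (H := 1048576) (by norm_num) (by norm_num) p79 p80 p81 p82

theorem c89 : CC 2097152 2097152 2097152 549945344 511410176 688128 :=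
  Cov.e (H := 1048576) (by norm_num) (by norm_num) p85 p86 p87 p88

theorem c90 : CC 2097152 2097152 2097152 549257216 510722048 1376256 :=
  Cov.w (h := 688128) (by norm_num) (by norm_num) c78 c83 p84 c89

theorem c94 : CC 2097152 2097152 2097152 550633472 512098304 2752512 :=
  Cov.w (h := 1376256) (by norm_num) (by norm_num) c90 p91 p92 p93

theorem c97 : CC 2097152 2097152 2097152 553385984 509345792 5505024 :=
  Cov.w (h := 2752512) (by norm_num) (by norm_num) c45 c94 p95 p96

theorem c98 : CC 2097152 2097152 2097152 547880960 503840768 11010048 :=
  Cov.w (h := 5505024) (by norm_num) (by norm_num) p2 c27 p28 c97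

theorem c109 : CC 2097152 2097152 2097152 567148544 534118400 2752512 :=
  Cov.w (h := 1376256) (by norm_num) (by norm_num) p105 p106 p107 p108

theorem c110 : CC 2097152 2097152 2097152 564396032 531365888 5505024 :=
  Cov.w (h := 2752512) (by norm_num) (by norm_num) p102 p103 p104 c109

theorem c113 : CC 2097152 2097152 2097152 569901056 525860864 11010048 :=
  Cov.w (h := 5505024) (by norm_num) (by norm_num) p101 c110 p111 p112

theorem c114 : CC 2097152 2097152 2097152 558891008 514850816 22020096 :=
  Cov.w (h := 11010048) (by norm_num) (by norm_num) c98 p99 p100 c113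

theorem c120 : CC 2097152 2097152 2097152 539623424 561643520 2752512 :=
  Cov.w (h := 1376256) (by norm_num) (by norm_num) p116 p117 p118 p119

theorem c127 : CC 2097152 2097152 2097152 543064064 562331648 688128 :=
  Cov.e (H := 1048576) (by norm_num) (by norm_num) p123 p124 p125 p126

theorem c135 : CC 1048576 1048576 1048576 543408128 564051968 344064 :=
  Cov.e (H := 524288) (by norm_num) (by norm_num) p131 p132 p133 p134

theorem c136 : CC 1048576 1048576 1048576 543064064 563707904 688128 :=
  Cov.w (h := 344064) (by norm_num) (by norm_num) p128 p129 p130 c135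

theorem c145 : CC 1572864 2621440 524288 543408128 563363840 344064 :=
  Cov.w (h := 172032) (by norm_num) (by norm_num) p141 p142 p143 p144

theorem c150 : CC 1572864 3670016 524288 543408128 563363840 344064 :=
  Cov.w (h := 172032) (by norm_num) (by norm_num) p146 p147 p148 p149

theorem c151 : CC 1048576 3145728 1048576 543408128 563363840 344064 :=
  Cov.e (H := 524288) (by norm_num) (by norm_num) p139 p140 c145 c150

theorem c156 : CC 524288 2621440 524288 543408128 564051968 344064 :=
  Cov.w (h := 172032) (by norm_num) (by norm_num) p152 p153 p154 p155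

theorem c164 : CC 1572864 2621440 524288 543580160 563879936 172032 :=
  Cov.e (H := 262144) (by norm_num) (by norm_num) p160 p161 p162 p163

theorem c166 : CC 1572864 2621440 524288 543408128 564051968 344064 :=
  Cov.w (h := 172032) (by norm_num) (by norm_num) p158 p159 c164 p165

theorem c168 : CC 1048576 3145728 1048576 543408128 564051968 344064 :=
  Cov.e (H := 524288) (by norm_num) (by norm_num) c156 p157 c166 p167

theorem c169 : CC 1048576 3145728 1048576 543064064 563707904 688128 :=
  Cov.w (h := 344064) (by norm_num) (by norm_num) p137 p138 c151 c168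

theorem c174 : CC 3145728 1048576 1048576 543064064 563707904 688128 :=
  Cov.w (h := 344064) (by norm_num) (by norm_num) p170 p171 p172 p173

theorem c181 : CC 2621440 2621440 524288 543408128 563363840 344064 :=
  Cov.w (h := 172032) (by norm_num) (by norm_num) p177 p178 p179 p180

theorem c185 : CC 3145728 3145728 1048576 543408128 563363840 344064 :=
  Cov.e (H := 524288) (by norm_num) (by norm_num) c181 p182 p183 p184

theorem c187 : CC 3145728 3145728 1048576 543064064 563707904 688128 :=
  Cov.w (h := 344064) (by norm_num) (by norm_num) p175 p176 c185 p186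

theorem c188 : CC 2097152 2097152 2097152 543064064 563707904 688128 :=
  Cov.e (H := 1048576) (by norm_num) (by norm_num) c136 c169 c174 c187

theorem c198 : CC 1572864 3670016 524288 544096256 563363840 344064 :=
  Cov.w (h := 172032) (by norm_num) (by norm_num) p194 p195 p196 p197

theorem c199 : CC 1048576 3145728 1048576 544096256 563363840 344064 :=
  Cov.e (H := 524288) (by norm_num) (by norm_num) p191 p192 p193 c198

theorem c207 : CC 1572864 2621440 524288 543924224 564224000 172032 :=
  Cov.e (H := 262144) (by norm_num) (by norm_num) p203 p204 p205 p206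

theorem c210 : CC 1572864 2621440 524288 544096256 564051968 344064 :=
  Cov.w (h := 172032) (by norm_num) (by norm_num) p202 c207 p208 p209

theorem c215 : CC 1310720 3407872 262144 543924224 563879936 172032 :=
  Cov.w (h := 86016) (by norm_num) (by norm_num) p211 p212 p213 p214

theorem c220 : CC 1310720 3932160 262144 543924224 563879936 172032 :=
  Cov.w (h := 86016) (by norm_num) (by norm_num) p216 p217 p218 p219

theorem c225 : CC 1835008 3407872 262144 543924224 563879936 172032 :=
  Cov.w (h := 86016) (by norm_num) (by norm_num) p221 p222 p223 p224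

theorem c230 : CC 1835008 3932160 262144 543924224 563879936 172032 :=
  Cov.w (h := 86016) (by norm_num) (by norm_num) p226 p227 p228 p229

theorem c231 : CC 1572864 3670016 524288 543924224 563879936 172032 :=
  Cov.e (H := 262144) (by norm_num) (by norm_num) c215 c220 c225 c230

theorem c236 : CC 1310720 3407872 262144 543924224 564224000 172032 :=
  Cov.w (h := 86016) (by norm_num) (by norm_num) p232 p233 p234 p235

theorem c240 : CC 1572864 3670016 524288 543924224 564224000 172032 :=
  Cov.e (H := 262144) (by norm_num) (by norm_num) c236 p237 p238 p239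

theorem c243 : CC 1572864 3670016 524288 544096256 564051968 344064 :=
  Cov.w (h := 172032) (by norm_num) (by norm_num) c231 c240 p241 p242

theorem c244 : CC 1048576 3145728 1048576 544096256 564051968 344064 :=
  Cov.e (H := 524288) (by norm_num) (by norm_num) p200 p201 c210 c243

theorem c247 : CC 1048576 3145728 1048576 544440320 563707904 688128 :=
  Cov.w (h := 344064) (by norm_num) (by norm_num) c199 c244 p245 p246

theorem c253 : CC 3145728 3145728 1048576 544096256 563363840 344064 :=
  Cov.e (H := 524288) (by norm_num) (by norm_num) p249 p250 p251 p252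

theorem c258 : CC 2621440 2621440 524288 544096256 564051968 344064 :=
  Cov.w (h := 172032) (by norm_num) (by norm_num) p254 p255 p256 p257

theorem c263 : CC 2359296 3407872 262144 543924224 563879936 172032 :=
  Cov.w (h := 86016) (by norm_num) (by norm_num) p259 p260 p261 p262

theorem c267 : CC 2621440 3670016 524288 543924224 563879936 172032 :=
  Cov.e (H := 262144) (by norm_num) (by norm_num) c263 p264 p265 p266

theorem c271 : CC 2621440 3670016 524288 544096256 564051968 344064 :=
  Cov.w (h := 172032) (by norm_num) (by norm_num) c267 p268 p269 p270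

theorem c274 : CC 3145728 3145728 1048576 544096256 564051968 344064 :=
  Cov.e (H := 524288) (by norm_num) (by norm_num) c258 c271 p272 p273

theorem c277 : CC 3145728 3145728 1048576 544440320 563707904 688128 :=
  Cov.w (h := 344064) (by norm_num) (by norm_num) c253 c274 p275 p276

theorem c278 : CC 2097152 2097152 2097152 544440320 563707904 688128 :=
  Cov.e (H := 1048576) (by norm_num) (by norm_num) p190 c247 p248 c277

theorem c279 : CC 2097152 2097152 2097152 543752192 563019776 1376256 :=
  Cov.w (h := 688128) (by norm_num) (by norm_num) c127 c188 p189 c278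

theorem c282 : CC 2097152 2097152 2097152 545128448 561643520 2752512 :=
  Cov.w (h := 1376256) (by norm_num) (by norm_num) p122 c279 p280 p281

theorem c287 : CC 2097152 2097152 2097152 543064064 565084160 688128 :=
  Cov.e (H := 1048576) (by norm_num) (by norm_num) p283 p284 p285 p286

theorem c294 : CC 1048576 3145728 1048576 544096256 564740096 344064 :=
  Cov.e (H := 524288) (by norm_num) (by norm_num) p290 p291 p292 p293

theorem c298 : CC 1048576 3145728 1048576 544440320 565084160 688128 :=
  Cov.w (h := 344064) (by norm_num) (by norm_num) c294 p295 p296 p297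

theorem c301 : CC 2097152 2097152 2097152 544440320 565084160 688128 :=
  Cov.e (H := 1048576) (by norm_num) (by norm_num) p289 c298 p299 p300

theorem c303 : CC 2097152 2097152 2097152 543752192 565772288 1376256 :=
  Cov.w (h := 688128) (by norm_num) (by norm_num) c287 p288 c301 p302

theorem c310 : CC 2097152 2097152 2097152 545816576 566460416 688128 :=
  Cov.e (H := 1048576) (by norm_num) (by norm_num) p306 p307 p308 p309

theorem c315 : CC 2097152 2097152 2097152 547192832 565084160 688128 :=
  Cov.e (H := 1048576) (by norm_num) (by norm_num) p311 p312 p313 p314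

theorem c320 : CC 2097152 2097152 2097152 547192832 566460416 688128 :=
  Cov.e (H := 1048576) (by norm_num) (by norm_num) p316 p317 p318 p319

theorem c321 : CC 2097152 2097152 2097152 546504704 565772288 1376256 :=
  Cov.w (h := 688128) (by norm_num) (by norm_num) p305 c310 c315 c320

theorem c323 : CC 2097152 2097152 2097152 545128448 567148544 2752512 :=
  Cov.w (h := 1376256) (by norm_num) (by norm_num) c303 p304 c321 p322

theorem c324 : CC 2097152 2097152 2097152 542375936 564396032 5505024 :=
  Cov.w (h := 2752512) (by norm_num) (by norm_num) c120 p121 c282 c323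

theorem c335 : CC 1048576 1048576 1048576 548913152 564051968 344064 :=
  Cov.e (H := 524288) (by norm_num) (by norm_num) p331 p332 p333 p334

theorem c336 : CC 1048576 1048576 1048576 548569088 563707904 688128 :=
  Cov.w (h := 344064) (by norm_num) (by norm_num) p328 p329 p330 c335

theorem c344 : CC 3145728 1048576 1048576 548913152 563363840 344064 :=
  Cov.e (H := 524288) (by norm_num) (by norm_num) p340 p341 p342 p343

theorem c349 : CC 3145728 1048576 1048576 548913152 564051968 344064 :=
  Cov.e (H := 524288) (by norm_num) (by norm_num) p345 p346 p347 p348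

theorem c350 : CC 3145728 1048576 1048576 548569088 563707904 688128 :=
  Cov.w (h := 344064) (by norm_num) (by norm_num) p338 p339 c344 c349

theorem c352 : CC 2097152 2097152 2097152 548569088 563707904 688128 :=
  Cov.e (H := 1048576) (by norm_num) (by norm_num) c336 p337 c350 p351

theorem c357 : CC 1048576 1048576 1048576 549945344 562331648 688128 :=
  Cov.w (h := 344064) (by norm_num) (by norm_num) p353 p354 p355 p356

theorem c362 : CC 1048576 3145728 1048576 549945344 562331648 688128 :=
  Cov.w (h := 344064) (by norm_num) (by norm_num) p358 p359 p360 p361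

theorem c368 : CC 3145728 1048576 1048576 549601280 562675712 344064 :=
  Cov.e (H := 524288) (by norm_num) (by norm_num) p364 p365 p366 p367

theorem c371 : CC 3145728 1048576 1048576 549945344 562331648 688128 :=
  Cov.w (h := 344064) (by norm_num) (by norm_num) p363 c368 p369 p370

theorem c377 : CC 3145728 3145728 1048576 549601280 562675712 344064 :=
  Cov.e (H := 524288) (by norm_num) (by norm_num) p373 p374 p375 p376

theorem c380 : CC 3145728 3145728 1048576 549945344 562331648 688128 :=
  Cov.w (h := 344064) (by norm_num) (by norm_num) p372 c377 p378 p379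

theorem c381 : CC 2097152 2097152 2097152 549945344 562331648 688128 :=
  Cov.e (H := 1048576) (by norm_num) (by norm_num) c357 c362 c371 c380

theorem c389 : CC 1572864 1572864 524288 549601280 563363840 344064 :=
  Cov.w (h := 172032) (by norm_num) (by norm_num) p385 p386 p387 p388

theorem c390 : CC 1048576 1048576 1048576 549601280 563363840 344064 :=
  Cov.e (H := 524288) (by norm_num) (by norm_num) p382 p383 p384 c389

theorem c395 : CC 1048576 1048576 1048576 549601280 564051968 344064 :=
  Cov.e (H := 524288) (by norm_num) (by norm_num) p391 p392 p393 p394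

theorem c398 : CC 1048576 1048576 1048576 549945344 563707904 688128 :=
  Cov.w (h := 344064) (by norm_num) (by norm_num) c390 c395 p396 p397

theorem c405 : CC 1572864 2621440 524288 549601280 563363840 344064 :=
  Cov.w (h := 172032) (by norm_num) (by norm_num) p401 p402 p403 p404

theorem c413 : CC 1572864 3670016 524288 549773312 563535872 172032 :=
  Cov.e (H := 262144) (by norm_num) (by norm_num) p409 p410 p411 p412

theorem c414 : CC 1572864 3670016 524288 549601280 563363840 344064 :=
  Cov.w (h := 172032) (by norm_num) (by norm_num) p406 p407 p408 c413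

theorem c415 : CC 1048576 3145728 1048576 549601280 563363840 344064 :=
  Cov.e (H := 524288) (by norm_num) (by norm_num) p399 p400 c405 c414

theorem c420 : CC 524288 2621440 524288 549601280 564051968 344064 :=
  Cov.w (h := 172032) (by norm_num) (by norm_num) p416 p417 p418 p419

theorem c426 : CC 1572864 2621440 524288 549601280 564051968 344064 :=
  Cov.w (h := 172032) (by norm_num) (by norm_num) p422 p423 p424 p425

theorem c431 : CC 1572864 3670016 524288 549601280 564051968 344064 :=
  Cov.w (h := 172032) (by norm_num) (by norm_num) p427 p428 p429 p430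

theorem c432 : CC 1048576 3145728 1048576 549601280 564051968 344064 :=
  Cov.e (H := 524288) (by norm_num) (by norm_num) c420 p421 c426 c431

theorem c435 : CC 1048576 3145728 1048576 549945344 563707904 688128 :=
  Cov.w (h := 344064) (by norm_num) (by norm_num) c415 c432 p433 p434

theorem c440 : CC 3145728 1048576 1048576 549601280 563363840 344064 :=
  Cov.e (H := 524288) (by norm_num) (by norm_num) p436 p437 p438 p439

theorem c444 : CC 3145728 1048576 1048576 549945344 563707904 688128 :=
  Cov.w (h := 344064) (by norm_num) (by norm_num) c440 p441 p442 p443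

theorem c449 : CC 2621440 2621440 524288 549601280 563363840 344064 :=
  Cov.w (h := 172032) (by norm_num) (by norm_num) p445 p446 p447 p448

theorem c453 : CC 3145728 3145728 1048576 549601280 563363840 344064 :=
  Cov.e (H := 524288) (by norm_num) (by norm_num) c449 p450 p451 p452

theorem c457 : CC 3145728 3145728 1048576 549945344 563707904 688128 :=
  Cov.w (h := 344064) (by norm_num) (by norm_num) c453 p454 p455 p456

theorem c458 : CC 2097152 2097152 2097152 549945344 563707904 688128 :=
  Cov.e (H := 1048576) (by norm_num) (by norm_num) c398 c435 c444 c457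

theorem c459 : CC 2097152 2097152 2097152 549257216 563019776 1376256 :=
  Cov.w (h := 688128) (by norm_num) (by norm_num) p327 c352 c381 c458

theorem c464 : CC 2097152 2097152 2097152 552009728 560267264 1376256 :=
  Cov.w (h := 688128) (by norm_num) (by norm_num) p460 p461 p462 p463

theorem c466 : CC 2097152 2097152 2097152 550633472 561643520 2752512 :=
  Cov.w (h := 1376256) (by norm_num) (by norm_num) p326 c459 c464 p465

theorem c471 : CC 1048576 1048576 1048576 548569088 565084160 688128 :=
  Cov.w (h := 344064) (by norm_num) (by norm_num) p467 p468 p469 p470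

theorem c475 : CC 2097152 2097152 2097152 548569088 565084160 688128 :=
  Cov.e (H := 1048576) (by norm_num) (by norm_num) c471 p472 p473 p474

theorem c479 : CC 2097152 2097152 2097152 549257216 565772288 1376256 :=
  Cov.w (h := 688128) (by norm_num) (by norm_num) c475 p476 p477 p478

theorem c483 : CC 2097152 2097152 2097152 550633472 567148544 2752512 :=
  Cov.w (h := 1376256) (by norm_num) (by norm_num) c479 p480 p481 p482

theorem c486 : CC 2097152 2097152 2097152 553385984 564396032 5505024 :=
  Cov.w (h := 2752512) (by norm_num) (by norm_num) c466 c483 p484 p485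

theorem c488 : CC 2097152 2097152 2097152 547880960 569901056 11010048 :=
  Cov.w (h := 5505024) (by norm_num) (by norm_num) c324 p325 c486 p487

theorem c501 : CC 2097152 2097152 2097152 569212928 541687808 688128 :=
  Cov.e (H := 1048576) (by norm_num) (by norm_num) p497 p498 p499 p500

theorem c502 : CC 2097152 2097152 2097152 568524800 540999680 1376256 :=
  Cov.w (h := 688128) (by norm_num) (by norm_num) p494 p495 p496 c501

theorem c503 : CC 2097152 2097152 2097152 567148544 539623424 2752512 :=
  Cov.w (h := 1376256) (by norm_num) (by norm_num) p491 p492 p493 c502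

theorem c510 : CC 2097152 2097152 2097152 568524800 543752192 1376256 :=
  Cov.w (h := 688128) (by norm_num) (by norm_num) p506 p507 p508 p509

theorem c512 : CC 2097152 2097152 2097152 567148544 545128448 2752512 :=
  Cov.w (h := 1376256) (by norm_num) (by norm_num) p504 p505 c510 p511

theorem c513 : CC 2097152 2097152 2097152 564396032 542375936 5505024 :=
  Cov.w (h := 2752512) (by norm_num) (by norm_num) p489 p490 c503 c512

theorem c520 : CC 2097152 2097152 2097152 571277312 540999680 1376256 :=
  Cov.w (h := 688128) (by norm_num) (by norm_num) p516 p517 p518 p519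

theorem c523 : CC 2097152 2097152 2097152 572653568 539623424 2752512 :=
  Cov.w (h := 1376256) (by norm_num) (by norm_num) p515 c520 p521 p522

theorem c527 : CC 2097152 2097152 2097152 575406080 542375936 5505024 :=
  Cov.w (h := 2752512) (by norm_num) (by norm_num) c523 p524 p525 p526

theorem c529 : CC 2097152 2097152 2097152 569901056 547880960 11010048 :=
  Cov.w (h := 5505024) (by norm_num) (by norm_num) c513 p514 c527 p528

theorem c531 : CC 2097152 2097152 2097152 558891008 558891008 22020096 :=
  Cov.w (h := 11010048) (by norm_num) (by norm_num) p115 c488 c529 p530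

theorem c532 : CC 2097152 2097152 2097152 536870912 536870912 44040192 :=
  Cov.w (h := 22020096) (by norm_num) (by norm_num) p0 p1 c114 c531

theorem root : CC 2097152 2097152 2097152 536870912 536870912 44040192 := c532

end Pool.Agent.W_4481e3_q12.Hi
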