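import Pool.Agent.W_4481e3_q12.HiEv
import Pool.Agent.W_4481e3_q12.Contr
import Pool.Agent.W_4481e3_q59.PerSndE

/-!
Upper bound of the slopes: soundness of the leaf.
-/

namespace Pool.Agent.W_4481e3_q12.Hi

open Complex
open Pool.Agent.W_MP_4481e3_an.Ev (gd gd_true div_lower div_upper ndiv_eq pt InB nrm1 nrm1_sound
  norm_le_sqrt_two)
open Pool.Agent.W_4481e3_q12.Ev (ds nrm st fid neg s0 s1 s2 s3 out stp InE Ph Al TT Rg BxE BxW
  ph0 ph1 ph2 ph3 cph out_sound box_norm Ok half_of_dvd okb okb_sound cph_add escj escj_sound ds_cast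
  nrm_sound chk3')
open Pool.Agent.W_4481e3_q59.PEv (wn en fu fw spe spw gg st_sound2 wn_sound en_sound fw_sound Le
  sc_fac sc_e sc_w sc_step d0_abs d1_abs d2_abs d3_abs)
open Pool.Agent.W_4481e3_q59 (dd_shift cc_shift)
open Pool.Agent.W_4481e3_q42

section
variable {X Y t A B r : ℕ}

/-- the first factor -/
lemma first_sound {E W : ℂ} (hX : X ≤ 4194304) (hY : Y ≤ 4194304) (ht : t ≤ 16777216)
    (hE : InE X Y t E) (hW : InB A B r W) (hr : r ≤ 218103808) (hz : ‖pt A B‖ ≤ 86000000) {m n : ℕ}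
    (hm : m = ds (70368744177664 + 16410594 * A + 16051983 * X) 8810370567241728 / 16777216 + 1)
    (hn : n = ds (16410594 * B + 16051983 * Y) 8810370567241728 / 16777216 + 1) :
    ‖4194304 - (cph 3 : ℂ) * W + (cph 3 : ℂ) ^ 2 * E‖ ≤
      ((nrm m n (m * m + n * n) + (16410594 * r + 16051983 * t) / 16777216 + 40 : ℕ) : ℝ) := by
  have hc3 := abs_le.1 chk3'
  have hl : (cph 3) * 16777216 ≤ -16410593 := by linarith [hc3.1]
  have hu : -16410595 ≤ (cph 3) * 16777216 := by linarith [hc3.2]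
  unfold InE at hE
  unfold InB at hW
  set γ : ℝ := 16410594 / 16777216 with hγ
  set κ : ℝ := 16051983 / 16777216 with hκ
  have hcg : |cph 3 + γ| ≤ 1 / 16777216 := by
    rw [abs_le, hγ]; constructor <;> linarith
  have hck : |cph 3 ^ 2 - κ| ≤ 4 / 16777216 := by
    have e1 : (-16410595 / 16777216 : ℝ) ≤ cph 3 := by linarith
    have e2 : cph 3 ≤ -16410593 / 16777216 := by linarith
    rw [abs_le, hκ]
    constructor <;> nlinarith
  set z := pt A B with hz0
  set k0 : ℂ := (⟨(X:ℝ), (Y:ℝ)⟩ : ℂ) with hk0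
  set F : ℂ := 4194304 + (γ : ℂ) * z + (κ : ℂ) * k0 with hF
  have hk2 : ‖k0‖ ≤ 6291456 := by
    have hX' : (X:ℝ) ≤ 4194304 := by exact_mod_cast hX
    have hY' : (Y:ℝ) ≤ 4194304 := by exact_mod_cast hY
    have e1 : ‖(⟨(X:ℝ), (Y:ℝ)⟩ : ℂ)‖ ≤ 3 / 2 * 4194304 := by
      apply norm_le_sqrt_two
      · simp only [Nat.abs_cast]; exact hX'
      · simp only [Nat.abs_cast]; exact hY'
    linarith
  have hFre : 16777216 * F.re = 70368744177664 + 16410594 * (A:ℝ) + 16051983 * X - 8810370567241728 := by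
    rw [hF, Complex.add_re, Complex.add_re, Complex.re_ofReal_mul, Complex.re_ofReal_mul]
    have e1 : (4194304 : ℂ).re = 4194304 := by norm_num
    rw [e1, hz0, hk0, hγ, hκ]
    unfold pt
    simp only
    ring
  have hFim : 16777216 * F.im = 16410594 * (B:ℝ) + 16051983 * Y - 8810370567241728 := by
    rw [hF, Complex.add_im, Complex.add_im, Complex.im_ofReal_mul, Complex.im_ofReal_mul]
    have e1 : (4194304 : ℂ).im = 0 := by norm_num
    rw [e1, hz0, hk0, hγ, hκ]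
    unfold pt
    simp only
    ring
  have hmre : |F.re| ≤ m := by
    have e3 := div_lower (ds (70368744177664 + 16410594 * A + 16051983 * X) 8810370567241728) 16777216 (by norm_num)
    rw [ds_cast] at e3
    push_cast at e3
    rw [← hFre, abs_mul, abs_of_pos (show (0:ℝ) < 16777216 by norm_num)] at e3
    rw [hm]
    push_cast
    linarith
  have hnim : |F.im| ≤ n := by
    have e3 := div_lower (ds (16410594 * B + 16051983 * Y) 8810370567241728) 16777216 (by norm_num)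
    rw [ds_cast] at e3
    push_cast at e3
    rw [← hFim, abs_mul, abs_of_pos (show (0:ℝ) < 16777216 by norm_num)] at e3
    rw [hn]
    push_cast
    linarith
  have hFw : ‖F‖ ≤ nrm m n (m * m + n * n) := by
    apply nrm_sound
    have e3 : ‖F‖ ^ 2 = |F.re| ^ 2 + |F.im| ^ 2 := by
      rw [Complex.sq_norm, Complex.normSq_apply, sq_abs, sq_abs]; ring
    rw [e3]
    push_cast
    have e4 : |F.re| ^ 2 ≤ (m:ℝ) ^ 2 := pow_le_pow_left₀ (abs_nonneg _) hmre 2
    have e5 : |F.im| ^ 2 ≤ (n:ℝ) ^ 2 := pow_le_pow_left₀ (abs_nonneg _) hnim 2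
    linarith
  have hdec : 4194304 - (cph 3 : ℂ) * W + (cph 3 : ℂ) ^ 2 * E =
      (F + -(((cph 3 + γ : ℝ) : ℂ) * z)) + (((cph 3 ^ 2 - κ : ℝ) : ℂ) * k0 + -((cph 3 : ℂ) * (W - z))) +
        (cph 3 : ℂ) ^ 2 * (E - k0) := by
    rw [hF]; push_cast; ring
  have d1 : ‖-(((cph 3 + γ : ℝ) : ℂ) * z)‖ ≤ 6 := by
    rw [norm_neg, norm_mul, Complex.norm_real, Real.norm_eq_abs]
    calc |cph 3 + γ| * ‖z‖ ≤ 1 / 16777216 * 86000000 := mul_le_mul hcg hz (norm_nonneg _) (by norm_num)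
      _ ≤ 6 := by norm_num
  have d2 : ‖((cph 3 ^ 2 - κ : ℝ) : ℂ) * k0‖ ≤ 2 := by
    rw [norm_mul, Complex.norm_real, Real.norm_eq_abs]
    calc |cph 3 ^ 2 - κ| * ‖k0‖ ≤ 4 / 16777216 * 6291456 := mul_le_mul hck hk2 (norm_nonneg _) (by norm_num)
      _ ≤ 2 := by norm_num
  have hr' : (r:ℝ) ≤ 218103808 := by exact_mod_cast hr
  have ht' : (t:ℝ) ≤ 16777216 := by exact_mod_cast ht
  have d3 : ‖-((cph 3 : ℂ) * (W - z))‖ ≤ 16410594 * r / 16777216 + 13 := by
    rw [norm_neg, norm_mul, Complex.norm_real, Real.norm_eq_abs]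
    have e1 : |cph 3| ≤ 16410595 / 16777216 := by
      rw [abs_le]; constructor <;> linarith
    have e2 : |cph 3| * ‖W - z‖ ≤ 16410595 / 16777216 * r :=
      mul_le_mul e1 hW (norm_nonneg _) (by norm_num)
    linarith
  have d4 : ‖(cph 3 : ℂ) ^ 2 * (E - k0)‖ ≤ 16051983 * t / 16777216 + 4 := by
    rw [norm_mul, norm_pow, Complex.norm_real, Real.norm_eq_abs, sq_abs]
    have e1 : cph 3 ^ 2 ≤ (16051983 + 4) / 16777216 := by
      have := (abs_le.1 hck).2
      rw [hκ] at this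
      linarith
    have e2 : cph 3 ^ 2 * ‖E - k0‖ ≤ (16051983 + 4) / 16777216 * t :=
      mul_le_mul e1 hE (norm_nonneg _) (by norm_num)
    linarith
  rw [hdec]
  refine (norm_add₃_le).trans ?_
  have m1 := norm_add_le F (-(((cph 3 + γ : ℝ) : ℂ) * z))
  have m2 := norm_add_le (((cph 3 ^ 2 - κ : ℝ) : ℂ) * k0) (-((cph 3 : ℂ) * (W - z)))
  have e6 := div_lower (16410594 * r + 16051983 * t) 16777216 (by norm_num)
  push_cast at e6
  have e8 : ((nrm m n (m * m + n * n) + (16410594 * r + 16051983 * t) / 16777216 + 40 : ℕ) : ℝ) =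
      ((nrm m n (m * m + n * n) : ℕ) : ℝ) + (((16410594 * r + 16051983 * t) / 16777216 : ℕ) : ℝ) + 40 := by
    push_cast; ring
  rw [e8]
  have e7 : (16410594 * (r:ℝ) + 16051983 * t) / 16777216 = 16410594 * r / 16777216 + 16051983 * t / 16777216 := by
    ring
  have t1 := m1.trans (add_le_add hFw d1)
  have t2 := m2.trans (add_le_add d2 d3)
  have t3 := add_le_add (add_le_add t1 t2) d4
  refine t3.trans ?_
  rw [e7] at e6
  linarith

end

/-- slopes from the phase `3` -/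
lemma aa_fwd3 (e w a : ℂ) (j : ℕ) : ‖aa e 3 w a (j + 1)‖ ≤
    (‖1 - 2 * cc (3 + j) * ww e 3 w j‖ * ‖aa e 3 w a j‖ + |dd (3 + j)| * ‖e - ww e 3 w j ^ 2‖) / 2 := by
  show ‖((1 - 2 * cc (3 + j) * ww e 3 w j) * aa e 3 w a j + dd (3 + j) * (e - ww e 3 w j ^ 2)) / 2‖ ≤ _
  rw [norm_div]
  have h2 : ‖(2:ℂ)‖ = 2 := by simp
  rw [h2]
  apply div_le_div_of_nonneg_right _ (by norm_num)
  refine (norm_add_le _ _).trans ?_
  rw [norm_mul, norm_mul, Complex.norm_real, Real.norm_eq_abs]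

/-- the bound of the source over `8/15` -/
lemma e00_sound {e w0 w1 : ℂ} {g Wn : ℕ} (h1 : w1 = w0 + (cph 3 : ℂ) * (e - w0 ^ 2))
    (hg : Le ‖1 - 2 * (cph 3 : ℂ) * w0‖ g) (hW : Le ‖w1‖ Wn) : Le ‖e - w0 ^ 2‖ (e00 g Wn) := by
  unfold Le at *
  have hc := c3_bd
  have habs : |cph 3| = -cph 3 := abs_of_nonpos (by linarith [hc.2])
  set x := ‖1 - 2 * (cph 3 : ℂ) * w0‖ with hx
  have hx0 : 0 ≤ x := norm_nonneg _
  have hw0 : 2 * (978147 / 1000000) * ‖w0‖ ≤ 1 + x := by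
    have e1 : 2 * (cph 3 : ℂ) * w0 = 1 - (1 - 2 * (cph 3 : ℂ) * w0) := by ring
    have e2 : ‖2 * (cph 3 : ℂ) * w0‖ = 2 * |cph 3| * ‖w0‖ := by
      rw [norm_mul, norm_mul, Complex.norm_real, Real.norm_eq_abs]
      simp
    have e3 := norm_sub_le (1 : ℂ) (1 - 2 * (cph 3 : ℂ) * w0)
    rw [← e1, e2, norm_one] at e3
    have e4 : 2 * (978147 / 1000000) * ‖w0‖ ≤ 2 * |cph 3| * ‖w0‖ := by
      apply mul_le_mul_of_nonneg_right _ (norm_nonneg _)
      rw [habs]; linarith [hc.2]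
    linarith
  have hs : 978147 / 1000000 * ‖e - w0 ^ 2‖ ≤ ‖w1‖ + ‖w0‖ := by
    have e1 : (cph 3 : ℂ) * (e - w0 ^ 2) = w1 - w0 := by rw [h1]; ring
    have e2 : ‖(cph 3 : ℂ) * (e - w0 ^ 2)‖ = |cph 3| * ‖e - w0 ^ 2‖ := by
      rw [norm_mul, Complex.norm_real, Real.norm_eq_abs]
    have e3 := norm_sub_le w1 w0
    rw [← e1, e2] at e3
    have e4 : 978147 / 1000000 * ‖e - w0 ^ 2‖ ≤ |cph 3| * ‖e - w0 ^ 2‖ := by
      apply mul_le_mul_of_nonneg_right _ (norm_nonneg _)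
      rw [habs]; linarith [hc.2]
    linarith
  unfold e00
  simp only [Nat.add_eq, Nat.mul_eq, ndiv_eq]
  have d1 := div_lower ((16777216 + g) * 8576299) 16777216 (by norm_num)
  set v := (16777216 + g) * 8576299 / 16777216 with hv
  clear_value v
  have d2 := div_lower ((Wn + v + 1) * 17152598) 16777216 (by norm_num)
  set u := (Wn + v + 1) * 17152598 / 16777216 with hu
  clear_value u
  push_cast at d1 d2 ⊢
  have hv2 : ‖w0‖ * 16777216 ≤ v + 1 := by nlinarith [norm_nonneg w0]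
  nlinarith [norm_nonneg w0, norm_nonneg w1, norm_nonneg (e - w0 ^ 2)]

/-- the conclusion at a point of a leaf -/
def HiP (T0 T1 : ℕ) (e w1 : ℂ) : Prop :=
  ∀ w0 a : ℂ, w1 = w0 + (cph 3 : ℂ) * (e - w0 ^ 2) → Le ‖a‖ T0 →
    Le ‖aa e 3 w0 a 2‖ T1 ∧ Le ‖aa e 3 w0 a 4‖ T0

lemma fu_s {C r G : ℕ} {x : ℝ} (hx : x ≤ G + 2 * C * r / 16777216 + 37) : x ≤ fu C r G := by
  unfold fu
  simp only [Nat.add_eq, Nat.mul_eq, ndiv_eq]
  have h1 := div_lower (2 * C * r) 16777216 (by norm_num)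
  push_cast at h1 ⊢
  linarith

/-- one step of the slope bound -/
lemma adv {e w0 a x : ℂ} {j : ℕ} {c : ℝ} {F D E' a' : ℕ} (hx : ww e 3 w0 j = x) (hc : cc (3 + j) = c)
    (hd : |dd (3 + j)| * 16777216 ≤ (D : ℝ)) (hF : Le ‖1 - 2 * (c : ℂ) * x‖ F)
    (hE : Le ‖e - x ^ 2‖ E') (ha : Le ‖aa e 3 w0 a j‖ a') : Le ‖aa e 3 w0 a (j + 1)‖ (fw F D E' a') := by
  subst hc hx
  unfold Le at *
  have h1 := fw_sound (norm_nonneg _) hF (abs_nonneg _) hd (norm_nonneg _) hE (norm_nonneg _) ha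
  have h2 := aa_fwd3 e w0 a j
  refine le_trans ?_ h1
  exact mul_le_mul_of_nonneg_right h2 (by norm_num)

theorem hi_sound {T0 T1 X Y t A B r : ℕ} {e w1 : ℂ} (hX : X ≤ 4194304) (hY : Y ≤ 4194304)
    (ht : t ≤ 16777216) (hE : InE X Y t (16777216 * e)) (hW : InB A B r (16777216 * w1))
    (hp : hi T0 T1 X Y t A B r = true) : HiP T0 T1 e w1 := by
  intro w0 a hw ha
  obtain ⟨m, hm⟩ : ∃ m, m = ds (70368744177664 + 16410594 * A + 16051983 * X) 8810370567241728 /
    16777216 + 1 := ⟨_, rfl⟩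
  obtain ⟨n, hn⟩ : ∃ n, n = ds (16410594 * B + 16051983 * Y) 8810370567241728 / 16777216 + 1 := ⟨_, rfl⟩
  obtain ⟨P0, hP0⟩ : ∃ P0, P0 = nrm m n (m * m + n * n) + (16410594 * r + 16051983 * t) / 16777216 + 40 :=
    ⟨_, rfl⟩
  have hp1 : hi3 T0 T1 X Y t A B r (nrm1 (67108864 * P0) (nrm1 (67108864 * P0) 50331648)) (wn A B r) = true := by
    rw [hP0, hm, hn]; exact hp
  clear hp
  obtain ⟨g, hg⟩ : ∃ g, g = nrm1 (67108864 * P0) (nrm1 (67108864 * P0) 50331648) := ⟨_, rfl⟩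
  rw [← hg] at hp1
  unfold hi3 s0 at hp1
  obtain ⟨A1, B1, r1, h1, v1, n0, q0, z0, g0⟩ := st_sound2 ph0 hX hY ht hE hW hp1
  have hfirst := first_sound hX hY ht hE hW q0 z0 hm hn
  rw [← hP0] at hfirst
  rw [← sc_step] at v1
  unfold hi4 s1 at h1
  rw [gd_true] at h1
  obtain ⟨hT1, h1⟩ := h1
  obtain ⟨A2, B2, r2, h2, v2, n1, q1, z1, g1⟩ := st_sound2 ph1 hX hY ht hE v1 h1
  rw [← sc_step] at v2
  unfold hi5 s2 at h2
  obtain ⟨A3, B3, r3, h3, v3, n2, q2, z2, g2⟩ := st_sound2 ph2 hX hY ht hE v2 h2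
  unfold hi6 at h3
  have hT0 := Nat.le_of_ble_eq_true h3
  have hT1' := Nat.le_of_ble_eq_true hT1
  clear h1 h2 h3 hp1 hT1
  set w2 := w1 + (cph 0 : ℂ) * (e - w1 ^ 2) with hw2
  set w3 := w2 + (cph 1 : ℂ) * (e - w2 ^ 2) with hw3
  -- the factor over `8/15`
  have hgg : Le ‖1 - 2 * (cph 3 : ℂ) * w0‖ g := by
    unfold Le
    rw [hg]
    apply nrm1_sound (Nat.succ_pos _)
    have k0 : (4194304 : ℂ) - (cph 3 : ℂ) * (16777216 * w1) + (cph 3 : ℂ) ^ 2 * (16777216 * e) =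
      4194304 * (1 - 2 * (cph 3 : ℂ) * w0) ^ 2 := by rw [hw]; ring
    rw [k0, norm_mul, norm_pow] at hfirst
    have h41 : ‖(4194304 : ℂ)‖ = 4194304 := by simp
    rw [h41] at hfirst
    push_cast
    nlinarith
  have hS : Le ‖e - w0 ^ 2‖ (e00 g (wn A B r)) :=
    e00_sound hw hgg (by unfold Le; rw [sc_w]; exact wn_sound hW)
  have ww0 : ww e 3 w0 0 = w0 := rfl
  have ww1 : ww e 3 w0 1 = w1 := hw.symm
  have c4 : cc (3 + 1) = cph 0 := cph_add 0
  have c5 : cc (3 + 2) = cph 1 := cph_add 1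
  have c6 : cc (3 + 3) = cph 2 := cph_add 2
  have ww2 : ww e 3 w0 2 = w2 := by
    show ww e 3 w0 1 + (cc (3 + 1) : ℂ) * (e - ww e 3 w0 1 ^ 2) = w2
    rw [ww1, c4]
  have ww3 : ww e 3 w0 3 = w3 := by
    show ww e 3 w0 2 + (cc (3 + 2) : ℂ) * (e - ww e 3 w0 2 ^ 2) = w3
    rw [ww2, c5]
  have d5 : dd (3 + 2) = dd 1 := by
    have := dd_shift 1 1 0
    simpa using this
  have d6 : dd (3 + 3) = dd 2 := by
    have := dd_shift 2 1 0
    simpa using this
  have a1 : Le ‖aa e 3 w0 a 1‖ (fw g 21917200 (e00 g (wn A B r)) T0) :=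
    adv (j := 0) ww0 (show cc (3 + 0) = cph 3 from rfl) d3_abs hgg hS ha
  have a2 : Le ‖aa e 3 w0 a 2‖ (fw (fu 15326749 r (gg fid 15326749 8228485713625088 A B)) 42876300
      (en X Y t A B r) (fw g 21917200 (e00 g (wn A B r)) T0)) :=
    adv (j := 1) ww1 c4 d0_abs (by unfold Le; rw [sc_fac]; exact fu_s (by exact_mod_cast g0))
      (by unfold Le; rw [sc_e]; exact en_sound hE hW n0) a1
  have a3 := adv (j := 2) (D := 78338600) ww2 c5 (by rw [d5]; exact d1_abs)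
    (show Le ‖1 - 2 * (cph 1 : ℂ) * w2‖ (fu 11226149 r1 (gg fid 11226149 6026992851877888 A1 B1)) by
      unfold Le; rw [sc_fac]; exact fu_s (by exact_mod_cast g1))
    (show Le ‖e - w2 ^ 2‖ (en X Y t A1 B1 r1) by
      unfold Le; rw [sc_e]; exact en_sound hE v1 n1) a2
  have a4 := adv (j := 3) (D := 104837500) ww3 c6 (by rw [d6]; exact d2_abs)
    (show Le ‖1 - 2 * (cph 2 : ℂ) * w3‖ (fu 1753697 r2 (gg neg 1753697 941508907761664 A2 B2)) by
      unfold Le; rw [sc_fac]; exact fu_s (by exact_mod_cast g2))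
    (show Le ‖e - w3 ^ 2‖ (en X Y t A2 B2 r2) by
      unfold Le; rw [sc_e]; exact en_sound hE v2 n2) a3
  constructor
  · unfold Le at a2 ⊢
    exact a2.trans (by exact_mod_cast hT1')
  · unfold Le at a4 ⊢
    exact a4.trans (by exact_mod_cast hT0)

/-- the statement at a point (scaled) -/
def Cl (P : ℂ → ℂ → Prop) (E W : ℂ) : Prop := Rg E → Al E 0 W → P E W

/-- soundness of a special closer -/
def Snd (cl : ℕ → ℕ → ℕ → ℕ → ℕ → ℕ → Bool) (P : ℂ → ℂ → Prop) : Prop :=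
  ∀ {X Y t A B r : ℕ} {E W : ℂ}, X ≤ 4194304 → Y ≤ 4194304 → t ≤ 16777216 → InE X Y t E → InB A B r W →
    cl X Y t A B r = true → P E W

/-- the scaled statement -/
def HP (T0 T1 : ℕ) (E W : ℂ) : Prop := HiP T0 T1 (E / 16777216) (W / 16777216)

lemma hi_snd (T0 T1 : ℕ) : Snd (hi T0 T1) (HP T0 T1) := by
  intro X Y t A B r E W hX hY ht hE hW hc
  have e1 : (16777216 : ℂ) * (E / 16777216) = E := by field_simp
  have e2 : (16777216 : ℂ) * (W / 16777216) = W := by field_simp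
  exact hi_sound hX hY ht (by rw [e1]; exact hE) (by rw [e2]; exact hW) hc

lemma chk_sound {cl : ℕ → ℕ → ℕ → ℕ → ℕ → ℕ → Bool} {P : ℂ → ℂ → Prop} (hs : Snd cl P)
    {m X Y H A B h : ℕ} (hX : X ≤ 4194304) (hY : Y ≤ 4194304) (hH : H ≤ 4194304)
    (hc : chk cl m X Y H A B h = true) {E W : ℂ} (hE : BxE X Y H E) (hW : BxW A B h W) : Cl P E W := by
  intro hR hA
  have ht : Nat.add (Nat.div (Nat.mul H 1449) 1024) 1 ≤ 16777216 := by
    simp only [Nat.add_eq, Nat.mul_eq, ndiv_eq]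
    omega
  unfold chk chk3 at hc
  cases h12 : Nat.ble 12 m with
  | false =>
    rw [h12] at hc
    exact absurd hA (escj_sound hX hY ht (Pool.Agent.W_4481e3_q59.PEv.box_InE hE)
      (Pool.Agent.W_4481e3_q59.PEv.box_InB hW) hc)
  | true =>
    rw [h12] at hc
    cases h13 : Nat.ble 13 m with
    | false =>
      rw [h13] at hc
      exact absurd hR (out_sound hE hc)
    | true =>
      rw [h13] at hc
      exact hs hX hY ht (Pool.Agent.W_4481e3_q59.PEv.box_InE hE)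
        (Pool.Agent.W_4481e3_q59.PEv.box_InB hW) hc

/-- the statement on a cell -/
def Cov (P : ℂ → ℂ → Prop) (X Y H A B h : ℕ) : Prop := ∀ E W : ℂ, BxE X Y H E → BxW A B h W → Cl P E W

section
variable {P : ℂ → ℂ → Prop}

lemma Cov.e {X Y H A B h : ℕ} (hX : H ≤ X) (hY : H ≤ Y)
    (c1 : Cov P (X - H) (Y - H) H A B h) (c2 : Cov P (X - H) (Y + H) H A B h)
    (c3 : Cov P (X + H) (Y - H) H A B h) (c4 : Cov P (X + H) (Y + H) H A B h) :
    Cov P X Y (2 * H) A B h := by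
  intro E W hE hW
  have cX : ((X - H : ℕ) : ℝ) = X - H := Nat.cast_sub hX
  have cY : ((Y - H : ℕ) : ℝ) = Y - H := Nat.cast_sub hY
  obtain ⟨y1, y2⟩ := hE
  push_cast at y1 y2
  rw [abs_le] at y1 y2
  rcases le_total E.re X with r1 | r1
  · rcases le_total E.im Y with r2 | r2
    · refine c1 E W ⟨?_, ?_⟩ hW
      · rw [cX, abs_le]; constructor <;> linarith
      · rw [cY, abs_le]; constructor <;> linarith
    · refine c2 E W ⟨?_, ?_⟩ hW
      · rw [cX, abs_le]; constructor <;> linarith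
      · push_cast; rw [abs_le]; constructor <;> linarith
  · rcases le_total E.im Y with r2 | r2
    · refine c3 E W ⟨?_, ?_⟩ hW
      · push_cast; rw [abs_le]; constructor <;> linarith
      · rw [cY, abs_le]; constructor <;> linarith
    · refine c4 E W ⟨?_, ?_⟩ hW
      · push_cast; rw [abs_le]; constructor <;> linarith
      · push_cast; rw [abs_le]; constructor <;> linarith

lemma Cov.w {X Y H A B h : ℕ} (hA : h ≤ A) (hB : h ≤ B)
    (c1 : Cov P X Y H (A - h) (B - h) h) (c2 : Cov P X Y H (A - h) (B + h) h)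
    (c3 : Cov P X Y H (A + h) (B - h) h) (c4 : Cov P X Y H (A + h) (B + h) h) :
    Cov P X Y H A B (2 * h) := by
  intro E W hE hW
  have cA : ((A - h : ℕ) : ℝ) = A - h := Nat.cast_sub hA
  have cB : ((B - h : ℕ) : ℝ) = B - h := Nat.cast_sub hB
  obtain ⟨y1, y2⟩ := hW
  push_cast at y1 y2
  rw [abs_le] at y1 y2
  rcases le_total W.re ((A:ℝ) - 536870912) with r1 | r1
  · rcases le_total W.im ((B:ℝ) - 536870912) with r2 | r2
    · refine c1 E W hE ⟨?_, ?_⟩
      · rw [cA, abs_le]; constructor <;> linarith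
      · rw [cB, abs_le]; constructor <;> linarith
    · refine c2 E W hE ⟨?_, ?_⟩
      · rw [cA, abs_le]; constructor <;> linarith
      · push_cast; rw [abs_le]; constructor <;> linarith
  · rcases le_total W.im ((B:ℝ) - 536870912) with r2 | r2
    · refine c3 E W hE ⟨?_, ?_⟩
      · push_cast; rw [abs_le]; constructor <;> linarith
      · rw [cB, abs_le]; constructor <;> linarith
    · refine c4 E W hE ⟨?_, ?_⟩
      · push_cast; rw [abs_le]; constructor <;> linarith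
      · push_cast; rw [abs_le]; constructor <;> linarith

variable {cl : ℕ → ℕ → ℕ → ℕ → ℕ → ℕ → Bool}

lemma leaf_sound (hs : Snd cl P) {m X Y H A B h n : ℕ} (hX : X ≤ 4194304) (hY : Y ≤ 4194304)
    (hH : H ≤ 4194304) (hl : leaf cl m X Y H A B h n ≠ 0) : n ≠ 0 ∧ Cov P X Y H A B h := by
  unfold leaf at hl
  cases hc : chk cl m X Y H A B h with
  | false => rw [hc] at hl; exact absurd rfl hl
  | true =>
    rw [hc] at hl
    exact ⟨hl, fun E W hE hW => chk_sound hs hX hY hH hc hE hW⟩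

lemma go_zero (X Y H A B h n : ℕ) :
    go cl 0 X Y H A B h n = leaf cl (n % 16) X Y H A B h (n / 16) := rfl

lemma go_succ (d X Y H A B h n : ℕ) :
    go cl (d + 1) X Y H A B h n = nd cl (go cl d) (n % 16) X Y H A B h (n / 16) := rfl

lemma go_sound (hs : Snd cl P) (d : ℕ) : ∀ {X Y H A B h n : ℕ}, Ok d X Y H A B h →
    go cl d X Y H A B h n ≠ 0 → n ≠ 0 ∧ Cov P X Y H A B h := by
  induction d with
  | zero =>
    intro X Y H A B h n ok hg
    rw [go_zero] at hg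
    obtain ⟨h1, h2⟩ := leaf_sound hs (by have := ok.X1; omega) (by have := ok.Y1; omega)
      (by have := ok.X1; omega) hg
    exact ⟨fun h0 => h1 (by rw [h0]), h2⟩
  | succ d ih =>
    intro X Y H A B h n ok hg
    obtain ⟨eH, dH⟩ := half_of_dvd ok.dH
    obtain ⟨eh, dh⟩ := half_of_dvd ok.dh
    obtain ⟨pH, ph, X0, Y0, A0, B0, X1, Y1⟩ := ok
    rw [go_succ] at hg
    unfold nd at hg
    suffices hh : n / 16 ≠ 0 ∧ Cov P X Y H A B h from ⟨fun h0 => hh.1 (by rw [h0]), hh.2⟩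
    generalize n / 16 = n0 at hg ⊢
    cases h14 : Nat.ble 14 (n % 16) with
    | false =>
      rw [h14] at hg
      exact leaf_sound hs (by omega) (by omega) (by omega) hg
    | true =>
      rw [h14] at hg
      cases h15 : Nat.ble 15 (n % 16) with
      | false =>
        rw [h15] at hg
        have hg' : spe (go cl d) X Y ((H + 1) / 2) A B h n0 ≠ 0 := hg
        clear hg
        unfold spe at hg'
        simp only [Nat.add_eq, Nat.sub_eq] at hg'
        set K := (H + 1) / 2 with hK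
        clear_value K
        have dh' : 2 ^ d ∣ h := (pow_dvd_pow 2 (Nat.le_succ d)).trans ph
        obtain ⟨m4, c4⟩ := ih (X := X + K) (Y := Y + K) (H := K) (A := A) (B := B) (h := h)
          ⟨dH, dh', by omega, by omega, A0, B0, by omega, by omega⟩ hg'
        obtain ⟨m3, c3⟩ := ih (X := X + K) (Y := Y - K) (H := K) (A := A) (B := B) (h := h)
          ⟨dH, dh', by omega, by omega, A0, B0, by omega, by omega⟩ m4
        obtain ⟨m2, c2⟩ := ih (X := X - K) (Y := Y + K) (H := K) (A := A) (B := B) (h := h)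
          ⟨dH, dh', by omega, by omega, A0, B0, by omega, by omega⟩ m3
        obtain ⟨m1, c1⟩ := ih (X := X - K) (Y := Y - K) (H := K) (A := A) (B := B) (h := h)
          ⟨dH, dh', by omega, by omega, A0, B0, by omega, by omega⟩ m2
        refine ⟨m1, ?_⟩
        rw [eH]
        exact Cov.e (by omega) (by omega) c1 c2 c3 c4
      | true =>
        rw [h15] at hg
        have hg' : spw (go cl d) X Y H A B ((h + 1) / 2) n0 ≠ 0 := hg
        clear hg
        unfold spw at hg'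
        simp only [Nat.add_eq, Nat.sub_eq] at hg'
        set K := (h + 1) / 2 with hK
        clear_value K
        have dH' : 2 ^ d ∣ H := (pow_dvd_pow 2 (Nat.le_succ d)).trans pH
        obtain ⟨m4, c4⟩ := ih (X := X) (Y := Y) (H := H) (A := A + K) (B := B + K) (h := K)
          ⟨dH', dh, X0, Y0, by omega, by omega, X1, Y1⟩ hg'
        obtain ⟨m3, c3⟩ := ih (X := X) (Y := Y) (H := H) (A := A + K) (B := B - K) (h := K)
          ⟨dH', dh, X0, Y0, by omega, by omega, X1, Y1⟩ m4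
        obtain ⟨m2, c2⟩ := ih (X := X) (Y := Y) (H := H) (A := A - K) (B := B + K) (h := K)
          ⟨dH', dh, X0, Y0, by omega, by omega, X1, Y1⟩ m3
        obtain ⟨m1, c1⟩ := ih (X := X) (Y := Y) (H := H) (A := A - K) (B := B - K) (h := K)
          ⟨dH', dh, X0, Y0, by omega, by omega, X1, Y1⟩ m2
        refine ⟨m1, ?_⟩
        rw [eh]
        exact Cov.w (by omega) (by omega) c1 c2 c3 c4

lemma Cov.tree (hs : Snd cl P) (d : ℕ) {X Y H A B h n : ℕ} (hb : okb d X Y H A B h = true)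
    (hg : Nat.ble 1 (go cl d X Y H A B h n) = true) : Cov P X Y H A B h :=
  (go_sound hs d (okb_sound hb) (Nat.one_le_iff_ne_zero.1 (Nat.le_of_ble_eq_true hg))).2

end

end Pool.Agent.W_4481e3_q12.Hi
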