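import Pool.Agent.W_4481e3_q12.HiSnd

/-!
Upper bound of the slopes: the constants.
-/

namespace Pool.Agent.W_4481e3_q12.Hi

open Pool.Agent.W_4481e3_q12.Ev (okb)

/-- slope `380` over `8/15`, slope `874` over `2/15` -/
abbrev CC (X Y H A B h : ℕ) : Prop := Cov (HP 6375342080 14663286784) X Y H A B h

lemma tr (d : ℕ) {X Y H A B h n : ℕ} (hb : okb d X Y H A B h = true)
    (hg : Nat.ble 1 (go (hi 6375342080 14663286784) d X Y H A B h n) = true) : CC X Y H A B h :=
  Cov.tree (hi_snd _ _) d hb hg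

end Pool.Agent.W_4481e3_q12.Hi
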