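import Pool.Agent.W_4481e3_q12.PqLo
import Pool.Agent.W_4481e3_q42.RowsT
import Pool.Agent.W_4481e3_h66.FinF

/-!
Period certificates of all the rows of the table, and the flat row.
-/

namespace Pool.Agent.W_4481e3_q12.Pq

open Pool.Agent.W_4481e3_q46 Pool.Agent.W_4481e3_q59 Pool.Agent.W_4481e3_q59.PEv
open Pool.Agent.W_4481e3_q42.Glue (mkR rowPer_of_perQ rs)

/-- a row of the table from the data of a period tree -/
lemma rowPer_mk {ε : ℂ} {D : PD} {A : ℝ} {h : ℕ} {lo hi lo' c1 c2 c3 c0 b1 b2 b3 b0 h' : ℝ}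
    (hP : PerQ ε 1 A ((h : ℕ) / 16777216) (99 / 100) D.κ D.β) (hA : Lam * hi ≤ A) (hh : h' = (h : ℝ) / 16777216)
    (e0 : c1 = D.k0 / 16777216) (e1 : c2 = D.k1 / 16777216) (e2 : c3 = D.k2 / 16777216)
    (e3 : c0 = D.k3 / 16777216) (f0 : Lam * hi ≤ b1) (f1 : b2 = D.b1 / 16777216)
    (f2 : b3 = D.b2 / 16777216) (f3 : b0 = D.b3 / 16777216) :
    RowPer ε (mkR lo c1 c2 c3 c0 b1 b2 b3 b0 h') lo' hi := by
  refine rowPer_of_perQ hP hA (by norm_num) (by norm_num) ?_ ?_ ?_ ?_ ?_ ?_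
  · simp [mkR, hh]
  · intro j h1 h4
    interval_cases j <;> simp [mkR, hh] <;> norm_num
  · simp [mkR, PD.κ, e0]
  · intro j h1 h4
    interval_cases j <;> simp [mkR, PD.κ, e1, e2, e3]
  · simpa [mkR] using f0
  · intro j h1 h4
    interval_cases j <;> simp [mkR, PD.β, f1, f2, f3]

lemma per1 {ε : ℂ} (h : Par ε) {lo : ℝ} : RowPer ε Pool.Agent.W_4481e3_q42.Glue.R1 lo (23183 / 8192) := by
  unfold Pool.Agent.W_4481e3_q42.Glue.R1
  refine rowPer_mk (row283 h) ?_ ?_ ?_ ?_ ?_ ?_ ?_ ?_ ?_ ?_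
  · unfold Lam; norm_num
  · norm_num
  · show _ = ((10368319488 : ℕ) : ℝ) / 16777216; norm_num
  · show _ = ((10519314432 : ℕ) : ℝ) / 16777216; norm_num
  · show _ = ((11274289152 : ℕ) : ℝ) / 16777216; norm_num
  · show _ = ((10603200512 : ℕ) : ℝ) / 16777216; norm_num
  · unfold Lam; norm_num
  · show _ = ((461373440 : ℕ) : ℝ) / 16777216; norm_num
  · show _ = ((318767104 : ℕ) : ℝ) / 16777216; norm_num
  · show _ = ((364904448 : ℕ) : ℝ) / 16777216; norm_num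

lemma per2 {ε : ℂ} (h : Par ε) {lo : ℝ} : RowPer ε Pool.Agent.W_4481e3_q42.Glue.R2 lo (4) := by
  unfold Pool.Agent.W_4481e3_q42.Glue.R2
  refine rowPer_mk (row4 h) ?_ ?_ ?_ ?_ ?_ ?_ ?_ ?_ ?_ ?_
  · unfold Lam; norm_num
  · norm_num
  · show _ = ((11358175232 : ℕ) : ℝ) / 16777216; norm_num
  · show _ = ((11710496768 : ℕ) : ℝ) / 16777216; norm_num
  · show _ = ((12180258816 : ℕ) : ℝ) / 16777216; norm_num
  · show _ = ((11475615744 : ℕ) : ℝ) / 16777216; norm_num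
  · unfold Lam; norm_num
  · show _ = ((494927872 : ℕ) : ℝ) / 16777216; norm_num
  · show _ = ((335544320 : ℕ) : ℝ) / 16777216; norm_num
  · show _ = ((394264576 : ℕ) : ℝ) / 16777216; norm_num

lemma per3 {ε : ℂ} (h : Par ε) {lo : ℝ} : RowPer ε Pool.Agent.W_4481e3_q42.Glue.R3 lo (92733 / 16384) := by
  unfold Pool.Agent.W_4481e3_q42.Glue.R3
  refine rowPer_mk (row566 h) ?_ ?_ ?_ ?_ ?_ ?_ ?_ ?_ ?_ ?_
  · unfold Lam; norm_num
  · norm_num
  · show _ = ((11374952448 : ℕ) : ℝ) / 16777216; norm_num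
  · show _ = ((12163481600 : ℕ) : ℝ) / 16777216; norm_num
  · show _ = ((12918456320 : ℕ) : ℝ) / 16777216; norm_num
  · show _ = ((11928600576 : ℕ) : ℝ) / 16777216; norm_num
  · unfold Lam; norm_num
  · show _ = ((541065216 : ℕ) : ℝ) / 16777216; norm_num
  · show _ = ((360710144 : ℕ) : ℝ) / 16777216; norm_num
  · show _ = ((427819008 : ℕ) : ℝ) / 16777216; norm_num

lemma per4 {ε : ℂ} (h : Par ε) {lo : ℝ} : RowPer ε Pool.Agent.W_4481e3_q42.Glue.R4 lo (8) := by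
  unfold Pool.Agent.W_4481e3_q42.Glue.R4
  refine rowPer_mk (row8 h) ?_ ?_ ?_ ?_ ?_ ?_ ?_ ?_ ?_ ?_
  · unfold Lam; norm_num
  · norm_num
  · show _ = ((13035896832 : ℕ) : ℝ) / 16777216; norm_num
  · show _ = ((14327742464 : ℕ) : ℝ) / 16777216; norm_num
  · show _ = ((14680064000 : ℕ) : ℝ) / 16777216; norm_num
  · show _ = ((13572767744 : ℕ) : ℝ) / 16777216; norm_num
  · unfold Lam; norm_num
  · show _ = ((603979776 : ℕ) : ℝ) / 16777216; norm_num
  · show _ = ((390070272 : ℕ) : ℝ) / 16777216; norm_num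
  · show _ = ((478150656 : ℕ) : ℝ) / 16777216; norm_num

lemma per5 {ε : ℂ} (h : Par ε) {lo : ℝ} : RowPer ε Pool.Agent.W_4481e3_q42.Glue.R5 lo (185139 / 16384) := by
  unfold Pool.Agent.W_4481e3_q42.Glue.R5
  refine rowPer_mk (row113 h) ?_ ?_ ?_ ?_ ?_ ?_ ?_ ?_ ?_ ?_
  · unfold Lam; norm_num
  · norm_num
  · show _ = ((15804137472 : ℕ) : ℝ) / 16777216; norm_num
  · show _ = ((17884512256 : ℕ) : ℝ) / 16777216; norm_num
  · show _ = ((17246978048 : ℕ) : ℝ) / 16777216; norm_num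
  · show _ = ((16022241280 : ℕ) : ℝ) / 16777216; norm_num
  · unfold Lam; norm_num
  · show _ = ((696254464 : ℕ) : ℝ) / 16777216; norm_num
  · show _ = ((427819008 : ℕ) : ℝ) / 16777216; norm_num
  · show _ = ((536870912 : ℕ) : ℝ) / 16777216; norm_num

lemma per6 {ε : ℂ} (h : Par ε) {lo : ℝ} : RowPer ε Pool.Agent.W_4481e3_q42.Glue.R6 lo (16) := by
  unfold Pool.Agent.W_4481e3_q42.Glue.R6
  refine rowPer_mk (row16 h) ?_ ?_ ?_ ?_ ?_ ?_ ?_ ?_ ?_ ?_
  · unfold Lam; norm_num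
  · norm_num
  · show _ = ((20216545280 : ℕ) : ℝ) / 16777216; norm_num
  · show _ = ((23555211264 : ℕ) : ℝ) / 16777216; norm_num
  · show _ = ((21088960512 : ℕ) : ℝ) / 16777216; norm_num
  · show _ = ((19763560448 : ℕ) : ℝ) / 16777216; norm_num
  · unfold Lam; norm_num
  · show _ = ((826277888 : ℕ) : ℝ) / 16777216; norm_num
  · show _ = ((473956352 : ℕ) : ℝ) / 16777216; norm_num
  · show _ = ((612368384 : ℕ) : ℝ) / 16777216; norm_num

lemma per7 {ε : ℂ} (h : Par ε) {lo : ℝ} : RowPer ε Pool.Agent.W_4481e3_q42.Glue.R7 lo (185139 / 8192) := by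
  unfold Pool.Agent.W_4481e3_q42.Glue.R7
  refine rowPer_mk (row226 h) ?_ ?_ ?_ ?_ ?_ ?_ ?_ ?_ ?_ ?_
  · unfold Lam; norm_num
  · norm_num
  · show _ = ((25534922752 : ℕ) : ℝ) / 16777216; norm_num
  · show _ = ((31054626816 : ℕ) : ℝ) / 16777216; norm_num
  · show _ = ((26055016448 : ℕ) : ℝ) / 16777216; norm_num
  · show _ = ((24310185984 : ℕ) : ℝ) / 16777216; norm_num
  · unfold Lam; norm_num
  · show _ = ((1010827264 : ℕ) : ℝ) / 16777216; norm_num
  · show _ = ((536870912 : ℕ) : ℝ) / 16777216; norm_num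
  · show _ = ((713031680 : ℕ) : ℝ) / 16777216; norm_num

lemma per8 {ε : ℂ} (h : Par ε) {lo : ℝ} : RowPer ε Pool.Agent.W_4481e3_q42.Glue.R8 lo (32) := by
  unfold Pool.Agent.W_4481e3_q42.Glue.R8
  refine rowPer_mk (row32 h) ?_ ?_ ?_ ?_ ?_ ?_ ?_ ?_ ?_ ?_
  · unfold Lam; norm_num
  · norm_num
  · show _ = ((37916508160 : ℕ) : ℝ) / 16777216; norm_num
  · show _ = ((46976204800 : ℕ) : ℝ) / 16777216; norm_num
  · show _ = ((34728837120 : ℕ) : ℝ) / 16777216; norm_num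
  · show _ = ((32849788928 : ℕ) : ℝ) / 16777216; norm_num
  · unfold Lam; norm_num
  · show _ = ((1270874112 : ℕ) : ℝ) / 16777216; norm_num
  · show _ = ((612368384 : ℕ) : ℝ) / 16777216; norm_num
  · show _ = ((843055104 : ℕ) : ℝ) / 16777216; norm_num

lemma per9 {ε : ℂ} (h : Par ε) {lo : ℝ} : RowPer ε Pool.Agent.W_4481e3_q42.Glue.R9 lo (742195 / 16384) := by
  unfold Pool.Agent.W_4481e3_q42.Glue.R9
  refine rowPer_mk (row453 h) ?_ ?_ ?_ ?_ ?_ ?_ ?_ ?_ ?_ ?_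
  · unfold Lam; norm_num
  · norm_num
  · show _ = ((58216939520 : ℕ) : ℝ) / 16777216; norm_num
  · show _ = ((73484206080 : ℕ) : ℝ) / 16777216; norm_num
  · show _ = ((47982837760 : ℕ) : ℝ) / 16777216; norm_num
  · show _ = ((47311749120 : ℕ) : ℝ) / 16777216; norm_num
  · unfold Lam; norm_num
  · show _ = ((1639972864 : ℕ) : ℝ) / 16777216; norm_num
  · show _ = ((713031680 : ℕ) : ℝ) / 16777216; norm_num
  · show _ = ((1015021568 : ℕ) : ℝ) / 16777216; norm_num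

lemma per10 {ε : ℂ} (h : Par ε) {lo : ℝ} : RowPer ε Pool.Agent.W_4481e3_q42.Glue.R10 lo (64) := by
  unfold Pool.Agent.W_4481e3_q42.Glue.R10
  refine rowPer_mk (row64 h) ?_ ?_ ?_ ?_ ?_ ?_ ?_ ?_ ?_ ?_
  · unfold Lam; norm_num
  · norm_num
  · show _ = ((92610232320 : ℕ) : ℝ) / 16777216; norm_num
  · show _ = ((119453777920 : ℕ) : ℝ) / 16777216; norm_num
  · show _ = ((69122129920 : ℕ) : ℝ) / 16777216; norm_num
  · show _ = ((70799851520 : ℕ) : ℝ) / 16777216; norm_num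
  · unfold Lam; norm_num
  · show _ = ((2160066560 : ℕ) : ℝ) / 16777216; norm_num
  · show _ = ((843055104 : ℕ) : ℝ) / 16777216; norm_num
  · show _ = ((1237319680 : ℕ) : ℝ) / 16777216; norm_num

lemma per11 {ε : ℂ} (h : Par ε) {lo : ℝ} : RowPer ε Pool.Agent.W_4481e3_q42.Glue.R11 lo (181 / 2) := by
  unfold Pool.Agent.W_4481e3_q42.Glue.R11
  refine rowPer_mk (row90 h) ?_ ?_ ?_ ?_ ?_ ?_ ?_ ?_ ?_ ?_
  · unfold Lam; norm_num
  · norm_num
  · show _ = ((138579804160 : ℕ) : ℝ) / 16777216; norm_num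
  · show _ = ((188408135680 : ℕ) : ℝ) / 16777216; norm_num
  · show _ = ((100159979520 : ℕ) : ℝ) / 16777216; norm_num
  · show _ = ((104522055680 : ℕ) : ℝ) / 16777216; norm_num
  · unfold Lam; norm_num
  · show _ = ((2894069760 : ℕ) : ℝ) / 16777216; norm_num
  · show _ = ((1048576000 : ℕ) : ℝ) / 16777216; norm_num
  · show _ = ((1518338048 : ℕ) : ℝ) / 16777216; norm_num

lemma per12 {ε : ℂ} (h : Par ε) {lo : ℝ} : RowPer ε Pool.Agent.W_4481e3_q42.Glue.R12 lo (128) := by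
  unfold Pool.Agent.W_4481e3_q42.Glue.R12
  refine rowPer_mk (row128 h) ?_ ?_ ?_ ?_ ?_ ?_ ?_ ?_ ?_ ?_
  · unfold Lam; norm_num
  · norm_num
  · show _ = ((232867758080 : ℕ) : ℝ) / 16777216; norm_num
  · show _ = ((326316851200 : ℕ) : ℝ) / 16777216; norm_num
  · show _ = ((156028108800 : ℕ) : ℝ) / 16777216; norm_num
  · show _ = ((168107704320 : ℕ) : ℝ) / 16777216; norm_num
  · unfold Lam; norm_num
  · show _ = ((3934257152 : ℕ) : ℝ) / 16777216; norm_num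
  · show _ = ((1346371584 : ℕ) : ℝ) / 16777216; norm_num
  · show _ = ((1891631104 : ℕ) : ℝ) / 16777216; norm_num

lemma per13 {ε : ℂ} (h : Par ε) {lo : ℝ} : RowPer ε Pool.Agent.W_4481e3_q42.Glue.R13 lo (181) := by
  unfold Pool.Agent.W_4481e3_q42.Glue.R13
  refine rowPer_mk (row181 h) ?_ ?_ ?_ ?_ ?_ ?_ ?_ ?_ ?_ ?_
  · unfold Lam; norm_num
  · norm_num
  · show _ = ((371112017920 : ℕ) : ℝ) / 16777216; norm_num
  · show _ = ((551970406400 : ℕ) : ℝ) / 16777216; norm_num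
  · show _ = ((245115125760 : ℕ) : ℝ) / 16777216; norm_num
  · show _ = ((262898974720 : ℕ) : ℝ) / 16777216; norm_num
  · unfold Lam; norm_num
  · show _ = ((5406457856 : ℕ) : ℝ) / 16777216; norm_num
  · show _ = ((1769996288 : ℕ) : ℝ) / 16777216; norm_num
  · show _ = ((2449473536 : ℕ) : ℝ) / 16777216; norm_num

lemma per14 {ε : ℂ} (h : Par ε) {lo : ℝ} : RowPer ε Pool.Agent.W_4481e3_q42.Glue.R14 lo (256) := by
  unfold Pool.Agent.W_4481e3_q42.Glue.R14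
  refine rowPer_mk (row256 h) ?_ ?_ ?_ ?_ ?_ ?_ ?_ ?_ ?_ ?_
  · unfold Lam; norm_num
  · norm_num
  · show _ = ((668068741120 : ℕ) : ℝ) / 16777216; norm_num
  · show _ = ((1016363745280 : ℕ) : ℝ) / 16777216; norm_num
  · show _ = ((411545108480 : ℕ) : ℝ) / 16777216; norm_num
  · show _ = ((439227514880 : ℕ) : ℝ) / 16777216; norm_num
  · unfold Lam; norm_num
  · show _ = ((7491026944 : ℕ) : ℝ) / 16777216; norm_num
  · show _ = ((2361393152 : ℕ) : ℝ) / 16777216; norm_num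
  · show _ = ((3288334336 : ℕ) : ℝ) / 16777216; norm_num

lemma per15 {ε : ℂ} (h : Par ε) {lo : ℝ} : RowPer ε Pool.Agent.W_4481e3_q42.Glue.R15 lo (362) := by
  unfold Pool.Agent.W_4481e3_q42.Glue.R15
  refine rowPer_mk (row362 h) ?_ ?_ ?_ ?_ ?_ ?_ ?_ ?_ ?_ ?_
  · unfold Lam; norm_num
  · norm_num
  · show _ = ((1200409804800 : ℕ) : ℝ) / 16777216; norm_num
  · show _ = ((1875189432320 : ℕ) : ℝ) / 16777216; norm_num
  · show _ = ((701790945280 : ℕ) : ℝ) / 16777216; norm_num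
  · show _ = ((779972771840 : ℕ) : ℝ) / 16777216; norm_num
  · unfold Lam; norm_num
  · show _ = ((10431234048 : ℕ) : ℝ) / 16777216; norm_num
  · show _ = ((3212836864 : ℕ) : ℝ) / 16777216; norm_num
  · show _ = ((4513071104 : ℕ) : ℝ) / 16777216; norm_num

lemma per16 {ε : ℂ} (h : Par ε) {lo : ℝ} : RowPer ε Pool.Agent.W_4481e3_q42.Glue.R16 lo (512) := by
  unfold Pool.Agent.W_4481e3_q42.Glue.R16
  refine rowPer_mk (row512 h) ?_ ?_ ?_ ?_ ?_ ?_ ?_ ?_ ?_ ?_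
  · unfold Lam; norm_num
  · norm_num
  · show _ = ((2328509808640 : ℕ) : ℝ) / 16777216; norm_num
  · show _ = ((3643340226560 : ℕ) : ℝ) / 16777216; norm_num
  · show _ = ((1263659909120 : ℕ) : ℝ) / 16777216; norm_num
  · show _ = ((1463979868160 : ℕ) : ℝ) / 16777216; norm_num
  · unfold Lam; norm_num
  · show _ = ((14596177920 : ℕ) : ℝ) / 16777216; norm_num
  · show _ = ((4408213504 : ℕ) : ℝ) / 16777216; norm_num
  · show _ = ((6253707264 : ℕ) : ℝ) / 16777216; norm_num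

lemma per17 {ε : ℂ} (h : Par ε) {lo : ℝ} : RowPer ε Pool.Agent.W_4481e3_q42.Glue.R17 lo (724) := by
  unfold Pool.Agent.W_4481e3_q42.Glue.R17
  refine rowPer_mk (row724 h) ?_ ?_ ?_ ?_ ?_ ?_ ?_ ?_ ?_ ?_
  · unfold Lam; norm_num
  · norm_num
  · show _ = ((4584542044160 : ℕ) : ℝ) / 16777216; norm_num
  · show _ = ((7169407713280 : ℕ) : ℝ) / 16777216; norm_num
  · show _ = ((2362232012800 : ℕ) : ℝ) / 16777216; norm_num
  · show _ = ((2816391249920 : ℕ) : ℝ) / 16777216; norm_num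
  · unfold Lam; norm_num
  · show _ = ((20480786432 : ℕ) : ℝ) / 16777216; norm_num
  · show _ = ((6081740800 : ℕ) : ℝ) / 16777216; norm_num
  · show _ = ((8644460544 : ℕ) : ℝ) / 16777216; norm_num

lemma per18 {ε : ℂ} (h : Par ε) {lo : ℝ} : RowPer ε Pool.Agent.W_4481e3_q42.Glue.R18 lo (884) := by
  unfold Pool.Agent.W_4481e3_q42.Glue.R18
  refine rowPer_mk (row884 h) ?_ ?_ ?_ ?_ ?_ ?_ ?_ ?_ ?_ ?_
  · unfold Lam; norm_num
  · norm_num
  · show _ = ((6814234050560 : ℕ) : ℝ) / 16777216; norm_num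
  · show _ = ((10644304691200 : ℕ) : ℝ) / 16777216; norm_num
  · show _ = ((3448053432320 : ℕ) : ℝ) / 16777216; norm_num
  · show _ = ((4133906022400 : ℕ) : ℝ) / 16777216; norm_num
  · unfold Lam; norm_num
  · show _ = ((24926748672 : ℕ) : ℝ) / 16777216; norm_num
  · show _ = ((7340032000 : ℕ) : ℝ) / 16777216; norm_num
  · show _ = ((10452205568 : ℕ) : ℝ) / 16777216; norm_num

/-- **Period certificates of all the rows.** -/
theorem hper (ε : ℂ) (h : Par ε) : AllRows (RowPer ε) 884 Pool.Agent.W_4481e3_q42.Glue.R1 rs :=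
  ⟨per1 h, per2 h, per3 h, per4 h, per5 h, per6 h, per7 h, per8 h, per9 h, per10 h, per11 h, per12 h, per13 h, per14 h, per15 h, per16 h, per17 h, per18 h⟩

/-- **The flat regime.** -/
theorem loStmt2 : LoStmt 2 := by
  refine Pool.Agent.W_4481e3_h66.loStmt_two fun ε h => ⟨99 / 100, R2.D.κ, R2.D.β, by norm_num, by norm_num, ?_, ?_, ?_⟩
  · show 0 < (if (0:ℕ) = 0 then (((8640266240 : ℕ) : ℝ)) else _) / 16777216
    norm_num
  · show (if (0:ℕ) = 0 then (((8640266240 : ℕ) : ℝ)) else _) / 16777216 ≤ 562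
    norm_num
  · have h2 := row2 h
    have e1 : (202 : ℝ) / 100 = 101 / 100 * 2 := by norm_num
    have e2 : (1 : ℝ) / 1024 = (16384 : ℕ) / 16777216 := by norm_num
    rw [e1, e2]
    exact h2

end Pool.Agent.W_4481e3_q12.Pq
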