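import Pool.Agent.W_4481e3_q42.SndK

/-!
Packed first order step: norms and radius.
-/

namespace Pool.Agent.W_4481e3_q12.Pn

open Complex
open Pool.Agent.W_MP_4481e3_an.Ev (gd nrm1 pt gd_true div_lower div_upper
  nrm1_sound norm_pt_sq norm_le_sqrt_two ndiv_eq)
open Pool.Agent.W_4481e3_q12.Ev (stp)
open Pool.Agent.W_4481e3_q42.Ev (cf k0 InF)

/-- the square root from above: rational start and one Newton step -/
def rt (N : ℕ) : ℕ :=
  nrm1 N (Nat.sub 99421782 (Nat.div 219448370458952413080453 (Nat.add N 2336242306698444)))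

lemma rt_sound {N : ℕ} {x : ℝ} (h : x ^ 2 ≤ N) : x ≤ rt N := by
  unfold rt
  apply nrm1_sound _ h
  simp only [Nat.add_eq, Nat.sub_eq, ndiv_eq]
  have h1 : 219448370458952413080453 / (N + 2336242306698444) ≤
      219448370458952413080453 / 2336242306698444 := Nat.div_le_div_left (by omega) (by norm_num)
  norm_num at h1
  omega

/-- the analytic half of the step: `z'`, `ε'` are the rounded new centre and coefficient,
`w` bounds `2^24 - 2 q z`, `R` the old total radius -/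
theorem ana {C : ℕ} {c q : ℝ} (hC : C ≤ 16777216) (hc : |c| ≤ 1) (hqa : |q| = (C:ℝ) / 16777216)
    (hcq : |c - q| ≤ 1 / 16777216) {X Y t te r nE R w : ℕ} {E W z ε z' ε' : ℂ}
    (hX : X ≤ 4194304) (hY : Y ≤ 4194304) (ht : t ≤ 16777216) (hte : (t:ℝ) * 3 / 131072 + 36 ≤ te)
    (hE : ‖E - k0 X Y‖ ≤ t) (hW : ‖W - (z + ε * (E - k0 X Y))‖ ≤ r)
    (hε : ‖ε‖ * 65536 ≤ nE) (hnE : nE ≤ 16777216) (hR : (nE:ℝ) * t / 65536 + r ≤ R)
    (hN : ‖z‖ ^ 2 + 33554432 * R ≤ 7318349394477056)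
    (hz' : ‖z' - (z + (q:ℂ) * (k0 X Y - z ^ 2 / 16777216))‖ ≤ 3)
    (hε' : ‖ε' - (ε + (q:ℂ) - 2 * (q:ℂ) * (z / 16777216 * ε))‖ * 65536 ≤ 3 / 2)
    (hw : ‖16777216 - 2 * (q:ℂ) * z‖ ≤ w) :
    ‖stp c E W - (z' + ε' * (E - k0 X Y))‖ ≤
      ((w * r + 25 * R + C * (R * R / 16777216 + 1)) / 16777216 + te : ℕ) := by
  have hr0 : (0:ℝ) ≤ r := Nat.cast_nonneg _
  have hR0 : (0:ℝ) ≤ R := Nat.cast_nonneg _
  have hR1 : (R:ℝ) ≤ 218103808 := by nlinarith [sq_nonneg ‖z‖]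
  have hz26 : ‖z‖ ^ 2 ≤ 7318349394477056 := by linarith
  have hz4 : ‖z‖ ≤ 86000000 := by
    have e1 : ‖z‖ ^ 2 ≤ 86000000 ^ 2 := by linarith
    exact le_of_sq_le_sq e1 (by norm_num)
  have h16 : ‖(16777216 : ℂ)‖ = 16777216 := by simp
  have hk2 : ‖k0 X Y‖ ≤ 6291456 := by
    have hX' : (X:ℝ) ≤ 4194304 := by exact_mod_cast hX
    have hY' : (Y:ℝ) ≤ 4194304 := by exact_mod_cast hY
    have e1 : ‖k0 X Y‖ ≤ 3 / 2 * 4194304 := by
      apply norm_le_sqrt_two
      · unfold k0; simp only [Nat.abs_cast]; exact hX'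
      · unfold k0; simp only [Nat.abs_cast]; exact hY'
    linarith
  clear hX hY
  set kk : ℂ := k0 X Y with hk0
  clear_value kk
  have hsq : ‖z ^ 2 / 16777216‖ ≤ 436207616 := by
    rw [norm_div, norm_pow, h16, div_le_iff₀ (by norm_num)]
    linarith
  have hkz : ‖kk - z ^ 2 / 16777216‖ ≤ 442499072 := by
    refine (norm_sub_le _ _).trans ?_
    linarith
  have hnE2 : (nE:ℝ) ≤ 16777216 := by exact_mod_cast hnE
  have hCr : (C:ℝ) ≤ 16777216 := by exact_mod_cast hC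
  have hC0 : (0:ℝ) ≤ C := Nat.cast_nonneg _
  have hq1 : |q| ≤ 1 := by
    rw [hqa, div_le_one (by norm_num)]; exact hCr
  set Fc : ℂ := (16777216 - 2 * (q:ℂ) * z) with hFc
  have ht' : (t:ℝ) ≤ 16777216 := by exact_mod_cast ht
  have ht0 : (0:ℝ) ≤ t := Nat.cast_nonneg _
  set η := E - kk with hη
  set u := W - (z + ε * η) with hu
  have hEη : E = kk + η := by rw [hη]; ring
  have hWu : W = z + ε * η + u := by rw [hu]; ring
  have hM : ‖ε * η‖ ≤ nE * t / 65536 := by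
    rw [norm_mul]
    have e5 : ‖ε‖ ≤ nE / 65536 := by rw [le_div_iff₀ (by norm_num)]; exact hε
    have e6 : ‖ε‖ * ‖η‖ ≤ nE / 65536 * t := mul_le_mul e5 hE (norm_nonneg _) (by positivity)
    have e7 : (nE:ℝ) / 65536 * t = nE * t / 65536 := by ring
    linarith
  have hRu : ‖ε * η + u‖ ≤ R := by
    refine (norm_add_le _ _).trans ?_
    linarith
  -- the rounding errors
  set δ1 := z' - (z + (q:ℂ) * (kk - z ^ 2 / 16777216)) with hδ1
  set δ2 := ε' - (ε + (q:ℂ) - 2 * (q:ℂ) * (z / 16777216 * ε)) with hδ2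
  have hz'e : z' = z + (q:ℂ) * (kk - z ^ 2 / 16777216) + δ1 := by rw [hδ1]; ring
  have hε'e : ε' = ε + (q:ℂ) - 2 * (q:ℂ) * (z / 16777216 * ε) + δ2 := by rw [hδ2]; ring
  clear_value δ1 δ2
  clear hδ1 hδ2
  -- radius
  have hrr := div_lower (w * r + 25 * R + C * (R * R / 16777216 + 1)) 16777216 (by norm_num)
  have hrr2 := div_lower (R * R) 16777216 (by norm_num)
  push_cast at hrr hrr2 ⊢
  have hdec : stp c E W - (z' + ε' * η) =
      ((((c - q : ℝ) : ℂ) * (kk - z ^ 2 / 16777216) + ((c - q : ℝ) : ℂ) * η) - δ1) +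
      (-(δ2 * η) + u * (Fc / 16777216)) +
      (-(2 * ((c - q : ℝ) : ℂ) * z * (ε * η + u) / 16777216) - (c:ℂ) * (ε * η + u) ^ 2 / 16777216) := by
    rw [hz'e, hε'e, hFc]
    unfold stp
    rw [hWu, hEη]
    push_cast
    ring
  have hcn : |c| ≤ (C:ℝ) / 16777216 + 1 / 16777216 := by
    have : c = q + (c - q) := by ring
    rw [this]
    refine (abs_add_le _ _).trans ?_
    rw [hqa]
    linarith
  have n1 : ‖((c - q : ℝ) : ℂ) * (kk - z ^ 2 / 16777216)‖ ≤ 27 := by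
    rw [norm_mul, Complex.norm_real, Real.norm_eq_abs]
    calc |c - q| * ‖kk - z ^ 2 / 16777216‖ ≤ 1 / 16777216 * 442499072 :=
          mul_le_mul hcq hkz (norm_nonneg _) (by norm_num)
      _ ≤ 27 := by norm_num
  have n1' : ‖((c - q : ℝ) : ℂ) * η‖ ≤ 1 := by
    rw [norm_mul, Complex.norm_real, Real.norm_eq_abs]
    calc |c - q| * ‖η‖ ≤ 1 / 16777216 * 16777216 :=
          mul_le_mul hcq (hE.trans ht') (norm_nonneg _) (by norm_num)
      _ = 1 := by norm_num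
  have n6 : ‖-(δ2 * η)‖ ≤ (t:ℝ) * 3 / 131072 := by
    rw [norm_neg, norm_mul]
    have e6 : ‖δ2‖ ≤ (3 / 2) / 65536 := by rw [le_div_iff₀ (by norm_num)]; exact hε'
    calc ‖δ2‖ * ‖η‖ ≤ (3 / 2) / 65536 * t :=
          mul_le_mul e6 hE (norm_nonneg _) (by norm_num)
      _ = _ := by ring
  have n2 : ‖u * (Fc / 16777216)‖ ≤ w * r / 16777216 := by
    rw [norm_mul, norm_div, h16]
    calc ‖u‖ * (‖Fc‖ / 16777216) ≤ r * (w / 16777216) := by
          apply mul_le_mul hW _ (by positivity) hr0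
          exact div_le_div_of_nonneg_right hw (by norm_num)
      _ = _ := by ring
  have h2n : ‖(2:ℂ)‖ = 2 := by simp
  have n5 : ‖-(2 * ((c - q : ℝ) : ℂ) * z * (ε * η + u) / 16777216)‖ ≤ 11 * R / 16777216 := by
    rw [norm_neg, norm_div, norm_mul, norm_mul, norm_mul, h2n, h16, Complex.norm_real, Real.norm_eq_abs]
    apply div_le_div_of_nonneg_right _ (by norm_num)
    apply mul_le_mul _ hRu (norm_nonneg _) (by norm_num)
    calc 2 * |c - q| * ‖z‖ ≤ 2 * (1 / 16777216) * 86000000 := by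
          apply mul_le_mul _ hz4 (norm_nonneg _) (by norm_num)
          linarith
      _ ≤ 11 := by norm_num
  have n7 : ‖(c:ℂ) * (ε * η + u) ^ 2 / 16777216‖ ≤ (C:ℝ) * (R * R / 16777216) / 16777216 +
      13 * R / 16777216 := by
    rw [norm_div, norm_mul, norm_pow, h16, Complex.norm_real, Real.norm_eq_abs]
    have e5 : ‖ε * η + u‖ ^ 2 ≤ (R:ℝ) * R := by
      rw [pow_two]; exact mul_le_mul hRu hRu (norm_nonneg _) hR0
    have e6 : |c| * ‖ε * η + u‖ ^ 2 ≤ ((C:ℝ) / 16777216 + 1 / 16777216) * (R * R) :=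
      mul_le_mul hcn e5 (by positivity) (by positivity)
    have e7 : (R:ℝ) * R ≤ 218103808 * R := mul_le_mul_of_nonneg_right hR1 hR0
    have e8 : |c| * ‖ε * η + u‖ ^ 2 / 16777216 ≤ ((C:ℝ) / 16777216 + 1 / 16777216) * (R * R) / 16777216 :=
      div_le_div_of_nonneg_right e6 (by norm_num)
    refine e8.trans ?_
    have e9 : ((C:ℝ) / 16777216 + 1 / 16777216) * (R * R) / 16777216 =
      (C:ℝ) * (R * R / 16777216) / 16777216 + (R * R / 16777216) / 16777216 := by ring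
    rw [e9]
    have e10 : (R * R / 16777216 : ℝ) / 16777216 ≤ 13 * R / 16777216 := by
      apply div_le_div_of_nonneg_right _ (by norm_num)
      rw [div_le_iff₀ (by norm_num)]
      linarith
    linarith
  rw [hdec]
  refine (norm_add₃_le).trans ?_
  have m1 := norm_sub_le (((c - q : ℝ) : ℂ) * (kk - z ^ 2 / 16777216) + ((c - q : ℝ) : ℂ) * η) δ1
  have m2 := norm_add_le (((c - q : ℝ) : ℂ) * (kk - z ^ 2 / 16777216)) (((c - q : ℝ) : ℂ) * η)
  have m4 := norm_add_le (-(δ2 * η)) (u * (Fc / 16777216))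
  have m5 := norm_sub_le (-(2 * ((c - q : ℝ) : ℂ) * z * (ε * η + u) / 16777216))
    ((c:ℂ) * (ε * η + u) ^ 2 / 16777216)
  have hfin : w * r / 16777216 + ((C:ℝ) * (R * R / 16777216) / 16777216 + 13 * R / 16777216) +
      11 * R / 16777216 ≤
      (w * r + 25 * R + (C : ℝ) * (((R * R / 16777216 : ℕ) : ℝ) + 1)) / 16777216 := by
    have e3 : (C : ℝ) * (R * R / 16777216) ≤ (C : ℝ) * (((R * R / 16777216 : ℕ) : ℝ) + 1) := by
      apply mul_le_mul_of_nonneg_left _ hC0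
      linarith
    have e4 : w * r / 16777216 + ((C:ℝ) * (R * R / 16777216) / 16777216 + 13 * R / 16777216) +
      11 * R / 16777216 = (w * r + 24 * R + C * (R * R / 16777216)) / 16777216 := by ring
    rw [e4]
    apply div_le_div_of_nonneg_right _ (by norm_num)
    linarith
  linarith

end Pool.Agent.W_4481e3_q12.Pn
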