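import Pool.Agent.W_4481e3_q42.SndK
import Pool.Agent.W_4481e3_h56.Pk

/-!
Packed first order step: norms and radius, in the format of `W_4481e3_h56/Pk.lean`.
-/

namespace Pool.Agent.W_4481e3_q12.PnR

open Complex
open Pool.Agent.W_MP_4481e3_an.Ev (gd nrm1 pt gd_true div_lower div_upper
  nrm1_sound norm_pt_sq norm_le_sqrt_two ndiv_eq)
open Pool.Agent.W_4481e3_q12.Ev (stp)
open Pool.Agent.W_4481e3_q42.Ev (cf k0 InF)
open Pool.Agent.W_4481e3_h56.Pk (nw gg ss mm np nn rr r2 s2)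

lemma shr_eq (a b : ℕ) : Nat.shiftRight a b = a / 2 ^ b := Nat.shiftRight_eq_div_pow a b

/-- Newton step rounded down, with a perturbation -/
lemma nw_sound {N s : ℕ} (hs : 0 < s) {x d : ℝ} (hx : x ^ 2 ≤ N + d) :
    x ≤ nw N s + 1 + d / (2 * s) := by
  unfold nw
  rw [shr_eq]
  simp only [Nat.add_eq, ndiv_eq]
  have h1 := div_lower N s hs
  have h2 := div_lower (s + N / s) 2 (by norm_num)
  have hs' : (0:ℝ) < s := by exact_mod_cast hs
  have h3 : (((N / s : ℕ) : ℝ) + s - 1) / 2 ≤ (((s + N / s) / 2 ^ 1 : ℕ) : ℝ) := by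
    have h4 : (s + N / s) ≤ 2 * ((s + N / s) / 2 ^ 1) + 1 := by omega
    have h5 : (s : ℝ) + ((N / s : ℕ) : ℝ) ≤ 2 * (((s + N / s) / 2 ^ 1 : ℕ) : ℝ) + 1 := by
      exact_mod_cast h4
    linarith
  have h6 : x ≤ ((N + d) / s + s) / 2 := by
    rw [le_div_iff₀ (by norm_num : (0:ℝ) < 2)]
    have h7 : x * 2 * s ≤ N + d + s ^ 2 := by nlinarith [sq_nonneg (x - s)]
    have h8 : ((N + d) / s + s) * s = N + d + s ^ 2 := by field_simp
    nlinarith
  have h9 : (N + d) / s = (N:ℝ) / s + 2 * (d / (2 * s)) := by field_simp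
  push_cast at h1 h3 ⊢
  linarith

lemma nw_sound0 {N s : ℕ} (hs : 0 < s) {x : ℝ} (hx : x ^ 2 ≤ N) : x ≤ nw N s + 1 := by
  have := nw_sound (d := 0) hs (x := x) (N := N) (by linarith)
  simpa using this

lemma half_le_nw (N s : ℕ) : s / 2 ≤ nw N s := by
  unfold nw
  rw [shr_eq]
  simp only [Nat.add_eq, ndiv_eq]
  have : s ≤ s + N / s := Nat.le_add_right _ _
  omega

/-- norm of the factor from its square -/
lemma gg_sound {N : ℕ} {x : ℝ} (hx : x ^ 2 ≤ N) : x ≤ gg N + 1 := by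
  unfold gg
  apply nw_sound0 _ hx
  have h1 := half_le_nw N (Nat.add (Nat.shiftRight N 26) 12582912)
  have h2 : Nat.add (Nat.shiftRight N 26) 12582912 = Nat.shiftRight N 26 + 12582912 := rfl
  rw [h2] at h1 ⊢
  omega

lemma land60 (x : ℕ) : Nat.land x 1152921504606846975 = x % 2 ^ 60 := by
  have := Nat.and_two_pow_sub_one_eq_mod x 60
  norm_num at this
  exact this

/-- squared norm of the factor, positive cosine -/
lemma np_sound {C A V S : ℕ} {q : ℝ} {z : ℂ} (hC : C ≤ 16777216) (hq : q = (C:ℝ) / 16777216)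
    (hA : A ≤ 1073741824) (hz : z.re = (A:ℝ) - 536870912) (hS : (S:ℝ) = ‖z‖ ^ 2)
    (hSb : S ≤ 7318349394477056) (hss : ss V = S)
    (hV : Nat.land V 340282366920938463463374607431768211455 = 281474976710656 * A) :
    ‖16777216 - 2 * (q:ℂ) * z‖ ^ 2 ≤ np C V := by
  unfold np
  rw [land60, shr_eq, hss, hV]
  simp only [Nat.add_eq, Nat.mul_eq, Nat.sub_eq]
  set T := (C * S + 81129638565722409217986396160000 - 281474976710656 * A) / 2 ^ 46 with hT
  have hCr : (C:ℝ) ≤ 16777216 := by exact_mod_cast hC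
  have hC0 : (0:ℝ) ≤ C := Nat.cast_nonneg _
  have hAr : (A:ℝ) ≤ 1073741824 := by exact_mod_cast hA
  have hA0 : (0:ℝ) ≤ A := Nat.cast_nonneg _
  have hSr : (S:ℝ) ≤ 7318349394477056 := by exact_mod_cast hSb
  have hS0 : (0:ℝ) ≤ S := Nat.cast_nonneg _
  have hle : 281474976710656 * A ≤ C * S + 81129638565722409217986396160000 := by
    have : 281474976710656 * A ≤ 281474976710656 * 1073741824 := Nat.mul_le_mul_left _ hA
    omega
  have h1 := div_lower (C * S + 81129638565722409217986396160000 - 281474976710656 * A) (2 ^ 46)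
    (by norm_num)
  have h2 := div_upper (C * S + 81129638565722409217986396160000 - 281474976710656 * A) (2 ^ 46)
  rw [← hT, Nat.cast_sub hle] at h1 h2
  push_cast at h1 h2
  clear_value T
  clear hT hle
  -- the exact value
  have hN : ‖16777216 - 2 * (q:ℂ) * z‖ ^ 2 =
      281474976710656 + C * ((C * S - 281474976710656 * ((A:ℝ) - 536870912)) / 70368744177664) := by
    rw [hS, Complex.sq_norm, Complex.sq_norm, Complex.normSq_apply, Complex.normSq_apply]
    have e1 : 2 * (q:ℂ) * z = ((2 * q : ℝ) : ℂ) * z := by push_cast; ring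
    have e2 : (16777216 : ℂ).re = 16777216 := by norm_num
    have e3 : (16777216 : ℂ).im = 0 := by norm_num
    rw [Complex.sub_re, Complex.sub_im, e1, Complex.re_ofReal_mul, Complex.im_ofReal_mul, e2, e3, hq,
      ← hz]
    ring
  have hlow : (T:ℝ) ≥ 1152921504606846976 +
      (C * S - 281474976710656 * ((A:ℝ) - 536870912)) / 70368744177664 := by
    have e : ((C:ℝ) * S + 81129638565722409217986396160000 - 281474976710656 * A) / 2 ^ 46 =
      1152921504606846976 + 1 + (C * S - 281474976710656 * ((A:ℝ) - 536870912)) / 70368744177664 := by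
      ring
    linarith
  have hup : (T:ℝ) ≤ 1152921504606846976 + 1 +
      (C * S - 281474976710656 * ((A:ℝ) - 536870912)) / 70368744177664 := by
    have e : ((C:ℝ) * S + 81129638565722409217986396160000 - 281474976710656 * A) / 2 ^ 46 =
      1152921504606846976 + 1 + (C * S - 281474976710656 * ((A:ℝ) - 536870912)) / 70368744177664 := by
      ring
    linarith
  set y := (C * S - 281474976710656 * ((A:ℝ) - 536870912)) / 70368744177664 with hy
  have hN0 : 0 ≤ 281474976710656 + C * y := by rw [← hN]; positivity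
  have hCT1 : (C:ℝ) * 1152921504606846976 ≤ C * T + 281474976710656 := by
    have : (C:ℝ) * (1152921504606846976 + y) ≤ C * T := mul_le_mul_of_nonneg_left hlow hC0
    nlinarith
  have hCTn : C * 1152921504606846976 ≤ C * T + 281474976710656 := by exact_mod_cast hCT1
  have hyb : y ≤ 4000000000 := by
    rw [hy, div_le_iff₀ (by norm_num)]
    have : (C:ℝ) * S ≤ 16777216 * 7318349394477056 :=
      mul_le_mul hCr hSr hS0 (by norm_num)
    nlinarith
  have hub : (C * T + 281474976710656 : ℝ) < C * 1152921504606846976 + 1152921504606846976 := by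
    have h3 : (C:ℝ) * T ≤ C * (1152921504606846976 + 1 + y) := mul_le_mul_of_nonneg_left hup hC0
    have h4 : (C:ℝ) * (1 + y) ≤ 16777216 * 4000000001 := by
      apply (mul_le_mul_of_nonneg_left (by linarith : 1 + y ≤ 4000000001) hC0).trans
      exact mul_le_mul_of_nonneg_right hCr (by norm_num)
    nlinarith
  have hubn : C * T + 281474976710656 < C * 1152921504606846976 + 1152921504606846976 := by
    exact_mod_cast hub
  have hmod : (C * T + 281474976710656) % 2 ^ 60 = C * T + 281474976710656 - C * 1152921504606846976 := by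
    have e : C * T + 281474976710656 = (C * T + 281474976710656 - C * 1152921504606846976) +
      (2 ^ 60) * C := by omega
    rw [e, Nat.add_mul_mod_self_left, Nat.mod_eq_of_lt (by omega)]
    omega
  rw [hmod, Nat.cast_sub hCTn, hN]
  push_cast
  have : (C:ℝ) * (1152921504606846976 + y) ≤ C * T := mul_le_mul_of_nonneg_left hlow hC0
  linarith

/-- squared norm of the factor, negative cosine -/
lemma nn_sound {C A V S : ℕ} {q : ℝ} {z : ℂ} (hC : C ≤ 16777216) (hq : q = -((C:ℝ) / 16777216))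
    (hA : A ≤ 1073741824) (hz : z.re = (A:ℝ) - 536870912) (hS : (S:ℝ) = ‖z‖ ^ 2)
    (hSb : S ≤ 7318349394477056) (hss : ss V = S)
    (hV : Nat.land V 340282366920938463463374607431768211455 = 281474976710656 * A) :
    ‖16777216 - 2 * (q:ℂ) * z‖ ^ 2 ≤ nn C V := by
  unfold nn
  rw [land60, shr_eq, hss, hV]
  simp only [Nat.add_eq, Nat.mul_eq]
  set T := (C * S + 81129638263490954314329102483456 + 281474976710656 * A) / 2 ^ 46 with hT
  have hCr : (C:ℝ) ≤ 16777216 := by exact_mod_cast hC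
  have hC0 : (0:ℝ) ≤ C := Nat.cast_nonneg _
  have hAr : (A:ℝ) ≤ 1073741824 := by exact_mod_cast hA
  have hA0 : (0:ℝ) ≤ A := Nat.cast_nonneg _
  have hSr : (S:ℝ) ≤ 7318349394477056 := by exact_mod_cast hSb
  have hS0 : (0:ℝ) ≤ S := Nat.cast_nonneg _
  have h1 := div_lower (C * S + 81129638263490954314329102483456 + 281474976710656 * A) (2 ^ 46)
    (by norm_num)
  have h2 := div_upper (C * S + 81129638263490954314329102483456 + 281474976710656 * A) (2 ^ 46)
  rw [← hT] at h1 h2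
  push_cast at h1 h2
  clear_value T
  clear hT
  -- the exact value
  have hN : ‖16777216 - 2 * (q:ℂ) * z‖ ^ 2 =
      281474976710656 + C * ((C * S + 281474976710656 * ((A:ℝ) - 536870912)) / 70368744177664) := by
    rw [hS, Complex.sq_norm, Complex.sq_norm, Complex.normSq_apply, Complex.normSq_apply]
    have e1 : 2 * (q:ℂ) * z = ((2 * q : ℝ) : ℂ) * z := by push_cast; ring
    have e2 : (16777216 : ℂ).re = 16777216 := by norm_num
    have e3 : (16777216 : ℂ).im = 0 := by norm_num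
    rw [Complex.sub_re, Complex.sub_im, e1, Complex.re_ofReal_mul, Complex.im_ofReal_mul, e2, e3, hq,
      ← hz]
    ring
  have hlow : (T:ℝ) ≥ 1152921504606846976 +
      (C * S + 281474976710656 * ((A:ℝ) - 536870912)) / 70368744177664 := by
    have e : ((C:ℝ) * S + 81129638263490954314329102483456 + 281474976710656 * A) / 2 ^ 46 =
      1152921504606846976 + 1 + (C * S + 281474976710656 * ((A:ℝ) - 536870912)) / 70368744177664 := by
      ring
    linarith
  have hup : (T:ℝ) ≤ 1152921504606846976 + 1 +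
      (C * S + 281474976710656 * ((A:ℝ) - 536870912)) / 70368744177664 := by
    have e : ((C:ℝ) * S + 81129638263490954314329102483456 + 281474976710656 * A) / 2 ^ 46 =
      1152921504606846976 + 1 + (C * S + 281474976710656 * ((A:ℝ) - 536870912)) / 70368744177664 := by
      ring
    linarith
  set y := (C * S + 281474976710656 * ((A:ℝ) - 536870912)) / 70368744177664 with hy
  have hN0 : 0 ≤ 281474976710656 + C * y := by rw [← hN]; positivity
  have hCT1 : (C:ℝ) * 1152921504606846976 ≤ C * T + 281474976710656 := by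
    have : (C:ℝ) * (1152921504606846976 + y) ≤ C * T := mul_le_mul_of_nonneg_left hlow hC0
    nlinarith
  have hCTn : C * 1152921504606846976 ≤ C * T + 281474976710656 := by exact_mod_cast hCT1
  have hyb : y ≤ 4000000000 := by
    rw [hy, div_le_iff₀ (by norm_num)]
    have : (C:ℝ) * S ≤ 16777216 * 7318349394477056 :=
      mul_le_mul hCr hSr hS0 (by norm_num)
    nlinarith
  have hub : (C * T + 281474976710656 : ℝ) < C * 1152921504606846976 + 1152921504606846976 := by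
    have h3 : (C:ℝ) * T ≤ C * (1152921504606846976 + 1 + y) := mul_le_mul_of_nonneg_left hup hC0
    have h4 : (C:ℝ) * (1 + y) ≤ 16777216 * 4000000001 := by
      apply (mul_le_mul_of_nonneg_left (by linarith : 1 + y ≤ 4000000001) hC0).trans
      exact mul_le_mul_of_nonneg_right hCr (by norm_num)
    nlinarith
  have hubn : C * T + 281474976710656 < C * 1152921504606846976 + 1152921504606846976 := by
    exact_mod_cast hub
  have hmod : (C * T + 281474976710656) % 2 ^ 60 = C * T + 281474976710656 - C * 1152921504606846976 := by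
    have e : C * T + 281474976710656 = (C * T + 281474976710656 - C * 1152921504606846976) +
      (2 ^ 60) * C := by omega
    rw [e, Nat.add_mul_mod_self_left, Nat.mod_eq_of_lt (by omega)]
    omega
  rw [hmod, Nat.cast_sub hCTn, hN]
  push_cast
  have : (C:ℝ) * (1152921504606846976 + y) ≤ C * T := mul_le_mul_of_nonneg_left hlow hC0
  linarith


/-- the analytic half of the step, real version -/
theorem ana_real {C : ℕ} {c q r R w t d1 : ℝ} (hC : C ≤ 16777216) (hqa : |q| = (C:ℝ) / 16777216)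
    (hcq : |c - q| ≤ 1 / 16777216) {X Y : ℕ} {nE : ℝ} {E W z ε z' ε' : ℂ}
    (hX : X ≤ 4194304) (hY : Y ≤ 4194304) (ht : t ≤ 16777216) (hr0 : 0 ≤ r) (hR0 : 0 ≤ R)
    (hE : ‖E - k0 X Y‖ ≤ t) (hW : ‖W - (z + ε * (E - k0 X Y))‖ ≤ r)
    (hε : ‖ε‖ * 65536 ≤ nE) (hR : nE * t / 65536 + r ≤ R)
    (hN : ‖z‖ ^ 2 ≤ 7318349394477056) (hRb : R ≤ 218104100)
    (hz' : ‖z' - (z + (q:ℂ) * (k0 X Y - z ^ 2 / 16777216))‖ ≤ d1)
    (hε' : ‖ε' - (ε + (q:ℂ) - 2 * (q:ℂ) * (z / 16777216 * ε))‖ * 65536 ≤ 3 / 2)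
    (hw : ‖16777216 - 2 * (q:ℂ) * z‖ ≤ w) :
    ‖stp c E W - (z' + ε' * (E - k0 X Y))‖ ≤
      (w * r + 25 * R + C * R ^ 2 / 16777216) / 16777216 + 28 + d1 + t * 3 / 131072 := by
  have hz4 : ‖z‖ ≤ 86000000 := by
    have e1 : ‖z‖ ^ 2 ≤ 86000000 ^ 2 := by linarith
    exact le_of_sq_le_sq e1 (by norm_num)
  have h16 : ‖(16777216 : ℂ)‖ = 16777216 := by simp
  have hk2 : ‖k0 X Y‖ ≤ 6291456 := by
    have hX' : (X:ℝ) ≤ 4194304 := by exact_mod_cast hX
    have hY' : (Y:ℝ) ≤ 4194304 := by exact_mod_cast hY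
    have e1 : ‖k0 X Y‖ ≤ 3 / 2 * 4194304 := by
      apply norm_le_sqrt_two
      · unfold k0; simp only [Nat.abs_cast]; exact hX'
      · unfold k0; simp only [Nat.abs_cast]; exact hY'
    linarith
  clear hX hY
  set kk : ℂ := k0 X Y with hk0
  clear_value kk
  have hsq : ‖z ^ 2 / 16777216‖ ≤ 436207616 := by
    rw [norm_div, norm_pow, h16, div_le_iff₀ (by norm_num)]
    linarith
  have hkz : ‖kk - z ^ 2 / 16777216‖ ≤ 442499072 := by
    refine (norm_sub_le _ _).trans ?_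
    linarith
  have hCr : (C:ℝ) ≤ 16777216 := by exact_mod_cast hC
  have hC0 : (0:ℝ) ≤ C := Nat.cast_nonneg _
  have hq1 : |q| ≤ 1 := by
    rw [hqa, div_le_one (by norm_num)]; exact hCr
  have ht0 : (0:ℝ) ≤ t := (norm_nonneg _).trans hE
  have hw0 : (0:ℝ) ≤ w := (norm_nonneg _).trans hw
  set Fc : ℂ := (16777216 - 2 * (q:ℂ) * z) with hFc
  set η := E - kk with hη
  set u := W - (z + ε * η) with hu
  have hEη : E = kk + η := by rw [hη]; ring
  have hWu : W = z + ε * η + u := by rw [hu]; ring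
  have hM : ‖ε * η‖ ≤ nE * t / 65536 := by
    rw [norm_mul]
    have e5 : ‖ε‖ ≤ nE / 65536 := by rw [le_div_iff₀ (by norm_num)]; exact hε
    have e6 : ‖ε‖ * ‖η‖ ≤ nE / 65536 * t :=
      mul_le_mul e5 hE (norm_nonneg _) ((norm_nonneg _).trans e5)
    have e7 : (nE:ℝ) / 65536 * t = nE * t / 65536 := by ring
    linarith
  have hRu : ‖ε * η + u‖ ≤ R := by
    refine (norm_add_le _ _).trans ?_
    linarith
  -- the rounding errors
  set δ1 := z' - (z + (q:ℂ) * (kk - z ^ 2 / 16777216)) with hδ1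
  set δ2 := ε' - (ε + (q:ℂ) - 2 * (q:ℂ) * (z / 16777216 * ε)) with hδ2
  have hz'e : z' = z + (q:ℂ) * (kk - z ^ 2 / 16777216) + δ1 := by rw [hδ1]; ring
  have hε'e : ε' = ε + (q:ℂ) - 2 * (q:ℂ) * (z / 16777216 * ε) + δ2 := by rw [hδ2]; ring
  clear_value δ1 δ2
  clear hδ1 hδ2
  have hdec : stp c E W - (z' + ε' * η) =
      ((((c - q : ℝ) : ℂ) * (kk - z ^ 2 / 16777216) + ((c - q : ℝ) : ℂ) * η) - δ1) +
      (-(δ2 * η) + u * (Fc / 16777216)) +
      (-(2 * ((c - q : ℝ) : ℂ) * z * (ε * η + u) / 16777216) - (c:ℂ) * (ε * η + u) ^ 2 / 16777216) := by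
    rw [hz'e, hε'e, hFc]
    unfold stp
    rw [hWu, hEη]
    push_cast
    ring
  have hcn : |c| ≤ (C:ℝ) / 16777216 + 1 / 16777216 := by
    have : c = q + (c - q) := by ring
    rw [this]
    refine (abs_add_le _ _).trans ?_
    rw [hqa]
    linarith
  have n1 : ‖((c - q : ℝ) : ℂ) * (kk - z ^ 2 / 16777216)‖ ≤ 27 := by
    rw [norm_mul, Complex.norm_real, Real.norm_eq_abs]
    calc |c - q| * ‖kk - z ^ 2 / 16777216‖ ≤ 1 / 16777216 * 442499072 :=
          mul_le_mul hcq hkz (norm_nonneg _) (by norm_num)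
      _ ≤ 27 := by norm_num
  have n1' : ‖((c - q : ℝ) : ℂ) * η‖ ≤ 1 := by
    rw [norm_mul, Complex.norm_real, Real.norm_eq_abs]
    calc |c - q| * ‖η‖ ≤ 1 / 16777216 * 16777216 :=
          mul_le_mul hcq (hE.trans ht) (norm_nonneg _) (by norm_num)
      _ = 1 := by norm_num
  have n6 : ‖-(δ2 * η)‖ ≤ t * 3 / 131072 := by
    rw [norm_neg, norm_mul]
    have e6 : ‖δ2‖ ≤ (3 / 2) / 65536 := by rw [le_div_iff₀ (by norm_num)]; exact hε'
    calc ‖δ2‖ * ‖η‖ ≤ (3 / 2) / 65536 * t :=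
          mul_le_mul e6 hE (norm_nonneg _) (by norm_num)
      _ = _ := by ring
  have n2 : ‖u * (Fc / 16777216)‖ ≤ w * r / 16777216 := by
    rw [norm_mul, norm_div, h16]
    calc ‖u‖ * (‖Fc‖ / 16777216) ≤ r * (w / 16777216) := by
          apply mul_le_mul hW _ (by positivity) hr0
          exact div_le_div_of_nonneg_right hw (by norm_num)
      _ = _ := by ring
  have h2n : ‖(2:ℂ)‖ = 2 := by simp
  have n5 : ‖-(2 * ((c - q : ℝ) : ℂ) * z * (ε * η + u) / 16777216)‖ ≤ 11 * R / 16777216 := by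
    rw [norm_neg, norm_div, norm_mul, norm_mul, norm_mul, h2n, h16, Complex.norm_real, Real.norm_eq_abs]
    apply div_le_div_of_nonneg_right _ (by norm_num)
    apply mul_le_mul _ hRu (norm_nonneg _) (by norm_num)
    calc 2 * |c - q| * ‖z‖ ≤ 2 * (1 / 16777216) * 86000000 := by
          apply mul_le_mul _ hz4 (norm_nonneg _) (by norm_num)
          linarith
      _ ≤ 11 := by norm_num
  have n7 : ‖(c:ℂ) * (ε * η + u) ^ 2 / 16777216‖ ≤ (C * R ^ 2 / 16777216 + 14 * R) / 16777216 := by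
    rw [norm_div, norm_mul, norm_pow, h16, Complex.norm_real, Real.norm_eq_abs]
    apply div_le_div_of_nonneg_right _ (by norm_num)
    have e5 : ‖ε * η + u‖ ^ 2 ≤ R ^ 2 := pow_le_pow_left₀ (norm_nonneg _) hRu 2
    have e6 : |c| * ‖ε * η + u‖ ^ 2 ≤ ((C:ℝ) / 16777216 + 1 / 16777216) * R ^ 2 :=
      mul_le_mul hcn e5 (by positivity) (by positivity)
    have e7 : R ^ 2 ≤ 218104100 * R := by
      rw [pow_two]; exact mul_le_mul_of_nonneg_right hRb hR0
    have e9 : ((C:ℝ) / 16777216 + 1 / 16777216) * R ^ 2 = C * R ^ 2 / 16777216 + R ^ 2 / 16777216 := by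
      ring
    rw [e9] at e6
    have e10 : R ^ 2 / 16777216 ≤ 14 * R := by
      rw [div_le_iff₀ (by norm_num)]
      linarith
    linarith
  rw [hdec]
  refine (norm_add₃_le).trans ?_
  have m1 := norm_sub_le (((c - q : ℝ) : ℂ) * (kk - z ^ 2 / 16777216) + ((c - q : ℝ) : ℂ) * η) δ1
  have m2 := norm_add_le (((c - q : ℝ) : ℂ) * (kk - z ^ 2 / 16777216)) (((c - q : ℝ) : ℂ) * η)
  have m4 := norm_add_le (-(δ2 * η)) (u * (Fc / 16777216))
  have m5 := norm_sub_le (-(2 * ((c - q : ℝ) : ℂ) * z * (ε * η + u) / 16777216))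
    ((c:ℂ) * (ε * η + u) ^ 2 / 16777216)
  have hfin : (w * r + 25 * R + C * R ^ 2 / 16777216) / 16777216 = w * r / 16777216 +
    11 * R / 16777216 + (C * R ^ 2 / 16777216 + 14 * R) / 16777216 := by ring
  linarith

/-- the total radius, up to `1 + t / 65536` -/
lemma rr_sound {t V r s : ℕ} :
    (nw (mm V) s + 1 : ℝ) * t / 65536 + r ≤ rr t V r s + (1 + (t:ℝ) / 65536) := by
  unfold rr
  rw [shr_eq]
  simp only [Nat.add_eq, Nat.mul_eq]
  have h := div_lower (nw (mm V) s * t) (2 ^ 16) (by norm_num)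
  push_cast at h ⊢
  have e : ((nw (mm V) s : ℝ) + 1) * t / 65536 = (nw (mm V) s : ℝ) * t / 2 ^ 16 + t / 65536 := by ring
  rw [e]
  linarith

/-- **the new radius** of helper56's packed step.  `G` is a bound of the factor up to `1`, `R` is
the total radius `rr t V r s` -/
theorem r2_sound {C : ℕ} {c q : ℝ} (hC : C ≤ 16777216) (hqa : |q| = (C:ℝ) / 16777216)
    (hcq : |c - q| ≤ 1 / 16777216) {X Y t te tf r R G : ℕ} {nE : ℝ} {E W z ε z' ε' : ℂ}
    (hX : X ≤ 4194304) (hY : Y ≤ 4194304) (ht : t ≤ 16777216) (hte : (t:ℝ) * 3 / 131072 + 36 ≤ te)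
    (htf : tf = t / 32768 + 32)
    (hE : ‖E - k0 X Y‖ ≤ t) (hW : ‖W - (z + ε * (E - k0 X Y))‖ ≤ r)
    (hε : ‖ε‖ * 65536 ≤ nE) (hR : nE * t / 65536 + r ≤ R + (1 + (t:ℝ) / 65536)) (hrR : r ≤ R)
    (hN : ‖z‖ ^ 2 + 33554432 * R ≤ 7318349394477056)
    (hz' : ‖z' - (z + (q:ℂ) * (k0 X Y - z ^ 2 / 16777216))‖ ≤ 3 / 2)
    (hε' : ‖ε' - (ε + (q:ℂ) - 2 * (q:ℂ) * (z / 16777216 * ε))‖ * 65536 ≤ 3 / 2)
    (hw : ‖16777216 - 2 * (q:ℂ) * z‖ ≤ G + 1) :
    ‖stp c E W - (z' + ε' * (E - k0 X Y))‖ ≤ r2 te tf C r G R := by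
  have hr0 : (0:ℝ) ≤ r := Nat.cast_nonneg _
  have hR0 : (0:ℝ) ≤ R := Nat.cast_nonneg _
  have hG0 : (0:ℝ) ≤ G := Nat.cast_nonneg _
  have ht' : (t:ℝ) ≤ 16777216 := by exact_mod_cast ht
  have ht0 : (0:ℝ) ≤ t := Nat.cast_nonneg _
  have hCr : (C:ℝ) ≤ 16777216 := by exact_mod_cast hC
  have hC0 : (0:ℝ) ≤ C := Nat.cast_nonneg _
  have hrR' : (r:ℝ) ≤ R := by exact_mod_cast hrR
  have hR1 : (R:ℝ) ≤ 218103808 := by nlinarith [sq_nonneg ‖z‖]
  set τ : ℝ := 1 + (t:ℝ) / 65536 with hτ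
  have hτ0 : 0 ≤ τ := by rw [hτ]; positivity
  have hτ1 : τ ≤ 257 := by
    rw [hτ]
    have : (t:ℝ) / 65536 ≤ 256 := by rw [div_le_iff₀ (by norm_num)]; linarith
    linarith
  -- the factor is bounded
  have hmain := ana_real (C := C) (c := c) (q := q) (r := r) (R := R + τ) (w := G + 1) (t := t)
    (d1 := 3 / 2) (X := X) (Y := Y) (nE := nE) (E := E) (W := W) (z := z) (ε := ε) (z' := z')
    (ε' := ε') hC hqa hcq hX hY ht' hr0 (by positivity) hE hW hε hR (by linarith)
    (by linarith) hz' hε' hw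
  refine hmain.trans ?_
  unfold r2
  rw [shr_eq, shr_eq]
  simp only [Nat.add_eq, Nat.mul_eq]
  have e24 : (2:ℕ) ^ 24 = 16777216 := by norm_num
  rw [e24]
  have h1 := div_lower (C * R) (16777216) (by norm_num)
  have h2 := div_lower (G * r + R * (C * R / 16777216 + tf)) 16777216 (by norm_num)
  have h3 := div_lower t 32768 (by norm_num)
  have htf' : (tf:ℝ) = ((t / 32768 : ℕ) : ℝ) + 32 := by rw [htf]; push_cast; ring
  push_cast at h1 h2 h3 ⊢
  set Q1 : ℝ := ((C * R / 16777216 : ℕ) : ℝ) with hQ1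
  clear_value Q1
  rw [htf'] at h2
  set T1 : ℝ := ((t / 32768 : ℕ) : ℝ) with hT1
  clear_value T1
  have h4 : (C:ℝ) * R ^ 2 / 16777216 - R ≤ R * Q1 := by
    have : R * ((C:ℝ) * R / 16777216 - 1) ≤ R * Q1 := mul_le_mul_of_nonneg_left (by linarith) hR0
    have e : R * ((C:ℝ) * R / 16777216 - 1) = (C:ℝ) * R ^ 2 / 16777216 - R := by ring
    linarith
  have h5 : R * ((t:ℝ) / 32768 + 31) ≤ R * (T1 + 32) := mul_le_mul_of_nonneg_left (by linarith) hR0
  have h6 : (C:ℝ) * (R + τ) ^ 2 / 16777216 ≤ C * R ^ 2 / 16777216 + 2 * R * τ + τ ^ 2 := by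
    have e : (C:ℝ) * (R + τ) ^ 2 / 16777216 = C * R ^ 2 / 16777216 + C / 16777216 * (2 * R * τ + τ ^ 2) := by
      ring
    have e2 : (C:ℝ) / 16777216 * (2 * R * τ + τ ^ 2) ≤ 1 * (2 * R * τ + τ ^ 2) := by
      apply mul_le_mul_of_nonneg_right _ (by positivity)
      rw [div_le_one (by norm_num)]; exact hCr
    linarith
  have h7 : τ ^ 2 ≤ 257 ^ 2 := pow_le_pow_left₀ hτ0 hτ1 2
  have h8 : 2 * R * τ = 2 * R + R * ((t:ℝ) / 32768) := by rw [hτ]; ring
  have h9 : ((G:ℝ) + 1) * r + 25 * (R + τ) + C * (R + τ) ^ 2 / 16777216 ≤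
      G * r + R * (Q1 + (T1 + 32)) + 16777216 := by
    have e : R * (Q1 + (T1 + 32)) = R * Q1 + R * (T1 + 32) := by ring
    have e3 : R * ((t:ℝ) / 32768 + 31) = R * ((t:ℝ) / 32768) + 31 * R := by ring
    rw [e]
    linarith
  have h10 : (((G:ℝ) + 1) * r + 25 * (R + τ) + C * (R + τ) ^ 2 / 16777216) / 16777216 ≤
      (G * r + R * (Q1 + (T1 + 32))) / 16777216 + 1 := by
    rw [div_le_iff₀ (by norm_num)]
    have e : ((G * r + R * (Q1 + (T1 + 32))) / 16777216 + 1) * 16777216 =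
      G * r + R * (Q1 + (T1 + 32)) + 16777216 := by ring
    rw [e]
    exact h9
  linarith

end Pool.Agent.W_4481e3_q12.PnR
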