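import Pool.Agent.W_4481e3_q46.Frame
import Pool.Agent.W_4481e3_q12.Pq.R64
import Pool.Agent.W_4481e3_q12.Pq.R90
import Pool.Agent.W_4481e3_q12.Pq.R128
import Pool.Agent.W_4481e3_q12.Pq.R181
import Pool.Agent.W_4481e3_q12.Pq.R256
import Pool.Agent.W_4481e3_q12.Pq.R362
import Pool.Agent.W_4481e3_q12.Pq.R512
import Pool.Agent.W_4481e3_q12.Pq.R724
import Pool.Agent.W_4481e3_q12.Pq.R884

/-!
Period certificates of the upper nine rows.
-/

namespace Pool.Agent.W_4481e3_q12.Pq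

open Pool.Agent.W_4481e3_q46 Pool.Agent.W_4481e3_q59 Pool.Agent.W_4481e3_q59.PEv

/-- from the root of a row to the period certificate at a parameter of the frame -/
theorem perQ_of {D : PD} (hD : D.Root) {ε : ℂ} (h : Par ε) {A : ℝ} (hA : A * 16777216 ≤ D.a0) :
    PerQ ε 1 A (D.h / 16777216) (99 / 100) D.κ D.β :=
  D.perQ hD h.2.2.2.1 h.2.2.2.2.1 h.im_sq hA

theorem row64 {ε : ℂ} (h : Par ε) : PerQ ε 1 (101 / 100 * 64) ((8192 : ℕ) / 16777216) (99 / 100) R64.D.κ R64.D.β :=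
  perQ_of R64.root h (by show _ ≤ ((1084479244 : ℕ) : ℝ); norm_num)

theorem row90 {ε : ℂ} (h : Par ε) : PerQ ε 1 (101 / 100 * (905 / 10)) ((4096 : ℕ) / 16777216) (99 / 100) R90.D.κ R90.D.β :=
  perQ_of R90.root h (by show _ ≤ ((1533521430 : ℕ) : ℝ); norm_num)

theorem row128 {ε : ℂ} (h : Par ε) : PerQ ε 1 (101 / 100 * 128) ((4096 : ℕ) / 16777216) (99 / 100) R128.D.κ R128.D.β :=
  perQ_of R128.root h (by show _ ≤ ((2168958486 : ℕ) : ℝ); norm_num)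

theorem row181 {ε : ℂ} (h : Par ε) : PerQ ε 1 (101 / 100 * 181) ((2048 : ℕ) / 16777216) (99 / 100) R181.D.κ R181.D.β :=
  perQ_of R181.root h (by show _ ≤ ((3067042858 : ℕ) : ℝ); norm_num)

theorem row256 {ε : ℂ} (h : Par ε) : PerQ ε 1 (101 / 100 * 256) ((2048 : ℕ) / 16777216) (99 / 100) R256.D.κ R256.D.β :=
  perQ_of R256.root h (by show _ ≤ ((4337916970 : ℕ) : ℝ); norm_num)

theorem row362 {ε : ℂ} (h : Par ε) : PerQ ε 1 (101 / 100 * 362) ((1024 : ℕ) / 16777216) (99 / 100) R362.D.κ R362.D.β :=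
  perQ_of R362.root h (by show _ ≤ ((6134085715 : ℕ) : ℝ); norm_num)

theorem row512 {ε : ℂ} (h : Par ε) : PerQ ε 1 (101 / 100 * 512) ((1024 : ℕ) / 16777216) (99 / 100) R512.D.κ R512.D.β :=
  perQ_of R512.root h (by show _ ≤ ((8675833939 : ℕ) : ℝ); norm_num)

theorem row724 {ε : ℂ} (h : Par ε) : PerQ ε 1 (101 / 100 * 724) ((1024 : ℕ) / 16777216) (99 / 100) R724.D.κ R724.D.β :=
  perQ_of R724.root h (by show _ ≤ ((12268171429 : ℕ) : ℝ); norm_num)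

theorem row884 {ε : ℂ} (h : Par ε) : PerQ ε 1 (101 / 100 * 884) ((1024 : ℕ) / 16777216) (99 / 100) R884.D.κ R884.D.β :=
  perQ_of R884.root h (by show _ ≤ ((14979369535 : ℕ) : ℝ); norm_num)

end Pool.Agent.W_4481e3_q12.Pq
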