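import Pool.Agent.W_4481e3_q46.Frame
import Pool.Agent.W_4481e3_q12.Pq
import Pool.Agent.W_4481e3_q12.Pq.R2
import Pool.Agent.W_4481e3_q12.Pq.R283
import Pool.Agent.W_4481e3_q12.Pq.R4
import Pool.Agent.W_4481e3_q12.Pq.R566
import Pool.Agent.W_4481e3_q12.Pq.R8
import Pool.Agent.W_4481e3_q12.Pq.R113
import Pool.Agent.W_4481e3_q12.Pq.R16
import Pool.Agent.W_4481e3_q12.Pq.R226
import Pool.Agent.W_4481e3_q12.Pq.R32
import Pool.Agent.W_4481e3_q12.Pq.R453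

/-!
Period certificates of the lower ten rows.
-/

namespace Pool.Agent.W_4481e3_q12.Pq

open Pool.Agent.W_4481e3_q46 Pool.Agent.W_4481e3_q59 Pool.Agent.W_4481e3_q59.PEv

theorem row2 {ε : ℂ} (h : Par ε) : PerQ ε 1 (101 / 100 * 2) ((16384 : ℕ) / 16777216) (99 / 100) R2.D.κ R2.D.β :=
  perQ_of R2.root h (by show _ ≤ ((33889978 : ℕ) : ℝ); norm_num)

theorem row283 {ε : ℂ} (h : Par ε) : PerQ ε 1 (101 / 100 * (283 / 100)) ((32768 : ℕ) / 16777216) (99 / 100) R283.D.κ R283.D.β :=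
  perQ_of R283.root h (by show _ ≤ ((47954318 : ℕ) : ℝ); norm_num)

theorem row4 {ε : ℂ} (h : Par ε) : PerQ ε 1 (101 / 100 * 4) ((32768 : ℕ) / 16777216) (99 / 100) R4.D.κ R4.D.β :=
  perQ_of R4.root h (by show _ ≤ ((67779954 : ℕ) : ℝ); norm_num)

theorem row566 {ε : ℂ} (h : Par ε) : PerQ ε 1 (101 / 100 * (566 / 100)) ((16384 : ℕ) / 16777216) (99 / 100) R566.D.κ R566.D.β :=
  perQ_of R566.root h (by show _ ≤ ((95908634 : ℕ) : ℝ); norm_num)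

theorem row8 {ε : ℂ} (h : Par ε) : PerQ ε 1 (101 / 100 * 8) ((16384 : ℕ) / 16777216) (99 / 100) R8.D.κ R8.D.β :=
  perQ_of R8.root h (by show _ ≤ ((135559907 : ℕ) : ℝ); norm_num)

theorem row113 {ε : ℂ} (h : Par ε) : PerQ ε 1 (101 / 100 * (113 / 10)) ((16384 : ℕ) / 16777216) (99 / 100) R113.D.κ R113.D.β :=
  perQ_of R113.root h (by show _ ≤ ((191478368 : ℕ) : ℝ); norm_num)

theorem row16 {ε : ℂ} (h : Par ε) : PerQ ε 1 (101 / 100 * 16) ((16384 : ℕ) / 16777216) (99 / 100) R16.D.κ R16.D.β :=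
  perQ_of R16.root h (by show _ ≤ ((271119812 : ℕ) : ℝ); norm_num)

theorem row226 {ε : ℂ} (h : Par ε) : PerQ ε 1 (101 / 100 * (226 / 10)) ((8192 : ℕ) / 16777216) (99 / 100) R226.D.κ R226.D.β :=
  perQ_of R226.root h (by show _ ≤ ((382956734 : ℕ) : ℝ); norm_num)

theorem row32 {ε : ℂ} (h : Par ε) : PerQ ε 1 (101 / 100 * 32) ((8192 : ℕ) / 16777216) (99 / 100) R32.D.κ R32.D.β :=
  perQ_of R32.root h (by show _ ≤ ((542239623 : ℕ) : ℝ); norm_num)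

theorem row453 {ε : ℂ} (h : Par ε) : PerQ ε 1 (101 / 100 * (453 / 10)) ((8192 : ℕ) / 16777216) (99 / 100) R453.D.κ R453.D.β :=
  perQ_of R453.root h (by show _ ≤ ((767607965 : ℕ) : ℝ); norm_num)

end Pool.Agent.W_4481e3_q12.Pq
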