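import Pool.Agent.W_4481e3_q12.DataA
import Pool.Agent.W_4481e3_q12.DataB
import Pool.Agent.W_4481e3_q12.DataC
import Pool.Agent.W_4481e3_q12.DataD

/-!
The whole tree.
-/

namespace Pool.Agent.W_4481e3_q12.Ev

theorem c7 : Cov 2097152 2097152 2097152 542375936 509345792 5505024 :=
  Cov.w (h := 2752512) (by norm_num) (by norm_num) p3 p4 p5 p6

theorem c14 : Cov 2097152 2097152 2097152 549257216 510722048 1376256 :=
  Cov.w (h := 688128) (by norm_num) (by norm_num) p10 p11 p12 p13

theorem c18 : Cov 2097152 2097152 2097152 550633472 512098304 2752512 :=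
  Cov.w (h := 1376256) (by norm_num) (by norm_num) c14 p15 p16 p17

theorem c21 : Cov 2097152 2097152 2097152 553385984 509345792 5505024 :=
  Cov.w (h := 2752512) (by norm_num) (by norm_num) p9 c18 p19 p20

theorem c22 : Cov 2097152 2097152 2097152 547880960 503840768 11010048 :=
  Cov.w (h := 5505024) (by norm_num) (by norm_num) p2 c7 p8 c21

theorem c26 : Cov 2097152 2097152 2097152 558891008 514850816 22020096 :=
  Cov.w (h := 11010048) (by norm_num) (by norm_num) c22 p23 p24 p25

theorem c36 : Cov 2097152 2097152 2097152 543064064 563707904 688128 :=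
  Cov.e (H := 1048576) (by norm_num) (by norm_num) p32 p33 p34 p35

theorem c39 : Cov 2097152 2097152 2097152 543752192 563019776 1376256 :=
  Cov.w (h := 688128) (by norm_num) (by norm_num) p31 c36 p37 p38

theorem c42 : Cov 2097152 2097152 2097152 545128448 561643520 2752512 :=
  Cov.w (h := 1376256) (by norm_num) (by norm_num) p30 c39 p40 p41

theorem c44 : Cov 2097152 2097152 2097152 542375936 564396032 5505024 :=
  Cov.w (h := 2752512) (by norm_num) (by norm_num) p28 p29 c42 p43

theorem c54 : Cov 2097152 2097152 2097152 549945344 563707904 688128 :=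
  Cov.e (H := 1048576) (by norm_num) (by norm_num) p50 p51 p52 p53

theorem c55 : Cov 2097152 2097152 2097152 549257216 563019776 1376256 :=
  Cov.w (h := 688128) (by norm_num) (by norm_num) p47 p48 p49 c54

theorem c58 : Cov 2097152 2097152 2097152 550633472 561643520 2752512 :=
  Cov.w (h := 1376256) (by norm_num) (by norm_num) p46 c55 p56 p57

theorem c62 : Cov 2097152 2097152 2097152 553385984 564396032 5505024 :=
  Cov.w (h := 2752512) (by norm_num) (by norm_num) c58 p59 p60 p61

theorem c64 : Cov 2097152 2097152 2097152 547880960 569901056 11010048 :=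
  Cov.w (h := 5505024) (by norm_num) (by norm_num) c44 p45 c62 p63

theorem c69 : Cov 2097152 2097152 2097152 564396032 542375936 5505024 :=
  Cov.w (h := 2752512) (by norm_num) (by norm_num) p65 p66 p67 p68

theorem c73 : Cov 2097152 2097152 2097152 569901056 547880960 11010048 :=
  Cov.w (h := 5505024) (by norm_num) (by norm_num) c69 p70 p71 p72

theorem c75 : Cov 2097152 2097152 2097152 558891008 558891008 22020096 :=
  Cov.w (h := 11010048) (by norm_num) (by norm_num) p27 c64 c73 p74

theorem c76 : Cov 2097152 2097152 2097152 536870912 536870912 44040192 :=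
  Cov.w (h := 22020096) (by norm_num) (by norm_num) p0 p1 c26 c75

theorem root : Cov 2097152 2097152 2097152 536870912 536870912 44040192 := c76

end Pool.Agent.W_4481e3_q12.Ev
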